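import Mathlib
import Pool.Agent.Lib_MP_394d50_bo.FDefs

/-!
# MP_394d50_gt, poly-(bi-orderable) groups: valued division rings, valued free embeddings
-/

namespace SingerBO

/-- `O` is the valuation ring of a discrete valuation `v` of the division ring `E` with `v 2 = 1`: every
`x ≠ 0` is `2 ^ v x * u` with a unit `u` of `O`. -/
structure VR {E : Type} [DivisionRing E] (O : Subring E) : Prop where
  half : (2 : E)⁻¹ ∉ O
  fac : ∀ x : E, x ≠ 0 → ∃ (j : ℤ) (u : E), u ∈ O ∧ u⁻¹ ∈ O ∧ x = 2 ^ j * u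

/-- `v x ≥ k`. -/
def Dv {E : Type} [DivisionRing E] (O : Subring E) (k : ℤ) (x : E) : Prop := 2 ^ (-k) * x ∈ O

/-- Valued free embeddings: the left and right cosets of every subgroup `H` are independent modulo `2` over
the integral elements of the division ring generated by `H`. -/
structure VFE {G E : Type} [Group G] [DivisionRing E] (O : Subring E) (t : G →* Eˣ) : Prop where
  mem : ∀ g, ((t g : Eˣ) : E) ∈ O
  left : ∀ (H : Subgroup G) (F : Finset G) (d : G → E),
    (∀ g ∈ F, ∀ g' ∈ F, g⁻¹ * g' ∈ H → g = g') → (∀ g ∈ F, d g ∈ DH t H ∧ d g ∈ O) →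
    Dv O 1 (∑ g ∈ F, ((t g : Eˣ) : E) * d g) → ∀ g ∈ F, Dv O 1 (d g)
  right : ∀ (H : Subgroup G) (F : Finset G) (d : G → E),
    (∀ g ∈ F, ∀ g' ∈ F, g' * g⁻¹ ∈ H → g = g') → (∀ g ∈ F, d g ∈ DH t H ∧ d g ∈ O) →
    Dv O 1 (∑ g ∈ F, d g * ((t g : Eˣ) : E)) → ∀ g ∈ F, Dv O 1 (d g)

/-- `r` is a strict total order on `A`, invariant under the multiplications on the left. -/
structure LO {A : Type} [Group A] (r : A → A → Prop) : Prop where
  irrefl : ∀ x, ¬ r x x
  trans : ∀ x y z, r x y → r y z → r x z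
  total : ∀ x y, x ≠ y → r x y ∨ r y x
  left : ∀ g x y, r x y → r (g * x) (g * y)

/-- The class of groups for which the method works. -/
structure Good (G : Type) [Group G] : Prop where
  li : LocInd G
  lo : ∃ r : G → G → Prop, LO r
  fe : ∃ (E : Type) (_ : DivisionRing E) (O : Subring E) (t : G →* Eˣ), VR O ∧ VFE O t ∧
    ∀ x : E, x ∈ DH t ⊤

end SingerBO
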