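import Mathlib
import Pool.Agent.Lib_MP_394d50_pb.VDefs

/-!
# Piece PO-V1a: calculus of the valuation, first part (about 120 lines)

Everything follows from `VR.half`, `VR.fac`. `2 ^ j` (`j : ℤ`) is central in `E` (`(Nat.cast_commute 2 x).zpow_left j` or
`Commute.ofNat_left`). `2 ≠ 0` since otherwise `2⁻¹ = 0 ∈ O`.
* key: if `u, u⁻¹ ∈ O`, then `2 ^ j * u ∈ O ↔ 0 ≤ j` (if `j < 0` then `2⁻¹ = 2 ^ (-j-1) * (2 ^ j * u) * u⁻¹ ∈ O`).
* `dv_two_unit`: `Dv O k (2 ^ j * u) ↔ k ≤ j` (`2 ^ (-k) * (2 ^ j * u) = 2 ^ (j - k) * u`, `zpow_add₀`). `exists_vl`, `vl_mul`, `vl_inv`: write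
  `x = 2 ^ j * u` (`fac`), `(2 ^ i * u) * (2 ^ j * w) = 2 ^ (i + j) * (u * w)` (`two_zpow_comm`), `(2 ^ j * u)⁻¹ = 2 ^ (-j) * u⁻¹`. In `vl_mul`, `vl_inv` `x ≠ 0`
  since `Dv O k 0` holds for all `k`; the `j` of `fac` is the given one.
-/

namespace SingerBO

variable {E : Type} [DivisionRing E] {O : Subring E}

theorem VR.two_ne (h : VR O) : (2 : E) ≠ 0 := by
  intro h0
  apply h.half
  rw [h0, inv_zero]
  exact O.zero_mem

theorem VR.charZero (h : VR O) : CharZero E := by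
  obtain ⟨p, hp⟩ := CharP.exists E
  rcases CharP.char_is_prime_or_zero E p with hpp | hp0
  · exfalso
    rcases hpp.eq_two_or_odd' with h2 | ⟨m, hm⟩
    · subst h2
      have h3 := CharP.cast_eq_zero E 2
      exact h.two_ne (by exact_mod_cast h3)
    · have h3 := CharP.cast_eq_zero E p
      have h4 : (2 : E) * ((m + 1 : ℕ) : E) = 1 := by
        have h5 : ((2 * (m + 1) : ℕ) : E) = ((p + 1 : ℕ) : E) := by
          congr 1
          omega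
        rw [Nat.cast_mul, Nat.cast_add p 1, h3, zero_add, Nat.cast_one] at h5
        exact_mod_cast h5
      apply h.half
      have h6 : (2 : E)⁻¹ = ((m + 1 : ℕ) : E) := inv_eq_of_mul_eq_one_right h4
      rw [h6]
      exact natCast_mem O (m + 1)
  · subst hp0
    exact CharP.charP_to_charZero E

theorem two_zpow_comm (j : ℤ) (x : E) : 2 ^ j * x = x * 2 ^ j := by
  have h := (Nat.cast_commute 2 x).zpow_left₀ j
  rw [Nat.cast_ofNat] at h
  exact h.eq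

theorem dv_zero (k : ℤ) : Dv O k (0 : E) := by
  unfold Dv
  rw [mul_zero]
  exact O.zero_mem

theorem dv_iff_mem (x : E) : Dv O 0 x ↔ x ∈ O := by
  unfold Dv
  rw [neg_zero, zpow_zero, one_mul]

theorem Dv.add {k : ℤ} {x y : E} (hx : Dv O k x) (hy : Dv O k y) : Dv O k (x + y) := by
  unfold Dv at *
  rw [mul_add]
  exact O.add_mem hx hy

theorem Dv.neg {k : ℤ} {x : E} (hx : Dv O k x) : Dv O k (-x) := by
  unfold Dv at *
  rw [mul_neg]
  exact O.neg_mem hx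

theorem Dv.sub {k : ℤ} {x y : E} (hx : Dv O k x) (hy : Dv O k y) : Dv O k (x - y) := by
  unfold Dv at *
  rw [mul_sub]
  exact O.sub_mem hx hy

theorem Dv.sum {k : ℤ} {ι : Type} (s : Finset ι) (f : ι → E) (h : ∀ i ∈ s, Dv O k (f i)) :
    Dv O k (∑ i ∈ s, f i) := by
  unfold Dv at *
  rw [Finset.mul_sum]
  exact O.sum_mem h

private theorem two_pow_mem (n : ℕ) : (2 : E) ^ (n : ℤ) ∈ O := by
  rw [zpow_natCast]
  exact O.pow_mem (by rw [← one_add_one_eq_two]; exact O.add_mem O.one_mem O.one_mem) n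

private theorem two_zpow_mem {j : ℤ} (hj : 0 ≤ j) : (2 : E) ^ j ∈ O := by
  obtain ⟨n, rfl⟩ := Int.eq_ofNat_of_zero_le hj
  exact two_pow_mem n

theorem Dv.mono (h : VR O) {k l : ℤ} (hkl : k ≤ l) {x : E} (hx : Dv O l x) : Dv O k x := by
  unfold Dv at *
  have h1 : (2 : E) ^ (-k) * x = 2 ^ (l - k) * (2 ^ (-l) * x) := by
    rw [← mul_assoc, ← zpow_add₀ h.two_ne]
    congr 2
    ring
  rw [h1]
  exact O.mul_mem (two_zpow_mem (by omega)) hx

private theorem key_mem (h : VR O) {u : E} (hu : u ∈ O) (hu' : u⁻¹ ∈ O) (hu0 : u ≠ 0) (j : ℤ) :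
    2 ^ j * u ∈ O ↔ 0 ≤ j := by
  constructor
  · intro hm
    by_contra hj
    push Not at hj
    apply h.half
    have h1 : (2 : E)⁻¹ = 2 ^ (-j - 1) * (2 ^ j * u) * u⁻¹ := by
      rw [mul_assoc, mul_assoc, mul_inv_cancel₀ hu0, mul_one, ← zpow_add₀ h.two_ne, ← zpow_neg_one]
      congr 1
      ring
    rw [h1]
    exact O.mul_mem (O.mul_mem (two_zpow_mem (by omega)) hm) hu'
  · intro hj
    exact O.mul_mem (two_zpow_mem hj) hu

/-- the value of `2 ^ j * u`, `u` a unit -/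
theorem dv_two_unit (h : VR O) {u : E} (hu : u ∈ O) (hu' : u⁻¹ ∈ O) (hu0 : u ≠ 0) (j k : ℤ) :
    Dv O k (2 ^ j * u) ↔ k ≤ j := by
  unfold Dv
  rw [← mul_assoc, ← zpow_add₀ h.two_ne, key_mem h hu hu' hu0]
  omega

/-- the valuation -/
theorem exists_vl (h : VR O) {x : E} (hx : x ≠ 0) : ∃ j : ℤ, ∀ k, Dv O k x ↔ k ≤ j := by
  obtain ⟨j, u, hu, hu', rfl⟩ := h.fac x hx
  exact ⟨j, fun k => dv_two_unit h hu hu' (right_ne_zero_of_mul hx) j k⟩

private theorem fac_vl (h : VR O) {x : E} {j : ℤ} (hx : ∀ k, Dv O k x ↔ k ≤ j) :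
    ∃ u : E, u ∈ O ∧ u⁻¹ ∈ O ∧ u ≠ 0 ∧ x = 2 ^ j * u := by
  have hx0 : x ≠ 0 := by
    intro h0
    have h1 := (hx (j + 1)).1 (h0 ▸ dv_zero (j + 1))
    omega
  obtain ⟨i, u, hu, hu', hxu⟩ := h.fac x hx0
  have hu0 : u ≠ 0 := by
    intro h0
    apply hx0
    rw [hxu, h0, mul_zero]
  have hij : i = j := by
    have h1 : ∀ k, k ≤ i ↔ k ≤ j := fun k => by
      rw [← hx k, hxu]
      exact (dv_two_unit h hu hu' hu0 i k).symm
    exact le_antisymm ((h1 i).1 le_rfl) ((h1 j).2 le_rfl)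
  exact ⟨u, hu, hu', hu0, by rw [← hij]; exact hxu⟩

theorem vl_mul (h : VR O) {x y : E} {i j : ℤ} (hx : ∀ k, Dv O k x ↔ k ≤ i)
    (hy : ∀ k, Dv O k y ↔ k ≤ j) (k : ℤ) : Dv O k (x * y) ↔ k ≤ i + j := by
  obtain ⟨u, hu, hu', hu0, rfl⟩ := fac_vl h hx
  obtain ⟨w, hw, hw', hw0, rfl⟩ := fac_vl h hy
  have h1 : (2 : E) ^ i * u * (2 ^ j * w) = 2 ^ (i + j) * (u * w) := by
    rw [zpow_add₀ h.two_ne]
    calc (2 : E) ^ i * u * (2 ^ j * w) = 2 ^ i * (u * 2 ^ j) * w := by simp only [mul_assoc]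
      _ = 2 ^ i * (2 ^ j * u) * w := by rw [two_zpow_comm j u]
      _ = 2 ^ i * 2 ^ j * (u * w) := by simp only [mul_assoc]
  rw [h1]
  exact dv_two_unit h (O.mul_mem hu hw) (by rw [mul_inv_rev]; exact O.mul_mem hw' hu')
    (mul_ne_zero hu0 hw0) (i + j) k

theorem vl_inv (h : VR O) {x : E} {j : ℤ} (hx : ∀ k, Dv O k x ↔ k ≤ j) (k : ℤ) :
    Dv O k x⁻¹ ↔ k ≤ -j := by
  obtain ⟨u, hu, hu', hu0, rfl⟩ := fac_vl h hx
  have h1 : ((2 : E) ^ j * u)⁻¹ = 2 ^ (-j) * u⁻¹ := by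
    rw [mul_inv_rev, ← zpow_neg]
    exact (two_zpow_comm (-j) u⁻¹).symm
  rw [h1]
  exact dv_two_unit h hu' (by rw [inv_inv]; exact hu) (inv_ne_zero hu0) (-j) k

theorem Dv.mul (h : VR O) {k l : ℤ} {x y : E} (hx : Dv O k x) (hy : Dv O l y) :
    Dv O (k + l) (x * y) := by
  unfold Dv at *
  have h1 : (2 : E) ^ (-(k + l)) * (x * y) = (2 ^ (-k) * x) * (2 ^ (-l) * y) := by
    have h2 : (2 : E) ^ (-(k + l)) = 2 ^ (-k) * 2 ^ (-l) := by
      rw [← zpow_add₀ h.two_ne]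
      congr 1
      ring
    rw [h2]
    calc (2 : E) ^ (-k) * 2 ^ (-l) * (x * y) = 2 ^ (-k) * (2 ^ (-l) * x) * y := by simp only [mul_assoc]
      _ = 2 ^ (-k) * (x * 2 ^ (-l)) * y := by rw [two_zpow_comm (-l) x]
      _ = 2 ^ (-k) * x * (2 ^ (-l) * y) := by simp only [mul_assoc]
  rw [h1]
  exact O.mul_mem hx hy

theorem dv_scale (h : VR O) (j k : ℤ) (x : E) : Dv O (k + j) (2 ^ j * x) ↔ Dv O k x := by
  unfold Dv
  rw [← mul_assoc, ← zpow_add₀ h.two_ne]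
  have h1 : -(k + j) + j = -k := by ring
  rw [h1]

/-- every element has a valuation (`0` has all) -/
theorem exists_dv (h : VR O) (x : E) : ∃ m : ℤ, Dv O m x := by
  by_cases hx : x = 0
  · exact ⟨0, by rw [hx]; exact dv_zero 0⟩
  · obtain ⟨j, hj⟩ := exists_vl h hx
    exact ⟨j, (hj j).2 le_rfl⟩

theorem exists_val (h : VR O) {x : E} (hx : x ≠ 0) : ∃ m : ℤ, Dv O m x ∧ ¬ Dv O (m + 1) x := by
  obtain ⟨j, hj⟩ := exists_vl h hx
  refine ⟨j, (hj j).2 le_rfl, fun h1 => ?_⟩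
  have h2 := (hj (j + 1)).1 h1
  omega

theorem eq_zero_of_dv (h : VR O) {x : E} (hx : ∀ k, Dv O k x) : x = 0 := by
  by_contra h0
  obtain ⟨j, hj⟩ := exists_vl h h0
  have h2 := (hj (j + 1)).1 (hx (j + 1))
  omega

end SingerBO
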