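import Mathlib
import Pool.Agent.Lib_MP_394d50_pb.VBasic1

/-!
# Piece PO-V1b: calculus of the valuation, second part (about 120 lines)

Everything follows from `VR.half`, `VR.fac`. `2 ^ j` (`j : ℤ`) is central in `E` (`(Nat.cast_commute 2 x).zpow_left j` or
`Commute.ofNat_left`). `2 ≠ 0` since otherwise `2⁻¹ = 0 ∈ O`.
* Most statements: for `x = 0` everything satisfies `Dv` (`dv_zero`); otherwise take the valuations (`exists_vl`) of the elements, rewrite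
  every `Dv` with `vl_mul`, `vl_inv` as an inequality, and use `omega`. A unit `u` (`u, u⁻¹ ∈ O`) has valuation `0` (`dv_iff_mem`, `vl_inv`).
* `dv_odd`: `m = 2 c + 1`, so `(m : E) ∈ O` and `m ≠ 0` in `E` (if `(m : E) = 0` then `2 * (-c) = 1`, `2⁻¹ ∈ O`); write `m = 2 ^ j * u`,
  `j ≥ 0` as `m ∈ O`; if `j ≥ 1` then `1 = m - 2 c ∈ 2 O`, so `2⁻¹ ∈ O`; so `j = 0`, `m⁻¹ = u⁻¹ ∈ O`.
-/

namespace SingerBO

variable {E : Type} [DivisionRing E] {O : Subring E}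

private theorem ne_zero_of_not_dv {k : ℤ} {x : E} (hx : ¬ Dv O k x) : x ≠ 0 := by
  rintro rfl
  exact hx (dv_zero k)

private theorem vl_unit (h : VR O) {u : E} (hu : u ∈ O) (hu' : u⁻¹ ∈ O) (hu0 : u ≠ 0) (k : ℤ) :
    Dv O k u ↔ k ≤ 0 := by
  have h1 := dv_two_unit h hu hu' hu0 0 k
  rwa [zpow_zero, one_mul] at h1

theorem not_dv_mul (h : VR O) {k l : ℤ} {x y : E} (hx : ¬ Dv O (k + 1) x) (hy : ¬ Dv O (l + 1) y) :
    ¬ Dv O (k + l + 1) (x * y) := by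
  obtain ⟨i, hi⟩ := exists_vl h (ne_zero_of_not_dv hx)
  obtain ⟨j, hj⟩ := exists_vl h (ne_zero_of_not_dv hy)
  rw [hi] at hx
  rw [hj] at hy
  rw [vl_mul h hi hj]
  omega

/-- division by an element of valuation exactly `m` -/
theorem dv_of_mul (h : VR O) {k m : ℤ} {x y : E} (hx : ¬ Dv O (m + 1) x) (hxy : Dv O k (x * y)) :
    Dv O (k - m) y := by
  by_cases hy0 : y = 0
  · rw [hy0]
    exact dv_zero _
  obtain ⟨i, hi⟩ := exists_vl h (ne_zero_of_not_dv hx)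
  obtain ⟨j, hj⟩ := exists_vl h hy0
  rw [hi] at hx
  rw [vl_mul h hi hj] at hxy
  rw [hj]
  omega

theorem dv_inv (h : VR O) {m : ℤ} {x : E} (hx : ¬ Dv O (m + 1) x) : Dv O (-m) x⁻¹ := by
  obtain ⟨i, hi⟩ := exists_vl h (ne_zero_of_not_dv hx)
  rw [hi] at hx
  rw [vl_inv h hi]
  omega

theorem dv_inv_iff (h : VR O) {x : E} (hx : x ≠ 0) (k : ℤ) : Dv O k x⁻¹ ↔ ¬ Dv O (-k + 1) x := by
  obtain ⟨i, hi⟩ := exists_vl h hx
  rw [vl_inv h hi, hi]
  omega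

theorem dv_unit_mul (h : VR O) {u : E} (hu : u ∈ O) (hu' : u⁻¹ ∈ O) (hu0 : u ≠ 0) (k : ℤ) (x : E) :
    Dv O k (u * x) ↔ Dv O k x := by
  by_cases hx : x = 0
  · rw [hx, mul_zero]
  obtain ⟨i, hi⟩ := exists_vl h hx
  rw [vl_mul h (vl_unit h hu hu' hu0) hi, hi, zero_add]

theorem dv_mul_unit (h : VR O) {u : E} (hu : u ∈ O) (hu' : u⁻¹ ∈ O) (hu0 : u ≠ 0) (k : ℤ) (x : E) :
    Dv O k (x * u) ↔ Dv O k x := by
  by_cases hx : x = 0
  · rw [hx, zero_mul]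
  obtain ⟨i, hi⟩ := exists_vl h hx
  rw [vl_mul h hi (vl_unit h hu hu' hu0), hi, add_zero]

/-- integral elements which are not divisible by `2` are units -/
theorem inv_mem_of_not_dv (h : VR O) {x : E} (hx : ¬ Dv O 1 x) (hxO : x ∈ O) : x⁻¹ ∈ O := by
  have h1 := dv_inv h (m := 0) (x := x) (by rwa [zero_add])
  rwa [neg_zero, dv_iff_mem] at h1

private theorem half_notMem (h : VR O) : (2 : E) ^ (-1 : ℤ) ∉ O := by
  rw [zpow_neg_one]
  exact h.half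

theorem not_dv_one (h : VR O) : ¬ Dv O 1 (1 : E) := by
  intro h1
  unfold Dv at h1
  rw [mul_one] at h1
  exact half_notMem h h1

theorem dv_odd (h : VR O) {m : ℤ} (hm : Odd m) : (m : E) ∈ O ∧ (m : E)⁻¹ ∈ O ∧ (m : E) ≠ 0 := by
  obtain ⟨c, hc⟩ := hm
  have hmO : (m : E) ∈ O := intCast_mem O m
  have hcO : (c : E) ∈ O := intCast_mem O c
  have h2 : (2 : E) ≠ 0 := h.two_ne
  have hn : ¬ Dv O 1 (m : E) := by
    intro h1
    unfold Dv at h1
    have h3 : (2 : E) ^ (-1 : ℤ) * (m : E) = c + (2 : E) ^ (-1 : ℤ) := by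
      rw [hc, zpow_neg_one]
      push_cast
      rw [mul_add, mul_one, ← mul_assoc, inv_mul_cancel₀ h2, one_mul]
    rw [h3] at h1
    have h4 : (2 : E) ^ (-1 : ℤ) ∈ O := by
      have h5 := O.sub_mem h1 hcO
      rwa [add_sub_cancel_left] at h5
    exact half_notMem h h4
  exact ⟨hmO, inv_mem_of_not_dv h hn hmO, ne_zero_of_not_dv hn⟩

end SingerBO
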