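import Mathlib
import Pool.Agent.Lib_MP_394d50_pb.VBasic1
import Pool.Agent.Lib_MP_394d50_pb.VBasic2

/-!
# Calculus of the valuation
-/
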