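import Mathlib
import Pool.Agent.Lib_MP_394d50_pb.VBasic

/-!
# Piece PO-V2a: valued free embeddings, independence (about 150 lines)

* `vfe_left_k`: suppose some `d g`, `g ∈ F`, does not satisfy `Dv O k`. Let `m` be the least valuation of the `d g`, `g ∈ F`
  (`exists_val`, `Finset.exists_min_image` over the non-zero ones; or: induction, or `Int` well-foundedness: the set of
  the `j ≤ k` such that all `Dv O j (d g)` has a largest element `m < k`). Multiply by `2 ^ (-m)` (central, in `DH t H`: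
  `DH t H` is a subfield, `2 ^ (-m) ∈ DH t H`): all `2 ^ (-m) * d g` are in `O`, the sum satisfies `Dv O (k - m)`, so `Dv O 1`
  (`Dv.mono`), so `Dv O 1 (2 ^ (-m) * d g)` for all `g ∈ F` by `VFE.left`: contradiction with the choice of `m`.
* `vfe_left_idx`, `vfe_right_idx`: `F = s.image n` (`n` is injective on `s` by the hypothesis, `1 ∈ H`), `d' x = d i` for `x = n i`, `i ∈ s` (choose `i`),
  `Finset.sum_image`.
-/

namespace SingerBO

variable {G E : Type} [Group G] [DivisionRing E] {O : Subring E} {t : G →* Eˣ}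

private theorem two_zpow_mem_DH (H : Subgroup G) (j : ℤ) : (2 : E) ^ j ∈ DH t H :=
  zpow_mem (by rw [← one_add_one_eq_two]; exact add_mem (one_mem _) (one_mem _)) j

private theorem exists_dv_all (hO : VR O) (F : Finset G) (d : G → E) :
    ∃ m : ℤ, ∀ g ∈ F, Dv O m (d g) := by
  classical
  induction F using Finset.induction_on with
  | empty => exact ⟨0, fun g hg => absurd hg (Finset.notMem_empty g)⟩
  | insert a F _ ih =>
    obtain ⟨m, hm⟩ := ih
    obtain ⟨l, hl⟩ := exists_dv hO (d a)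
    refine ⟨min m l, fun g hg => ?_⟩
    rcases Finset.mem_insert.mp hg with rfl | hg
    · exact hl.mono hO (min_le_right _ _)
    · exact (hm g hg).mono hO (min_le_left _ _)

private theorem climb (hO : VR O) (k : ℤ) (F : Finset G) (d : G → E)
    (step : ∀ j : ℤ, j + 1 ≤ k → (∀ g ∈ F, Dv O j (d g)) → ∀ g ∈ F, Dv O (j + 1) (d g)) :
    ∀ g ∈ F, Dv O k (d g) := by
  obtain ⟨m, hm⟩ := exists_dv_all hO F d
  rcases le_total k m with hkm | hmk
  · exact fun g hg => (hm g hg).mono hO hkm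
  · have h : ∀ j : ℤ, m ≤ j → j ≤ k → ∀ g ∈ F, Dv O j (d g) := by
      intro j hj
      induction j, hj using Int.le_induction with
      | base => exact fun _ => hm
      | succ j _ ih => exact fun hjk => step j hjk (ih (by omega))
    exact h k hmk le_rfl

private theorem of_scaled (hO : VR O) {j : ℤ} {x : E} (h : Dv O 1 (2 ^ (-j) * x)) :
    Dv O (j + 1) x := by
  have h1 := dv_scale hO (-j) (j + 1) x
  rw [show j + 1 + -j = 1 by ring] at h1
  exact h1.mp h

private theorem to_scaled (hO : VR O) {j k : ℤ} (hjk : j + 1 ≤ k) {x : E} (h : Dv O k x) :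
    Dv O 1 (2 ^ (-j) * x) :=
  ((dv_scale hO (-j) k x).mpr h).mono hO (by omega)

theorem vfe_left_k (hO : VR O) (hF : VFE O t) (k : ℤ) (H : Subgroup G) (F : Finset G) (d : G → E)
    (h1 : ∀ g ∈ F, ∀ g' ∈ F, g⁻¹ * g' ∈ H → g = g') (h2 : ∀ g ∈ F, d g ∈ DH t H)
    (h3 : Dv O k (∑ g ∈ F, ((t g : Eˣ) : E) * d g)) : ∀ g ∈ F, Dv O k (d g) := by
  refine climb hO k F d fun j hjk hj g hg => of_scaled hO ?_
  refine hF.left H F (fun g => 2 ^ (-j) * d g) h1
    (fun g hg => ⟨mul_mem (two_zpow_mem_DH H _) (h2 g hg), hj g hg⟩) ?_ g hg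
  have h4 : ∑ g ∈ F, ((t g : Eˣ) : E) * (2 ^ (-j) * d g) =
      2 ^ (-j) * ∑ g ∈ F, ((t g : Eˣ) : E) * d g := by
    rw [Finset.mul_sum]
    refine Finset.sum_congr rfl fun x _ => ?_
    rw [← mul_assoc, ← mul_assoc, two_zpow_comm]
  rw [h4]
  exact to_scaled hO hjk h3

theorem vfe_right_k (hO : VR O) (hF : VFE O t) (k : ℤ) (H : Subgroup G) (F : Finset G) (d : G → E)
    (h1 : ∀ g ∈ F, ∀ g' ∈ F, g' * g⁻¹ ∈ H → g = g') (h2 : ∀ g ∈ F, d g ∈ DH t H)
    (h3 : Dv O k (∑ g ∈ F, d g * ((t g : Eˣ) : E))) : ∀ g ∈ F, Dv O k (d g) := by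
  refine climb hO k F d fun j hjk hj g hg => of_scaled hO ?_
  refine hF.right H F (fun g => 2 ^ (-j) * d g) h1
    (fun g hg => ⟨mul_mem (two_zpow_mem_DH H _) (h2 g hg), hj g hg⟩) ?_ g hg
  have h4 : ∑ g ∈ F, 2 ^ (-j) * d g * ((t g : Eˣ) : E) =
      2 ^ (-j) * ∑ g ∈ F, d g * ((t g : Eˣ) : E) := by
    rw [Finset.mul_sum]
    exact Finset.sum_congr rfl fun x _ => mul_assoc _ _ _
  rw [h4]
  exact to_scaled hO hjk h3

/-- the same with an index set -/
theorem vfe_left_idx (hF : VFE O t) {ι : Type} (H : Subgroup G) (s : Finset ι) (n : ι → G)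
    (d : ι → E) (h1 : ∀ i ∈ s, ∀ j ∈ s, (n i)⁻¹ * n j ∈ H → i = j)
    (h2 : ∀ i ∈ s, d i ∈ DH t H ∧ d i ∈ O) (h3 : Dv O 1 (∑ i ∈ s, ((t (n i) : Eˣ) : E) * d i)) :
    ∀ i ∈ s, Dv O 1 (d i) := by
  classical
  intro i hi
  have : Nonempty ι := ⟨i⟩
  have hinj : Set.InjOn n (s : Set ι) := fun a ha b hb hab =>
    h1 a ha b hb (by rw [hab, inv_mul_cancel]; exact H.one_mem)
  have he : ∀ j ∈ s, Function.invFunOn n (s : Set ι) (n j) = j := fun j hj =>
    hinj.leftInvOn_invFunOn hj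
  have h4 := hF.left H (s.image n) (fun g => d (Function.invFunOn n (s : Set ι) g))
    (by
      intro g hg g' hg' hgg
      obtain ⟨a, ha, rfl⟩ := Finset.mem_image.mp hg
      obtain ⟨b, hb, rfl⟩ := Finset.mem_image.mp hg'
      rw [h1 a ha b hb hgg])
    (by
      intro g hg
      obtain ⟨a, ha, rfl⟩ := Finset.mem_image.mp hg
      simp only [he a ha]
      exact h2 a ha)
    (by
      rw [Finset.sum_image hinj]
      have h5 : ∑ x ∈ s, ((t (n x) : Eˣ) : E) * d (Function.invFunOn n (s : Set ι) (n x)) =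
          ∑ x ∈ s, ((t (n x) : Eˣ) : E) * d x :=
        Finset.sum_congr rfl fun x hx => by rw [he x hx]
      rw [h5]
      exact h3) (n i) (Finset.mem_image_of_mem n hi)
  simp only [he i hi] at h4
  exact h4

theorem vfe_right_idx (hF : VFE O t) {ι : Type} (H : Subgroup G) (s : Finset ι) (n : ι → G)
    (d : ι → E) (h1 : ∀ i ∈ s, ∀ j ∈ s, n j * (n i)⁻¹ ∈ H → i = j)
    (h2 : ∀ i ∈ s, d i ∈ DH t H ∧ d i ∈ O) (h3 : Dv O 1 (∑ i ∈ s, d i * ((t (n i) : Eˣ) : E))) :
    ∀ i ∈ s, Dv O 1 (d i) := by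
  classical
  intro i hi
  have : Nonempty ι := ⟨i⟩
  have hinj : Set.InjOn n (s : Set ι) := fun a ha b hb hab =>
    h1 a ha b hb (by rw [hab, mul_inv_cancel]; exact H.one_mem)
  have he : ∀ j ∈ s, Function.invFunOn n (s : Set ι) (n j) = j := fun j hj =>
    hinj.leftInvOn_invFunOn hj
  have h4 := hF.right H (s.image n) (fun g => d (Function.invFunOn n (s : Set ι) g))
    (by
      intro g hg g' hg' hgg
      obtain ⟨a, ha, rfl⟩ := Finset.mem_image.mp hg
      obtain ⟨b, hb, rfl⟩ := Finset.mem_image.mp hg'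
      rw [h1 a ha b hb hgg])
    (by
      intro g hg
      obtain ⟨a, ha, rfl⟩ := Finset.mem_image.mp hg
      simp only [he a ha]
      exact h2 a ha)
    (by
      rw [Finset.sum_image hinj]
      have h5 : ∑ x ∈ s, d (Function.invFunOn n (s : Set ι) (n x)) * ((t (n x) : Eˣ) : E) =
          ∑ x ∈ s, d x * ((t (n x) : Eˣ) : E) :=
        Finset.sum_congr rfl fun x hx => by rw [he x hx]
      rw [h5]
      exact h3) (n i) (Finset.mem_image_of_mem n hi)
  simp only [he i hi] at h4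
  exact h4

end SingerBO
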