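import Mathlib
import Pool.Agent.Lib_MP_394d50_pb.VFree1
import Pool.Agent.Lib_MP_394d50_bo.OFeb

/-!
# Piece PO-V2b: valued free embeddings, consequences (about 130 lines)

* `vfe_feb`: `∑ = 0` gives `Dv O k` of the sum for all `k`, so `Dv O k (d g)` for all `k`, so `d g = 0` (`eq_zero_of_dv`).
* `vfe_sub`: as `fe_sub` in OFeb.lean (copy its proof), `O' = O.comap (DH t ⊤).subtype` (`Subring.comap`); `VR`: `fac` in `E` gives
  `x = 2 ^ j * u`, `u = 2 ^ (-j) * x ∈ DH t ⊤`. `Dv O' k x ↔ Dv O k (x : E)` is definitional up to casts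
  (`(2 : DH t ⊤) ^ (-k) * x` maps to `2 ^ (-k) * (x : E)`: `map_mul`, `map_zpow₀`, `map_ofNat` of `(DH t ⊤).subtype`).
-/

namespace SingerBO

variable {G E : Type} [Group G] [DivisionRing E] {O : Subring E} {t : G →* Eˣ}

theorem vfe_feb (hO : VR O) (hF : VFE O t) : FEb t where
  left := fun H F d h1 h2 h3 g hg => eq_zero_of_dv hO fun k =>
    vfe_left_k hO hF k H F d h1 h2 (by rw [h3]; exact dv_zero k) g hg
  right := fun H F d h1 h2 h3 g hg => eq_zero_of_dv hO fun k =>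
    vfe_right_k hO hF k H F d h1 h2 (by rw [h3]; exact dv_zero k) g hg

private theorem dv_comap (D : Subfield E) (k : ℤ) (x : D) :
    Dv (O.comap D.subtype) k x ↔ Dv O k (x : E) := by
  unfold Dv
  rw [Subring.mem_comap, map_mul, map_zpow₀, map_ofNat]
  rfl

private theorem vr_comap (hO : VR O) (D : Subfield E) : VR (O.comap D.subtype) where
  half := by
    intro h
    rw [Subring.mem_comap, map_inv₀, map_ofNat] at h
    exact hO.half h
  fac := by
    intro x hx
    have hx' : (x : E) ≠ 0 := fun h => hx (Subtype.ext h)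
    obtain ⟨j, u, hu, hu', he⟩ := hO.fac _ hx'
    have h2 : (2 : E) ≠ 0 := hO.two_ne
    have hcoe : D.subtype (2 ^ (-j) * x) = u := by
      rw [map_mul, map_zpow₀, map_ofNat]
      show (2 : E) ^ (-j) * (x : E) = u
      rw [he, ← mul_assoc, ← zpow_add₀ h2, neg_add_cancel, zpow_zero, one_mul]
    refine ⟨j, 2 ^ (-j) * x, ?_, ?_, ?_⟩
    · rw [Subring.mem_comap, hcoe]
      exact hu
    · rw [Subring.mem_comap, map_inv₀, hcoe]
      exact hu'
    · have h2' : (2 : D) ≠ 0 := by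
        intro h
        apply h2
        have := congrArg D.subtype h
        rwa [map_ofNat, map_zero] at this
      rw [← mul_assoc, ← zpow_add₀ h2', add_neg_cancel, zpow_zero, one_mul]

/-- The embedding in the division ring generated by the group. -/
theorem vfe_sub (hO : VR O) (hF : VFE O t) :
    ∃ (E' : Type) (_ : DivisionRing E') (O' : Subring E') (t' : G →* E'ˣ), VR O' ∧ VFE O' t' ∧
      ∀ x : E', x ∈ DH t' ⊤ := by
  let t' : G →* (DH t ⊤)ˣ :=
    { toFun := fun g => ⟨⟨((t g : Eˣ) : E), mem_DH t (Subgroup.mem_top g)⟩,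
        ⟨((t g⁻¹ : Eˣ) : E), mem_DH t (Subgroup.mem_top g⁻¹)⟩,
        Subtype.ext (by
          show ((t g : Eˣ) : E) * ((t g⁻¹ : Eˣ) : E) = 1
          rw [← Units.val_mul, ← map_mul, mul_inv_cancel, map_one, Units.val_one]),
        Subtype.ext (by
          show ((t g⁻¹ : Eˣ) : E) * ((t g : Eˣ) : E) = 1
          rw [← Units.val_mul, ← map_mul, inv_mul_cancel, map_one, Units.val_one])⟩
      map_one' := Units.ext (Subtype.ext (by
        show ((t 1 : Eˣ) : E) = 1
        rw [map_one, Units.val_one]))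
      map_mul' := fun g g' => Units.ext (Subtype.ext (by
        show ((t (g * g') : Eˣ) : E) = ((t g : Eˣ) : E) * ((t g' : Eˣ) : E)
        rw [map_mul, Units.val_mul])) }
  have ht' : ∀ g, (((t' g : (DH t ⊤)ˣ) : DH t ⊤) : E) = ((t g : Eˣ) : E) := fun g => rfl
  have hin : ∀ (H : Subgroup G) (x : DH t ⊤), x ∈ DH t' H → (x : E) ∈ DH t H := by
    intro H x hx
    refine Subfield.closure_induction (p := fun (x : DH t ⊤) _ => (x : E) ∈ DH t H)
      ?_ ?_ ?_ ?_ ?_ ?_ hx
    · rintro x ⟨g, hg, rfl⟩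
      exact mem_DH t hg
    · exact (DH t H).one_mem
    · exact fun x y _ _ hx hy => (DH t H).add_mem hx hy
    · exact fun x _ hx => (DH t H).neg_mem hx
    · exact fun x _ hx => (DH t H).inv_mem hx
    · exact fun x y _ _ hx hy => (DH t H).mul_mem hx hy
  have hgen : ∀ (y : E) (hy : y ∈ DH t ⊤), (⟨y, hy⟩ : DH t ⊤) ∈ DH t' ⊤ := by
    intro y hy
    refine Subfield.closure_induction
      (p := fun (y : E) (hy : y ∈ DH t ⊤) => (⟨y, hy⟩ : DH t ⊤) ∈ DH t' ⊤)
      ?_ ?_ ?_ ?_ ?_ ?_ hy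
    · rintro x ⟨g, hg, rfl⟩
      exact mem_DH t' (Subgroup.mem_top g)
    · exact (DH t' ⊤).one_mem
    · exact fun x y _ _ hx hy => (DH t' ⊤).add_mem hx hy
    · exact fun x _ hx => (DH t' ⊤).neg_mem hx
    · exact fun x _ hx => (DH t' ⊤).inv_mem hx
    · exact fun x y _ _ hx hy => (DH t' ⊤).mul_mem hx hy
  refine ⟨DH t ⊤, inferInstance, O.comap (DH t ⊤).subtype, t', vr_comap hO _, ⟨?_, ?_, ?_⟩,
    fun x => hgen x.1 x.2⟩
  · intro g
    rw [Subring.mem_comap]
    exact hF.mem g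
  · intro H F d h1 h2 h3 g hg
    rw [dv_comap]
    refine hF.left H F (fun g => (d g : E)) h1 (fun g hg => ⟨hin H _ (h2 g hg).1, (h2 g hg).2⟩) ?_
      g hg
    rw [dv_comap] at h3
    have h4 : ((∑ g ∈ F, ((t' g : (DH t ⊤)ˣ) : DH t ⊤) * d g : DH t ⊤) : E) =
        ∑ g ∈ F, (((t' g : (DH t ⊤)ˣ) : DH t ⊤) : E) * (d g : E) :=
      map_sum (DH t ⊤).subtype _ F
    rw [h4] at h3
    exact h3
  · intro H F d h1 h2 h3 g hg
    rw [dv_comap]
    refine hF.right H F (fun g => (d g : E)) h1 (fun g hg => ⟨hin H _ (h2 g hg).1, (h2 g hg).2⟩) ?_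
      g hg
    rw [dv_comap] at h3
    have h4 : ((∑ g ∈ F, d g * ((t' g : (DH t ⊤)ˣ) : DH t ⊤) : DH t ⊤) : E) =
        ∑ g ∈ F, (d g : E) * (((t' g : (DH t ⊤)ˣ) : DH t ⊤) : E) :=
      map_sum (DH t ⊤).subtype _ F
    rw [h4] at h3
    exact h3

end SingerBO
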