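import Mathlib
import Pool.Agent.Lib_MP_394d50_pb.VBasic
import Pool.Agent.Lib_MP_394d50_pb.VFree
import Pool.Agent.Lib_MP_394d50_bo.LDefs

/-!
# MP_394d50_gt, poly-(bi-orderable) groups: 2-adic Laurent series (the rules) and expansions
-/

namespace SingerBO

/-- The rules of the 2-adic Laurent series over `(E, O)` in a central variable `z`. `L` is the ring, `OL` its valuation
ring, `Λ n a = a z ^ n`, and `Cf k n f a` says that the coefficient of `f` of degree `n` is `a` modulo `2 ^ k`. -/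
structure LV {E L : Type} [DivisionRing E] [DivisionRing L] (O : Subring E) (OL : Subring L)
    (Λ : ℤ → E → L) (Cf : ℤ → ℤ → L → E → Prop) : Prop where
  vr : VR OL
  la : ∀ n a b, Λ n (a + b) = Λ n a + Λ n b
  lm : ∀ m n a b, Λ m a * Λ n b = Λ (m + n) (a * b)
  lo : Λ 0 1 = 1
  ex : ∀ k n f, ∃ a, Cf k n f a
  cg : ∀ k n f a b, Cf k n f a → (Cf k n f b ↔ Dv O k (a - b))
  ad : ∀ k n f g a b, Cf k n f a → Cf k n g b → Cf k n (f + g) (a + b)
  mo : ∀ k l n f a, k ≤ l → Cf l n f a → Cf k n f a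
  sc : ∀ j k n f a, Cf k n f a → Cf (k + j) n (2 ^ j * f) (2 ^ j * a)
  cl : ∀ k m n a, Cf k n (Λ m a) (if n = m then a else 0)
  ga : ∀ k f, Dv OL k f ↔ ∀ n, Cf k n f 0
  lb : ∀ k f, ∃ l, ∀ n < l, Cf k n f 0
  /-- the product rule for integral series -/
  ml : ∀ (k n : ℤ) (f g : L) (a b : ℤ → E) (I : Finset ℤ), 0 ≤ k → f ∈ OL → g ∈ OL →
    (∀ i, Cf k i f (a i)) → (∀ i, Cf k i g (b i)) → (∀ i, i ∉ I → Dv O k (a i * b (n - i))) →
    Cf k n (f * g) (∑ i ∈ I, a i * b (n - i))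

/-- `θ` is a ring homomorphism on the division ring generated by `H`, isometric, with `θ (t h) = Λ (χ h) (t h)`. -/
structure Th2 {G E L : Type} [Group G] [DivisionRing E] [DivisionRing L] (O : Subring E)
    (OL : Subring L) (Λ : ℤ → E → L) (t : G →* Eˣ) (H : Subgroup G) (χ : G → ℤ) (θ : E → L) :
    Prop where
  add : ∀ x ∈ DH t H, ∀ y ∈ DH t H, θ (x + y) = θ x + θ y
  mul : ∀ x ∈ DH t H, ∀ y ∈ DH t H, θ (x * y) = θ x * θ y
  grp : ∀ h ∈ H, θ ((t h : Eˣ) : E) = Λ (χ h) ((t h : Eˣ) : E)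
  val : ∀ x ∈ DH t H, ∀ k, Dv OL k (θ x) ↔ Dv O k x

end SingerBO
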