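import Mathlib
import Pool.Agent.Lib_MP_394d50_pb.XDefs

/-!
# Piece PO-X2a: consequences of the rules (about 120 lines)

* `lam_zero`, `lam_neg`, `lam_sum`: from `LV.la`.
* `cf_zero`: `ga` for `f = 0` (`dv_zero`). `cf_neg`: let `Cf k n (-f) b` (`ex`); `ad`: `Cf k n 0 (a + b)`, with `cf_zero`, `cg`: `Dv O k (a + b)`, so
  `Cf k n (-f) (-a)`. `cf_one`: `lo`, `cl`. `cf_zero_iff`: `cg` (`a - 0`). `dv_of_cf`: `Cf m n f 0` (`ga`), `mo`, `cg`.
* `lam_mem`: `ga`, `cl`: all coefficients of `Λ n a` are `0` modulo `2 ^ 0` (`cg`, `Dv O 0 (a - 0)`).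
* `exists_first`: some `n` has `¬ Cf (m + 1) n f 0` (`ga`), and there is a lower bound (`lb`): `Int.exists_least_of_bdd`.
-/

namespace SingerBO

variable {E L : Type} [DivisionRing E] [DivisionRing L] {O : Subring E} {OL : Subring L}
  {Λ : ℤ → E → L} {Cf : ℤ → ℤ → L → E → Prop}

theorem lam_zero (h : LV O OL Λ Cf) (n : ℤ) : Λ n 0 = 0 := by
  have h1 := h.la n 0 0
  rw [add_zero] at h1
  exact left_eq_add.1 h1

theorem lam_neg (h : LV O OL Λ Cf) (n : ℤ) (a : E) : Λ n (-a) = - Λ n a := by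
  have h1 := h.la n (-a) a
  rw [neg_add_cancel, lam_zero h] at h1
  exact eq_neg_of_add_eq_zero_left h1.symm

theorem lam_sum (h : LV O OL Λ Cf) (n : ℤ) {ι : Type} (s : Finset ι) (f : ι → E) :
    Λ n (∑ i ∈ s, f i) = ∑ i ∈ s, Λ n (f i) := by
  classical
  induction s using Finset.induction_on with
  | empty => rw [Finset.sum_empty, Finset.sum_empty, lam_zero h]
  | insert a s ha ih => rw [Finset.sum_insert ha, Finset.sum_insert ha, h.la, ih]

theorem lam_mem (hO : VR O) (h : LV O OL Λ Cf) (n : ℤ) {a : E} (ha : a ∈ O) : Λ n a ∈ OL := by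
  rw [← dv_iff_mem, h.ga]
  intro i
  rw [h.cg 0 i (Λ n a) _ 0 (h.cl 0 n i a), sub_zero]
  split_ifs
  · exact (dv_iff_mem a).2 ha
  · exact dv_zero 0

theorem cf_zero (h : LV O OL Λ Cf) (k n : ℤ) : Cf k n 0 0 := (h.ga k 0).1 (dv_zero k) n

theorem cf_neg (hO : VR O) (h : LV O OL Λ Cf) {k n : ℤ} {f : L} {a : E} (hf : Cf k n f a) :
    Cf k n (-f) (-a) := by
  obtain ⟨b, hb⟩ := h.ex k n (-f)
  have h1 := h.ad k n f (-f) a b hf hb
  rw [add_neg_cancel] at h1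
  have h2 := (h.cg k n 0 0 (a + b) (cf_zero h k n)).1 h1
  have h3 := h2.neg
  rw [zero_sub, neg_neg] at h3
  rw [h.cg k n (-f) b (-a) hb, sub_neg_eq_add, add_comm]
  exact h3

theorem cf_one (h : LV O OL Λ Cf) (k n : ℤ) : Cf k n 1 (if n = 0 then 1 else 0) := by
  have h1 := h.cl k 0 n 1
  rwa [h.lo] at h1

theorem cf_zero_iff (hO : VR O) (h : LV O OL Λ Cf) {k n : ℤ} {f : L} {a : E} (hf : Cf k n f a) :
    Cf k n f 0 ↔ Dv O k a := by
  rw [h.cg k n f a 0 hf, sub_zero]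

/-- coefficients of an element of valuation at least `m` -/
theorem dv_of_cf (hO : VR O) (h : LV O OL Λ Cf) {k m n : ℤ} (hk : m ≤ k) {f : L} {a : E}
    (hm : Dv OL m f) (hf : Cf k n f a) : Dv O m a :=
  (cf_zero_iff hO h (h.mo m k n f a hk hf)).1 ((h.ga m f).1 hm n)

/-- an element of `L` with valuation exactly `m` has a least coefficient of valuation `m` -/
theorem exists_first (hO : VR O) (h : LV O OL Λ Cf) {m : ℤ} {f : L} (h1 : ¬ Dv OL (m + 1) f) :
    ∃ n, ¬ Cf (m + 1) n f 0 ∧ ∀ i < n, Cf (m + 1) i f 0 := by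
  rw [h.ga] at h1
  push Not at h1
  obtain ⟨l, hl⟩ := h.lb (m + 1) f
  obtain ⟨n, hn, hmin⟩ := Int.exists_least_of_bdd (P := fun n => ¬ Cf (m + 1) n f 0)
    ⟨l, fun z hz => by
      by_contra hc
      exact hz (hl z (lt_of_not_ge hc))⟩ h1
  refine ⟨n, hn, fun i hi => ?_⟩
  by_contra hc
  exact absurd (hmin i hc) (not_le.2 hi)

end SingerBO
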