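import Mathlib
import Pool.Agent.Lib_MP_394d50_pb.XRul1

/-!
# Piece PO-X2b: the product rule (about 100 lines)

* `cf_mul`: apply `ml` to `2 ^ (-p) * f`, `2 ^ (-q) * g`, `k - p - q`, `2 ^ (-p) * a i`, `2 ^ (-q) * b i` (`sc` with `j = -p`, `-q`;
  `Dv OL p f` is `2 ^ (-p) * f ∈ OL` by definition), and multiply the result by `2 ^ (p + q)` (`sc`; `2 ^ j` is central: `two_zpow_comm`;
  `dv_scale` for the terms outside `I`; `2 ^ p * 2 ^ q * (2 ^ (-p) * x * (2 ^ (-q) * y)) = x * y`).
* `cf_lam_mul`: let `q` with `Dv OL q f` (`exists_dv h.vr`). If `q ≤ k`: `cf_mul` with `p = 0`, `f ↦ Λ m u`, `a i = if i = m then u else 0` (`cl`),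
  `g ↦ f`, `b i` from `ex` except `b n = a` (`Function.update`), `I = {m}`, degree `m + n`. If `k < q`: `Dv OL k f`, so `Cf k n f 0` (`ga`),
  `Dv O k a` (`cg`), so `Dv O k (u * a)` and `Dv OL k (Λ m u * f)` (`Λ m u ∈ OL`), so `Cf k _ (Λ m u * f) 0`, `cg`.
-/

namespace SingerBO

variable {E L : Type} [DivisionRing E] [DivisionRing L] {O : Subring E} {OL : Subring L}
  {Λ : ℤ → E → L} {Cf : ℤ → ℤ → L → E → Prop}

private theorem scal_xr {E : Type} [DivisionRing E] (h2 : (2 : E) ≠ 0) (p q : ℤ) (x y : E) :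
    (2 : E) ^ (p + q) * (2 ^ (-p) * x * (2 ^ (-q) * y)) = x * y := by
  have h1 : (2 : E) ^ (-p) * x * (2 ^ (-q) * y) = 2 ^ (-p) * 2 ^ (-q) * (x * y) := by
    rw [mul_assoc ((2 : E) ^ (-p)) x, ← mul_assoc x, ← two_zpow_comm (-q) x]
    simp only [mul_assoc]
  rw [h1, ← mul_assoc, ← mul_assoc, ← zpow_add₀ h2, ← zpow_add₀ h2]
  rw [show p + q + (-p + -q) = 0 by ring, zpow_zero, one_mul]

private theorem scal2_xr {E : Type} [DivisionRing E] (h2 : (2 : E) ≠ 0) (p q : ℤ) (x y : E) :
    (2 ^ (-p) * x * (2 ^ (-q) * y)) = (2 : E) ^ (-p - q) * (x * y) := by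
  rw [mul_assoc ((2 : E) ^ (-p)) x, ← mul_assoc x, ← two_zpow_comm (-q) x]
  rw [show -p - q = -p + -q by ring, zpow_add₀ h2]
  simp only [mul_assoc]

/-- the product rule -/
theorem cf_mul (hO : VR O) (h : LV O OL Λ Cf) (k n p q : ℤ) (f g : L) (a b : ℤ → E)
    (I : Finset ℤ) (hk : p + q ≤ k) (hp : Dv OL p f) (hq : Dv OL q g)
    (ha : ∀ i, Cf (k - q) i f (a i)) (hb : ∀ i, Cf (k - p) i g (b i))
    (hI : ∀ i, i ∉ I → Dv O k (a i * b (n - i))) : Cf k n (f * g) (∑ i ∈ I, a i * b (n - i)) := by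
  have h1 := h.ml (k - p - q) n (2 ^ (-p) * f) (2 ^ (-q) * g) (fun i => 2 ^ (-p) * a i)
    (fun i => 2 ^ (-q) * b i) I (by omega) hp hq
    (fun i => by
      have := h.sc (-p) (k - q) i f (a i) (ha i)
      rwa [show k - q + -p = k - p - q by ring] at this)
    (fun i => by
      have := h.sc (-q) (k - p) i g (b i) (hb i)
      rwa [show k - p + -q = k - p - q by ring] at this)
    (fun i hi => by
      show Dv O (k - p - q) (2 ^ (-p) * a i * (2 ^ (-q) * b (n - i)))
      rw [scal2_xr hO.two_ne, show k - p - q = k + (-p - q) by ring]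
      exact (dv_scale hO (-p - q) k _).2 (hI i hi))
  have h2 := h.sc (p + q) _ n _ _ h1
  rw [show k - p - q + (p + q) = k by ring, scal_xr h.vr.two_ne, Finset.mul_sum] at h2
  have h3 : ∀ i, (2 : E) ^ (p + q) * ((fun i => 2 ^ (-p) * a i) i * (fun i => 2 ^ (-q) * b i) (n - i))
      = a i * b (n - i) := fun i => scal_xr hO.two_ne p q _ _
  rw [Finset.sum_congr rfl (fun i _ => h3 i)] at h2
  exact h2

theorem cf_lam_mul (hO : VR O) (h : LV O OL Λ Cf) {k n : ℤ} (m : ℤ) {u : E} (hu : u ∈ O) {f : L}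
    {a : E} (hf : Cf k n f a) : Cf k (m + n) (Λ m u * f) (u * a) := by
  obtain ⟨q, hq⟩ := exists_dv h.vr f
  have hm : Dv OL 0 (Λ m u) := (dv_iff_mem _).2 (lam_mem hO h m hu)
  by_cases hqk : q ≤ k
  · choose b' hb' using fun i => h.ex (k - 0) i f
    have h1 := cf_mul hO h k (m + n) 0 q (Λ m u) f (fun i => if i = m then u else 0)
      (Function.update b' n a) {m} (by omega) hm hq (fun i => h.cl (k - q) m i u)
      (fun i => by
        by_cases hi : i = n
        · subst hi
          rw [Function.update_self, show k - 0 = k by ring]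
          exact hf
        · rw [Function.update_of_ne hi]
          exact hb' i)
      (fun i hi => by
        have hi' : i ≠ m := fun h' => hi (by rw [h']; exact Finset.mem_singleton_self m)
        simp only [if_neg hi', zero_mul]
        exact dv_zero k)
    rw [Finset.sum_singleton, show m + n - m = n by ring, Function.update_self] at h1
    simpa using h1
  · have hkf : Dv OL k f := Dv.mono h.vr (by omega) hq
    have h1 : Dv O k a := by
      have := (h.cg k n f a 0 hf).1 ((h.ga k f).1 hkf n)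
      rwa [sub_zero] at this
    have h2 : Dv O k (u * a) := by
      have := Dv.mul hO ((dv_iff_mem u).2 hu) h1
      rwa [zero_add] at this
    have h3 : Dv OL k (Λ m u * f) := by
      have := Dv.mul h.vr hm hkf
      rwa [zero_add] at this
    refine (h.cg k (m + n) _ 0 (u * a) ((h.ga k _).1 h3 _)).2 ?_
    rw [zero_sub]
    exact h2.neg

end SingerBO
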