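import Mathlib
import Pool.Agent.Lib_MP_394d50_pb.XRules
import Pool.Agent.Lib_MP_394d50_bo.GTh

/-!
# Piece PO-X3a: the expansion along a homomorphism (about 280 lines)

Model: `GTh.lean` (the same with `LS D`, `lsg`; its private lemmas `gthE`, `gthL`, `gth_mul`, ... can be copied with `lsg n` replaced by
`Λ n`; `lam_zero`, `h.la`, `h.lm`, `h.lo`). `pl_subring`, `pl_ore`, `pl_den`, `pl_indep`, `pl_le` of GTh.lean may be used, with
`vfe_feb hO hF : FEb t`.
* `theta2_exists`: `f : P →+* L`, `f (∑ d n * t (s ^ n)) = ∑ Λ n (d n * t (s ^ n))` on `P = PL t N s`; injective: `dv_pl`. `ore_ext`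
  gives `θ`; `add`, `mul`, `grp` as in `theta_exists`.
* `dv_pl`: for `x = ∑ n ∈ F, d n * t (s ^ n)`, `d n ∈ DH t N`: `Dv O k x ↔ ∀ n ∈ F, Dv O k (d n)` (`vfe_right_k` for the subgroup `N` and the
  set `F.image (s ^ ·)`, see `pl_indep`; the converse: `Dv.sum`, `Dv.mul` with `t (s ^ n) ∈ O`), and
  `Dv OL k (∑ Λ n (d n * t (s ^ n))) ↔ ∀ n ∈ F, Dv O k (d n)` (`ga`, `cl`, `ad`: the coefficient of degree `n` is `d n * t (s ^ n)` for
  `n ∈ F` and `0` otherwise, `cf_zero_iff`, `dv_mul_unit`).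
* `val`: for `x ∈ PL`: `dv_pl`. For `x ∈ DH t H`: `u * x ∈ PL`, `u ∈ PL`, `u ≠ 0` (`pl_den` for `{x}`), `θ u * θ x = θ (u * x)`. Let `m` be the
  valuation of `u` (`exists_val`), the same for `θ u`. If `Dv O k x` then `Dv O (m + k) (u * x)`, so `Dv OL (m + k) (θ u * θ x)`, so
  `Dv OL k (θ x)` (`dv_of_mul`), and conversely.
-/

namespace SingerBO

variable {G E L : Type} [Group G] [DivisionRing E] [DivisionRing L] {O : Subring E}
  {OL : Subring L} {Λ : ℤ → E → L} {Cf : ℤ → ℤ → L → E → Prop} {t : G →* Eˣ} {H N : Subgroup G}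
  {χ : G → ℤ} {s : G} {θ : E → L}

private noncomputable def xtE (t : G →* Eˣ) (s : G) : (ℤ →₀ E) →+ E :=
  Finsupp.liftAddHom (fun n => AddMonoidHom.mulRight ((t (s ^ n) : Eˣ) : E))

private noncomputable def xtS (h : LV O OL Λ Cf) (n : ℤ) : E →+ L where
  toFun := Λ n
  map_zero' := lam_zero h n
  map_add' := h.la n

private noncomputable def xtL (h : LV O OL Λ Cf) (t : G →* Eˣ) (s : G) : (ℤ →₀ E) →+ L :=
  Finsupp.liftAddHom (fun n => (xtS h n).comp (AddMonoidHom.mulRight ((t (s ^ n) : Eˣ) : E)))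

private theorem xtE_single (t : G →* Eˣ) (s : G) (n : ℤ) (a : E) :
    xtE t s (Finsupp.single n a) = a * ((t (s ^ n) : Eˣ) : E) :=
  Finsupp.liftAddHom_apply_single _ _ _

private theorem xtL_single (h : LV O OL Λ Cf) (t : G →* Eˣ) (s : G) (n : ℤ) (a : E) :
    xtL h t s (Finsupp.single n a) = Λ n (a * ((t (s ^ n) : Eˣ) : E)) :=
  Finsupp.liftAddHom_apply_single _ _ _

private theorem xtE_apply (t : G →* Eˣ) (s : G) (d : ℤ →₀ E) :
    xtE t s d = ∑ n ∈ d.support, d n * ((t (s ^ n) : Eˣ) : E) := rfl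

private theorem xtL_apply (h : LV O OL Λ Cf) (t : G →* Eˣ) (s : G) (d : ℤ →₀ E) :
    xtL h t s d = ∑ n ∈ d.support, Λ n (d n * ((t (s ^ n) : Eˣ) : E)) := rfl

private theorem xt_single_mem (t : G →* Eˣ) (n : ℤ) {a : E} (ha : a ∈ DH t N) (m : ℤ) :
    Finsupp.single n a m ∈ DH t N := by
  classical
  rw [Finsupp.single_apply]
  split_ifs
  · exact ha
  · exact zero_mem _

private theorem xt_mem (t : G →* Eˣ) (N : Subgroup G) (s : G) (x : E) :
    x ∈ PL t N s ↔ ∃ d : ℤ →₀ E, (∀ n, d n ∈ DH t N) ∧ xtE t s d = x := by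
  classical
  constructor
  · rintro ⟨F, d, hd, rfl⟩
    refine ⟨∑ n ∈ F, Finsupp.single n (d n), fun m => ?_, ?_⟩
    · rw [Finsupp.finsetSum_apply]
      exact sum_mem fun n hn => xt_single_mem t n (hd n hn) m
    · rw [map_sum]
      exact Finset.sum_congr rfl fun n _ => xtE_single t s n (d n)
  · rintro ⟨d, hd, rfl⟩
    exact ⟨d.support, d, fun n _ => hd n, xtE_apply t s d⟩

private theorem xt_conj (hc : Chi H N χ s) (m : ℤ) {a : E} (ha : a ∈ DH t N) :
    ∃ b ∈ DH t N, ((t (s ^ m) : Eˣ) : E) * a = b * ((t (s ^ m) : Eˣ) : E) := by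
  refine ⟨_, DH_conj t (k := s ^ m) (fun h hh => hc.conj hh (hc.zpow_mem m)) ha, ?_⟩
  rw [mul_assoc, ← Units.val_mul, inv_mul_cancel, Units.val_one, mul_one]

private theorem xt_zpow (t : G →* Eˣ) (s : G) (m n : ℤ) :
    ((t (s ^ m) : Eˣ) : E) * ((t (s ^ n) : Eˣ) : E) = ((t (s ^ (m + n)) : Eˣ) : E) := by
  rw [← Units.val_mul, ← map_mul, ← zpow_add]

private theorem xt_mul (h : LV O OL Λ Cf) (hc : Chi H N χ s) (d d' : ℤ →₀ E)
    (hd : ∀ n, d n ∈ DH t N) (hd' : ∀ n, d' n ∈ DH t N) :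
    ∃ e : ℤ →₀ E, (∀ n, e n ∈ DH t N) ∧ xtE t s e = xtE t s d * xtE t s d' ∧
      xtL h t s e = xtL h t s d * xtL h t s d' := by
  classical
  have h1 : ∀ m n : ℤ, ∃ b ∈ DH t N, ((t (s ^ m) : Eˣ) : E) * d' n =
      b * ((t (s ^ m) : Eˣ) : E) := fun m n => xt_conj hc m (hd' n)
  choose b hb hbm using h1
  have h2 : ∀ m n : ℤ, d m * b m n * ((t (s ^ (m + n)) : Eˣ) : E) =
      (d m * ((t (s ^ m) : Eˣ) : E)) * (d' n * ((t (s ^ n) : Eˣ) : E)) := by
    intro m n
    rw [← xt_zpow, mul_assoc (d m), mul_assoc (d m), ← mul_assoc (b m n), ← hbm m n, mul_assoc]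
  refine ⟨∑ m ∈ d.support, ∑ n ∈ d'.support, Finsupp.single (m + n) (d m * b m n),
    fun k => ?_, ?_, ?_⟩
  · rw [Finsupp.finsetSum_apply]
    refine sum_mem fun m _ => ?_
    rw [Finsupp.finsetSum_apply]
    exact sum_mem fun n _ => xt_single_mem t _ (mul_mem (hd m) (hb m n)) k
  · rw [map_sum, xtE_apply t s d, xtE_apply t s d', Finset.sum_mul_sum]
    refine Finset.sum_congr rfl fun m _ => ?_
    rw [map_sum]
    refine Finset.sum_congr rfl fun n _ => ?_
    rw [xtE_single, h2]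
  · rw [map_sum, xtL_apply h t s d, xtL_apply h t s d', Finset.sum_mul_sum]
    refine Finset.sum_congr rfl fun m _ => ?_
    rw [map_sum]
    refine Finset.sum_congr rfl fun n _ => ?_
    rw [xtL_single, h2, h.lm]

private theorem xt_one (t : G →* Eˣ) (s : G) : xtE t s (Finsupp.single 0 1) = 1 := by
  rw [xtE_single, zpow_zero, map_one, Units.val_one, mul_one]

private theorem xtL_one (h : LV O OL Λ Cf) (t : G →* Eˣ) (s : G) :
    xtL h t s (Finsupp.single 0 1) = 1 := by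
  rw [xtL_single, zpow_zero, map_one, Units.val_one, mul_one, h.lo]

private theorem xt_closure (hc : Chi H N χ s) {x : E} (hx : x ∈ DH t H) :
    x ∈ Subfield.closure (PL t N s) := by
  have h : DH t H ≤ Subfield.closure (PL t N s) := by
    unfold DH
    rw [Subfield.closure_le]
    rintro x ⟨h, hh, rfl⟩
    refine Subfield.subset_closure ((xt_mem t N s _).mpr
      ⟨Finsupp.single (χ h) ((t (h * s ^ (- χ h)) : Eˣ) : E),
        xt_single_mem t _ (mem_DH t (hc.mul_zpow_mem hh)), ?_⟩)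
    rw [xtE_single, ← Units.val_mul, ← map_mul, mul_assoc, ← zpow_add, neg_add_cancel, zpow_zero,
      mul_one]
  exact h hx

/-! ## The valuations of the Laurent polynomials -/

private theorem xt_inv_mem (hF : VFE O t) (g : G) : (((t g : Eˣ) : E))⁻¹ ∈ O := by
  have h1 : (((t g : Eˣ) : E))⁻¹ = ((t g⁻¹ : Eˣ) : E) := by
    rw [map_inv, Units.val_inv_eq_inv_val]
  rw [h1]
  exact hF.mem _

private theorem xt_dvE (hO : VR O) (hF : VFE O t) (hc : Chi H N χ s) (d : ℤ →₀ E)
    (hd : ∀ n, d n ∈ DH t N) (k : ℤ) : Dv O k (xtE t s d) ↔ ∀ n, Dv O k (d n) := by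
  classical
  constructor
  · intro h0 n
    by_cases hn : n ∈ d.support
    · have hinj : Function.Injective (fun n : ℤ => s ^ n) := by
        intro m n h
        have h1 : s ^ m = s ^ n := h
        rw [← hc.map_zpow m, ← hc.map_zpow n, h1]
      have h1 := vfe_right_k hO hF k N (d.support.image (fun n : ℤ => s ^ n)) (fun g => d (χ g))
        ?_ ?_ ?_
      · have h2 := h1 (s ^ n) (Finset.mem_image_of_mem _ hn)
        rw [hc.map_zpow] at h2
        exact h2
      · intro g hg g' hg' h2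
        obtain ⟨m, _, rfl⟩ := Finset.mem_image.mp hg
        obtain ⟨n, _, rfl⟩ := Finset.mem_image.mp hg'
        have h3 : s ^ n * (s ^ m)⁻¹ = s ^ (n - m) := by rw [zpow_sub]
        have h4 : s ^ (n - m) ∈ N := h3 ▸ h2
        have h5 := hc.zero h4
        rw [hc.map_zpow] at h5
        have h6 : m = n := by omega
        rw [h6]
      · intro g hg
        exact hd _
      · rw [Finset.sum_image fun m _ n _ h => hinj h]
        rw [xtE_apply] at h0
        have h7 : ∑ n ∈ d.support, (fun g => d (χ g)) (s ^ n) * ((t (s ^ n) : Eˣ) : E) =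
            ∑ n ∈ d.support, d n * ((t (s ^ n) : Eˣ) : E) := by
          refine Finset.sum_congr rfl fun n _ => ?_
          show d (χ (s ^ n)) * _ = _
          rw [hc.map_zpow]
        rw [h7]
        exact h0
    · rw [Finsupp.notMem_support_iff.mp hn]
      exact dv_zero k
  · intro h1
    rw [xtE_apply]
    refine Dv.sum _ _ fun n _ => ?_
    have h2 := Dv.mul hO (h1 n) ((dv_iff_mem _).2 (hF.mem (s ^ n)))
    rwa [add_zero] at h2

private theorem xt_cf_sum (h : LV O OL Λ Cf) (k n : ℤ) (F : Finset ℤ) (c : ℤ → E) :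
    Cf k n (∑ m ∈ F, Λ m (c m)) (∑ m ∈ F, if n = m then c m else 0) := by
  classical
  induction F using Finset.induction_on with
  | empty =>
    rw [Finset.sum_empty, Finset.sum_empty]
    exact cf_zero h k n
  | insert a F ha ih =>
    rw [Finset.sum_insert ha, Finset.sum_insert ha]
    exact h.ad k n _ _ _ _ (h.cl k a n (c a)) ih

private theorem xt_cf (h : LV O OL Λ Cf) (d : ℤ →₀ E) (k n : ℤ) :
    Cf k n (xtL h t s d) (d n * ((t (s ^ n) : Eˣ) : E)) := by
  classical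
  have h1 := xt_cf_sum h k n d.support (fun m => d m * ((t (s ^ m) : Eˣ) : E))
  rw [← xtL_apply h t s d] at h1
  have h2 : (∑ m ∈ d.support, if n = m then d m * ((t (s ^ m) : Eˣ) : E) else 0) =
      d n * ((t (s ^ n) : Eˣ) : E) := by
    rw [Finset.sum_ite_eq]
    split_ifs with h3
    · rfl
    · rw [Finsupp.notMem_support_iff.mp h3, zero_mul]
  rw [h2] at h1
  exact h1

private theorem xt_dvL (hO : VR O) (hF : VFE O t) (h : LV O OL Λ Cf) (d : ℤ →₀ E) (k : ℤ) :
    Dv OL k (xtL h t s d) ↔ ∀ n, Dv O k (d n) := by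
  rw [h.ga k]
  refine forall_congr' fun n => ?_
  rw [cf_zero_iff hO h (xt_cf h d k n)]
  exact dv_mul_unit hO (hF.mem _) (xt_inv_mem hF _) (Units.ne_zero _) k (d n)

theorem theta2_exists (hO : VR O) (hF : VFE O t) (h : LV O OL Λ Cf) (hc : Chi H N χ s) :
    ∃ θ : E → L, Th2 O OL Λ t H χ θ := by
  classical
  have hFb : FEb t := vfe_feb hO hF
  obtain ⟨P, hP⟩ := pl_subring t hc
  have hPm : ∀ x, x ∈ P ↔ x ∈ PL t N s := fun x => by rw [← hP]; rfl
  have h1 : ∀ x : P, ∃ d : ℤ →₀ E, (∀ n, d n ∈ DH t N) ∧ xtE t s d = x :=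
    fun x => (xt_mem t N s _).mp ((hPm _).mp x.2)
  choose c hc1 hc2 using h1
  have huniq : ∀ (x : P) (e : ℤ →₀ E), (∀ n, e n ∈ DH t N) → xtE t s e = x → c x = e := by
    intro x e he hxe
    have h2 : xtE t s (c x - e) = 0 := by rw [map_sub, hc2, hxe, sub_self]
    have h3 : ∀ n, (c x - e) n ∈ DH t N := fun n => sub_mem (hc1 x n) (he n)
    have h4 : c x - e = 0 := by
      ext n
      refine eq_zero_of_dv hO fun k => ?_
      refine (xt_dvE hO hF hc (c x - e) h3 k).1 ?_ n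
      rw [h2]
      exact dv_zero k
    exact sub_eq_zero.mp h4
  let f : P →+* L :=
    { toFun := fun x => xtL h t s (c x)
      map_one' := by
        rw [huniq 1 (Finsupp.single 0 1) (xt_single_mem t 0 (one_mem _)) (xt_one t s), xtL_one]
      map_mul' := fun x y => by
        obtain ⟨e, he, h2, h3⟩ := xt_mul h hc (c x) (c y) (hc1 x) (hc1 y)
        rw [huniq (x * y) e he (by rw [h2, hc2, hc2]; rfl), h3]
      map_zero' := by
        rw [huniq 0 0 (fun n => zero_mem _) (map_zero _), map_zero]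
      map_add' := fun x y => by
        rw [huniq (x + y) (c x + c y) (fun n => add_mem (hc1 x n) (hc1 y n))
          (by rw [map_add, hc2, hc2]; rfl), map_add] }
  have hfval : ∀ x : P, f x = xtL h t s (c x) := fun x => rfl
  have hfdv : ∀ (x : P) (k : ℤ), Dv OL k (f x) ↔ Dv O k (x : E) := by
    intro x k
    rw [hfval, xt_dvL hO hF h (c x) k, ← xt_dvE hO hF hc (c x) (hc1 x) k, hc2]
  have hfinj : Function.Injective f := by
    rw [injective_iff_map_eq_zero]
    intro x hx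
    apply Subtype.ext
    refine eq_zero_of_dv hO fun k => (hfdv x k).1 ?_
    rw [hx]
    exact dv_zero k
  obtain ⟨θ, hθ1, hθ2⟩ := ore_ext P (fun a ha b hb hb0 => by
    obtain ⟨a', ha', b', hb', h2, h3⟩ := pl_ore hFb hc ((hPm a).mp ha) ((hPm b).mp hb) hb0
    exact ⟨a', (hPm a').mpr ha', b', (hPm b').mpr hb', h2, h3⟩) f hfinj
  refine ⟨θ, ⟨fun x hx y hy => ?_, fun x hx y hy => ?_, fun g hg => ?_, fun x hx k => ?_⟩⟩
  · exact (hθ2 x (hP ▸ xt_closure hc hx) y (hP ▸ xt_closure hc hy)).1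
  · exact (hθ2 x (hP ▸ xt_closure hc hx) y (hP ▸ xt_closure hc hy)).2
  · have h2 : xtE t s (Finsupp.single (χ g) ((t (g * s ^ (- χ g)) : Eˣ) : E)) =
        ((t g : Eˣ) : E) := by
      rw [xtE_single, ← Units.val_mul, ← map_mul, mul_assoc, ← zpow_add, neg_add_cancel,
        zpow_zero, mul_one]
    have h3 : ∀ n, Finsupp.single (χ g) ((t (g * s ^ (- χ g)) : Eˣ) : E) n ∈ DH t N :=
      xt_single_mem t _ (mem_DH t (hc.mul_zpow_mem hg))
    have h4 : ((t g : Eˣ) : E) ∈ P := (hPm _).mpr ((xt_mem t N s _).mpr ⟨_, h3, h2⟩)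
    have h5 := hθ1 ⟨_, h4⟩
    rw [hfval, huniq ⟨_, h4⟩ _ h3 h2, xtL_single, ← Units.val_mul, ← map_mul, mul_assoc,
      ← zpow_add, neg_add_cancel, zpow_zero, mul_one] at h5
    exact h5
  · obtain ⟨u, hu, hu0, hux⟩ := pl_den hFb hc {x} (by
      intro y hy
      rw [Finset.mem_singleton] at hy
      rw [hy]
      exact hx)
    have hux' := hux x (Finset.mem_singleton_self x)
    have huP : u ∈ P := (hPm u).mpr hu
    have huxP : u * x ∈ P := (hPm _).mpr hux'
    have huH : u ∈ DH t H := pl_le hc hu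
    have hmul : θ (u * x) = θ u * θ x :=
      (hθ2 u (hP ▸ xt_closure hc huH) x (hP ▸ xt_closure hc hx)).2
    have hdu : ∀ k, Dv OL k (θ u) ↔ Dv O k u := by
      intro k
      have := hθ1 ⟨u, huP⟩
      rw [show θ u = f ⟨u, huP⟩ from this]
      exact hfdv ⟨u, huP⟩ k
    have hdux : ∀ k, Dv OL k (θ (u * x)) ↔ Dv O k (u * x) := by
      intro k
      have := hθ1 ⟨u * x, huxP⟩
      rw [show θ (u * x) = f ⟨u * x, huxP⟩ from this]
      exact hfdv ⟨u * x, huxP⟩ k
    obtain ⟨m, hm1, hm2⟩ := exists_val hO hu0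
    constructor
    · intro h6
      have h7 := Dv.mul h.vr ((hdu m).2 hm1) h6
      rw [← hmul, hdux] at h7
      have h8 := dv_of_mul hO hm2 h7
      rwa [add_sub_cancel_left] at h8
    · intro h6
      have h7 := Dv.mul hO hm1 h6
      rw [← hdux, hmul] at h7
      have h8 := dv_of_mul h.vr (fun h9 => hm2 ((hdu (m + 1)).1 h9)) h7
      rwa [add_sub_cancel_left] at h8

end SingerBO
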