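import Mathlib
import Pool.Agent.Lib_MP_394d50_pb.XTh1

/-!
# Piece PO-X3b: rules for the expansion (about 80 lines)

As `Th.zero`, `Th.one`, `Th.neg`, `Th.inv`, `Th.of_ker` in LDefs.lean (`grp 1`, `lo` for `Th2.one`).
* `Th2.of_ker`: on the division ring generated by the kernel `θ x = Λ 0 x` (as `Th.of_ker` in LDefs.lean).
-/

namespace SingerBO

variable {G E L : Type} [Group G] [DivisionRing E] [DivisionRing L] {O : Subring E}
  {OL : Subring L} {Λ : ℤ → E → L} {Cf : ℤ → ℤ → L → E → Prop} {t : G →* Eˣ} {H N : Subgroup G}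
  {χ : G → ℤ} {s : G} {θ : E → L}

theorem Th2.zero (hθ : Th2 O OL Λ t H χ θ) : θ 0 = 0 := by
  have h := hθ.add 0 (zero_mem _) 0 (zero_mem _)
  rw [add_zero] at h
  exact left_eq_add.mp h

theorem Th2.one (hθ : Th2 O OL Λ t H χ θ) (h : LV O OL Λ Cf) (hc : Chi H N χ s) : θ 1 = 1 := by
  have h' := hθ.grp 1 H.one_mem
  rw [map_one, Units.val_one, hc.map_one, h.lo] at h'
  exact h'

theorem Th2.neg (hθ : Th2 O OL Λ t H χ θ) {x : E} (hx : x ∈ DH t H) : θ (-x) = - θ x := by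
  have h := hθ.add x hx (-x) (neg_mem hx)
  rw [add_neg_cancel, hθ.zero] at h
  exact eq_neg_of_add_eq_zero_right h.symm

theorem Th2.inv (hθ : Th2 O OL Λ t H χ θ) (h : LV O OL Λ Cf) (hc : Chi H N χ s) {x : E}
    (hx : x ∈ DH t H) : θ x⁻¹ = (θ x)⁻¹ := by
  by_cases h0 : x = 0
  · rw [h0, inv_zero, hθ.zero, inv_zero]
  · have h' := hθ.mul x hx x⁻¹ (inv_mem hx)
    rw [mul_inv_cancel₀ h0, hθ.one h hc] at h'
    exact eq_inv_of_mul_eq_one_right h'.symm

private theorem lam_zero_XTheta (h : LV O OL Λ Cf) (n : ℤ) : Λ n 0 = 0 := by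
  have h' := h.la n 0 0
  rw [add_zero] at h'
  exact left_eq_add.mp h'

private theorem lam_neg_XTheta (h : LV O OL Λ Cf) (n : ℤ) (a : E) : Λ n (-a) = - Λ n a := by
  have h' := h.la n a (-a)
  rw [add_neg_cancel, lam_zero_XTheta h] at h'
  exact eq_neg_of_add_eq_zero_right h'.symm

theorem Th2.of_ker (hθ : Th2 O OL Λ t H χ θ) (h : LV O OL Λ Cf) (hc : Chi H N χ s) {x : E}
    (hx : x ∈ DH t N) : θ x = Λ 0 x := by
  have hle := DH_mono t hc.le
  unfold DH at hx
  induction hx using Subfield.closure_induction with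
  | mem x hx =>
    obtain ⟨g, hg, rfl⟩ := hx
    rw [hθ.grp g (hc.le hg), hc.zero hg]
  | one => rw [hθ.one h hc, h.lo]
  | add x y hx hy ihx ihy => rw [hθ.add x (hle hx) y (hle hy), ihx, ihy, h.la]
  | neg x hx ih => rw [hθ.neg (hle hx), ih, lam_neg_XTheta h]
  | inv x hx ih =>
    by_cases h0 : x = 0
    · rw [h0, inv_zero, hθ.zero, lam_zero_XTheta h]
    · rw [hθ.inv h hc (hle hx), ih]
      refine inv_eq_of_mul_eq_one_right ?_
      rw [h.lm, mul_inv_cancel₀ h0, add_zero, h.lo]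
  | mul x y hx hy ihx ihy => rw [hθ.mul x (hle hx) y (hle hy), ihx, ihy, h.lm, add_zero]

end SingerBO
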