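import Mathlib
import Pool.Agent.Lib_MP_394d50_pb.XTheta
import Pool.Agent.Lib_MP_394d50_bo.KKey

/-!
# MP_394d50_gt, poly-(bi-orderable) groups: pairs of homogeneous elements, pairs of series
-/

namespace SingerBO

section

variable {G E E' : Type} [Group G] [DivisionRing E] [DivisionRing E']

/-- The pairs of homogeneous elements of degree `n` and complexity less than `B`, given by the same expression. -/
def Hm2 (t : G →* Eˣ) (t' : G →* E'ˣ) (H N : Subgroup G) (χ : G → ℤ) (n : ℤ) (B : Ordinal.{0})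
    (x : E) (x' : E') : Prop :=
  ∃ γ ∈ H, χ γ = n ∧ ∃ q : PE G, q.In N ∧ q.cx < B ∧
    x = ((t γ : Eˣ) : E) * q.val t ∧ x' = ((t' γ : E'ˣ) : E') * q.val t'

/-- The coefficients of degree `n` modulo `2 ^ k` of the two series are given by the same expression. -/
def PH {L L' : Type} (Cf : ℤ → ℤ → L → E → Prop) (Cf' : ℤ → ℤ → L' → E' → Prop)
    (t : G →* Eˣ) (t' : G →* E'ˣ) (H N : Subgroup G) (χ : G → ℤ) (k n : ℤ) (B : Ordinal.{0})
    (f : L) (f' : L') : Prop :=
  ∃ a a', Hm2 t t' H N χ n B a a' ∧ Cf k n f a ∧ Cf' k n f' a'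

/-- The two values of `q` have the same valuation. -/
def EqV (O : Subring E) (O' : Subring E') (t : G →* Eˣ) (t' : G →* E'ˣ) (q : PE G) : Prop :=
  ∀ k, Dv O k (q.val t) ↔ Dv O' k (q.val t')

end

end SingerBO
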