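import Mathlib
import Pool.Agent.Lib_MP_394d50_pb.KDefs

/-!
# Piece PO-K1: calculus of `Hm2` (about 180 lines)

Exactly as `hm_zero`, `hm_mono`, `hm_add`, `hm_grp`, `hm_neg`, `hm_mul`, `hm_inv`, `hm_sum` in `KKey.lean` (copy the proofs and the private
lemmas `kk_add`, `kk_mul`, `kk_inv`, `kk_one`; the witnesses `γ`, `q` are the same on both sides).
`hm2_dv`: `Dv O k (t γ * q.val t) ↔ Dv O k (q.val t)` (`dv_unit_mul`, `t γ ∈ O`, `(t γ)⁻¹ = t γ⁻¹ ∈ O` by `VFE.mem`), the same on the other side,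
and `EqV` for `q`.
-/

namespace SingerBO

variable {G E E' : Type} [Group G] [DivisionRing E] [DivisionRing E'] {t : G →* Eˣ}
  {t' : G →* E'ˣ} {H N : Subgroup G} {χ : G → ℤ} {s : G}

/-- Sum of two translates. -/
private theorem kk2_add {D : Type} [DivisionRing D] {t : G →* Dˣ} (γ γ' : G) (q q' : PE G) :
    ((t γ : Dˣ) : D) * q.val t + ((t γ' : Dˣ) : D) * q'.val t =
      ((t γ : Dˣ) : D) * (PE.add q (γ⁻¹ * γ') q').val t := by
  show _ = ((t γ : Dˣ) : D) * (q.val t + ((t (γ⁻¹ * γ') : Dˣ) : D) * q'.val t)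
  rw [mul_add, ← mul_assoc ((t γ : Dˣ) : D) ((t (γ⁻¹ * γ') : Dˣ) : D), ← Units.val_mul, ← map_mul,
    mul_inv_cancel_left]

/-- Product of two translates. -/
private theorem kk2_mul {D : Type} [DivisionRing D] {t : G →* Dˣ} (γ γ' : G) (q q' : PE G) :
    (((t γ : Dˣ) : D) * q.val t) * (((t γ' : Dˣ) : D) * q'.val t) =
      ((t (γ * γ') : Dˣ) : D) * (PE.mul (PE.conj γ'⁻¹ q) q').val t := by
  show _ = ((t (γ * γ') : Dˣ) : D) * ((PE.conj γ'⁻¹ q).val t * q'.val t)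
  rw [PE.val_conj, map_mul, map_inv, inv_inv, Units.val_mul]
  have h : ((t γ' : Dˣ) : D) * (((t γ')⁻¹ : Dˣ) : D) = 1 := Units.mul_inv _
  calc (((t γ : Dˣ) : D) * q.val t) * (((t γ' : Dˣ) : D) * q'.val t)
      = ((t γ : Dˣ) : D) * 1 * q.val t * ((t γ' : Dˣ) : D) * q'.val t := by
        rw [mul_one]
        simp only [mul_assoc]
    _ = _ := by
        rw [← h]
        simp only [mul_assoc]

/-- Inverse of a translate. -/
private theorem kk2_inv {D : Type} [DivisionRing D] {t : G →* Dˣ} (γ : G) (q : PE G) :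
    (((t γ : Dˣ) : D) * q.val t)⁻¹ = ((t γ⁻¹ : Dˣ) : D) * (PE.conj γ (PE.inv q)).val t := by
  have h : (((t γ)⁻¹ : Dˣ) : D) * ((t γ : Dˣ) : D) = 1 := Units.inv_mul _
  rw [PE.val_conj, map_inv]
  show _ = (((t γ)⁻¹ : Dˣ) : D) * (((t γ : Dˣ) : D) * (q.val t)⁻¹ * (((t γ)⁻¹ : Dˣ) : D))
  rw [mul_inv_rev, ← mul_assoc, ← mul_assoc, h, one_mul, Units.val_inv_eq_inv_val]

/-- Valuation of a translate. -/
private theorem kk2_dv {D : Type} [DivisionRing D] {t : G →* Dˣ} {O : Subring D} (hO : VR O)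
    (hF : VFE O t) (γ : G) (k : ℤ) (x : D) : Dv O k (((t γ : Dˣ) : D) * x) ↔ Dv O k x := by
  refine dv_unit_mul hO (hF.mem γ) ?_ (t γ).ne_zero k x
  have h := hF.mem γ⁻¹
  rwa [map_inv, Units.val_inv_eq_inv_val] at h

private theorem kk2_one {D : Type} [DivisionRing D] {t : G →* Dˣ} (q : PE G) :
    q.val t = ((t 1 : Dˣ) : D) * q.val t := by
  rw [map_one, Units.val_one, one_mul]

theorem hm2_zero (hc : Chi H N χ s) (n : ℤ) {B : Ordinal.{0}} (hB : 0 < B) :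
    Hm2 t t' H N χ n B 0 0 := by
  refine ⟨s ^ n, hc.zpow_mem n, hc.map_zpow n, PE.zero, PE.in_zero N, hB, ?_, ?_⟩
  · show (0 : E) = _ * 0
    rw [mul_zero]
  · show (0 : E') = _ * 0
    rw [mul_zero]

theorem hm2_one (hc : Chi H N χ s) {B : Ordinal.{0}} (hB : 0 < B) : Hm2 t t' H N χ 0 B 1 1 :=
  ⟨1, H.one_mem, hc.map_one, PE.one, PE.in_one N, hB, kk2_one PE.one, kk2_one PE.one⟩

/-- a value of an expression which involves only elements of `N` -/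
theorem hm2_val (hc : Chi H N χ s) {B : Ordinal.{0}} {p : PE G} (hp : p.In N) (hB : p.cx < B) :
    Hm2 t t' H N χ 0 B (p.val t) (p.val t') :=
  ⟨1, H.one_mem, hc.map_one, p, hp, hB, kk2_one p, kk2_one p⟩

theorem hm2_mono {n : ℤ} {B B' : Ordinal.{0}} (h : B ≤ B') {x : E} {x' : E'}
    (hx : Hm2 t t' H N χ n B x x') : Hm2 t t' H N χ n B' x x' := by
  obtain ⟨γ, h1, h2, q, h3, h4, h5, h6⟩ := hx
  exact ⟨γ, h1, h2, q, h3, h4.trans_le h, h5, h6⟩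

theorem hm2_add (hc : Chi H N χ s) {n : ℤ} {B B' C : Ordinal.{0}}
    (hB : ∀ a < B, ∀ b < B', fO a b < C) {x y : E} {x' y' : E'}
    (hx : Hm2 t t' H N χ n B x x') (hy : Hm2 t t' H N χ n B' y y') :
    Hm2 t t' H N χ n C (x + y) (x' + y') := by
  obtain ⟨γ, h1, h2, q, h3, h4, rfl, rfl⟩ := hx
  obtain ⟨γ', h1', h2', q', h3', h4', rfl, rfl⟩ := hy
  refine ⟨γ, h1, h2, PE.add q (γ⁻¹ * γ') q', PE.in_add.mpr ⟨h3, ?_, h3'⟩, hB _ h4 _ h4',
    kk2_add γ γ' q q', kk2_add γ γ' q q'⟩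
  rw [hc.ker]
  refine ⟨H.mul_mem (H.inv_mem h1) h1', ?_⟩
  rw [hc.mul _ (H.inv_mem h1) _ h1', hc.map_inv h1, h2, h2', neg_add_cancel]

theorem hm2_grp (hc : Chi H N χ s) {n : ℤ} {B : Ordinal.{0}} {g : G} (hg : g ∈ H) {x : E}
    {x' : E'} (hx : Hm2 t t' H N χ n B x x') :
    Hm2 t t' H N χ (χ g + n) B (((t g : Eˣ) : E) * x) (((t' g : E'ˣ) : E') * x') := by
  obtain ⟨γ, h1, h2, q, h3, h4, rfl, rfl⟩ := hx
  refine ⟨g * γ, H.mul_mem hg h1, by rw [hc.mul g hg γ h1, h2], q, h3, h4, ?_, ?_⟩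
  · rw [map_mul, Units.val_mul, mul_assoc]
  · rw [map_mul, Units.val_mul, mul_assoc]

theorem hm2_neg {n : ℤ} {B : Ordinal.{0}} {x : E} {x' : E'} (hx : Hm2 t t' H N χ n B x x') :
    Hm2 t t' H N χ n B (-x) (-x') := by
  obtain ⟨γ, h1, h2, q, h3, h4, rfl, rfl⟩ := hx
  refine ⟨γ, h1, h2, PE.neg q, h3, h4, ?_, ?_⟩
  · show - (((t γ : Eˣ) : E) * q.val t) = ((t γ : Eˣ) : E) * (- q.val t)
    rw [mul_neg]
  · show - (((t' γ : E'ˣ) : E') * q.val t') = ((t' γ : E'ˣ) : E') * (- q.val t')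
    rw [mul_neg]

theorem hm2_mul (hc : Chi H N χ s) {n n' : ℤ} {B B' C : Ordinal.{0}}
    (hB : ∀ a < B, ∀ b < B', gO a b < C) {x y : E} {x' y' : E'}
    (hx : Hm2 t t' H N χ n B x x') (hy : Hm2 t t' H N χ n' B' y y') :
    Hm2 t t' H N χ (n + n') C (x * y) (x' * y') := by
  obtain ⟨γ, h1, h2, q, h3, h4, rfl, rfl⟩ := hx
  obtain ⟨γ', h1', h2', q', h3', h4', rfl, rfl⟩ := hy
  refine ⟨γ * γ', H.mul_mem h1 h1', by rw [hc.mul _ h1 _ h1', h2, h2'],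
    PE.mul (PE.conj γ'⁻¹ q) q', PE.in_mul.mpr ⟨PE.in_conj (fun x hx =>
      hc.conj hx (H.inv_mem h1')) h3, h3'⟩, ?_, kk2_mul γ γ' q q', kk2_mul γ γ' q q'⟩
  show gO (PE.conj γ'⁻¹ q).cx q'.cx < C
  rw [PE.cx_conj]
  exact hB _ h4 _ h4'

theorem hm2_inv (hc : Chi H N χ s) {n : ℤ} {B : Ordinal.{0}} {x : E} {x' : E'}
    (hx : Hm2 t t' H N χ n B x x') : Hm2 t t' H N χ (-n) (hO B) x⁻¹ x'⁻¹ := by
  obtain ⟨γ, h1, h2, q, h3, h4, rfl, rfl⟩ := hx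
  refine ⟨γ⁻¹, H.inv_mem h1, by rw [hc.map_inv h1, h2], PE.conj γ (PE.inv q),
    PE.in_conj (fun x hx => hc.conj hx h1) h3, ?_, kk2_inv γ q, kk2_inv γ q⟩
  rw [PE.cx_conj]
  exact hO_mono h4

theorem hm2_sum (hc : Chi H N χ s) {n : ℤ} {C : Ordinal.{0}} (h0 : 0 < C)
    (hC : ∀ a < C, ∀ b < C, fO a b < C) {ι : Type} (F : Finset ι) (f : ι → E) (f' : ι → E')
    (hf : ∀ i ∈ F, Hm2 t t' H N χ n C (f i) (f' i)) :
    Hm2 t t' H N χ n C (∑ i ∈ F, f i) (∑ i ∈ F, f' i) := by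
  classical
  induction F using Finset.induction_on with
  | empty =>
    rw [Finset.sum_empty, Finset.sum_empty]
    exact hm2_zero hc n h0
  | insert a F ha ih =>
    rw [Finset.sum_insert ha, Finset.sum_insert ha]
    exact hm2_add hc hC (hf a (Finset.mem_insert_self a F))
      (ih fun i hi => hf i (Finset.mem_insert_of_mem hi))

theorem hm2_dv {O : Subring E} {O' : Subring E'} (hO : VR O) (hO' : VR O') (hF : VFE O t)
    (hF' : VFE O' t') {n : ℤ} {B : Ordinal.{0}}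
    (hB : ∀ q : PE G, q.In N → q.cx < B → EqV O O' t t' q) {x : E} {x' : E'}
    (hx : Hm2 t t' H N χ n B x x') (k : ℤ) : Dv O k x ↔ Dv O' k x' := by
  obtain ⟨γ, h1, h2, q, h3, h4, rfl, rfl⟩ := hx
  rw [kk2_dv hO hF, kk2_dv hO' hF']
  exact hB q h3 h4 k

end SingerBO
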