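import Mathlib
import Pool.Agent.Lib_MP_394d50_pb.KCalc

/-!
# Piece PO-K2a: calculus of `PH` (about 90 lines)

* `ph_mono`, `ph_prec` (`LV.mo`), `ph_zero` (`Hm2` of `0`; `Cf k n f 0` given), `ph_add` (`LV.ad`), `ph_neg` (`cf_neg`), `ph_grp` (`cf_lam_mul`,
  `hm2_grp`).
-/

namespace SingerBO

variable {G E E' L L' : Type} [Group G] [DivisionRing E] [DivisionRing E'] [DivisionRing L]
  [DivisionRing L'] {O : Subring E} {O' : Subring E'} {OL : Subring L} {OL' : Subring L'}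
  {Λ : ℤ → E → L} {Λ' : ℤ → E' → L'} {Cf : ℤ → ℤ → L → E → Prop} {Cf' : ℤ → ℤ → L' → E' → Prop}
  {t : G →* Eˣ} {t' : G →* E'ˣ} {H N : Subgroup G} {χ : G → ℤ} {s : G}

theorem ph_mono {k n : ℤ} {B B' : Ordinal.{0}} (h : B ≤ B') {f : L} {f' : L'}
    (hf : PH Cf Cf' t t' H N χ k n B f f') : PH Cf Cf' t t' H N χ k n B' f f' := by
  obtain ⟨a, a', h1, h2, h3⟩ := hf
  exact ⟨a, a', hm2_mono h h1, h2, h3⟩

theorem ph_prec (hL : LV O OL Λ Cf) (hL' : LV O' OL' Λ' Cf') {k l n : ℤ} (hkl : k ≤ l)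
    {B : Ordinal.{0}} {f : L} {f' : L'} (hf : PH Cf Cf' t t' H N χ l n B f f') :
    PH Cf Cf' t t' H N χ k n B f f' := by
  obtain ⟨a, a', h1, h2, h3⟩ := hf
  exact ⟨a, a', h1, hL.mo k l n f a hkl h2, hL'.mo k l n f' a' hkl h3⟩

theorem ph_zero (hc : Chi H N χ s) {k n : ℤ} {B : Ordinal.{0}} (hB : 0 < B) {f : L} {f' : L'}
    (h : Cf k n f 0) (h' : Cf' k n f' 0) : PH Cf Cf' t t' H N χ k n B f f' :=
  ⟨0, 0, hm2_zero hc n hB, h, h'⟩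

theorem ph_add (hL : LV O OL Λ Cf) (hL' : LV O' OL' Λ' Cf') (hc : Chi H N χ s) {k n : ℤ}
    {B B' C : Ordinal.{0}} (hB : ∀ a < B, ∀ b < B', fO a b < C) {f g : L} {f' g' : L'}
    (hf : PH Cf Cf' t t' H N χ k n B f f') (hg : PH Cf Cf' t t' H N χ k n B' g g') :
    PH Cf Cf' t t' H N χ k n C (f + g) (f' + g') := by
  obtain ⟨a, a', h1, h2, h3⟩ := hf
  obtain ⟨b, b', g1, g2, g3⟩ := hg
  exact ⟨a + b, a' + b', hm2_add hc hB h1 g1, hL.ad k n f g a b h2 g2, hL'.ad k n f' g' a' b' h3 g3⟩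

theorem ph_neg (hO : VR O) (hO' : VR O') (hL : LV O OL Λ Cf) (hL' : LV O' OL' Λ' Cf') {k n : ℤ}
    {B : Ordinal.{0}} {f : L} {f' : L'} (hf : PH Cf Cf' t t' H N χ k n B f f') :
    PH Cf Cf' t t' H N χ k n B (-f) (-f') := by
  obtain ⟨a, a', h1, h2, h3⟩ := hf
  exact ⟨-a, -a', hm2_neg h1, cf_neg hO hL h2, cf_neg hO' hL' h3⟩

theorem ph_grp (hO : VR O) (hO' : VR O') (hF : VFE O t) (hF' : VFE O' t') (hL : LV O OL Λ Cf)
    (hL' : LV O' OL' Λ' Cf') (hc : Chi H N χ s) {k n : ℤ} {B : Ordinal.{0}} {g : G} (hg : g ∈ H)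
    {f : L} {f' : L'} (hf : PH Cf Cf' t t' H N χ k n B f f') :
    PH Cf Cf' t t' H N χ k (χ g + n) B (Λ (χ g) ((t g : Eˣ) : E) * f)
      (Λ' (χ g) ((t' g : E'ˣ) : E') * f') := by
  obtain ⟨a, a', h1, h2, h3⟩ := hf
  exact ⟨((t g : Eˣ) : E) * a, ((t' g : E'ˣ) : E') * a', hm2_grp hc hg h1,
    cf_lam_mul hO hL (χ g) (hF.mem g) h2, cf_lam_mul hO' hL' (χ g) (hF'.mem g) h3⟩

end SingerBO
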