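import Mathlib
import Pool.Agent.Lib_MP_394d50_pb.KPh

/-!
# Piece PO-K2b: products of series (about 110 lines)

* `ph_mul`: choose `m` with `Dv OL m f`, `Dv OL m g`, `Dv OL' m f'`, `Dv OL' m g'` (`exists_dv`, minimum of four, `Dv.mono`). Put
  `κ = max k (2 m)`; it suffices to treat `κ` (`ph_prec`). Choose by `hf`, `hg` (`choose`) the pairs `(a i, a' i)` for `f` and
  `(b i, b' i)` for `g` at precision `κ - m`. Lower bounds `l` (of `f`, `f'`, `g`, `g'` at precision `κ - m`; `LV.lb`, minimum). `I = Icc l (n - l)`: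
  outside, `i < l` and `Dv O (κ - m) (a i)` (`cf_zero_iff`), `Dv O m (b _)` (`dv_of_cf`; `m ≤ κ - m`), product `Dv O κ`; or
  `n - i < l` similarly. `cf_mul` (`p = q = m`) on both sides; the sum is `Hm2` (`hm2_sum`, `hm2_mul`, degree `i + (n - i) = n`).
-/

namespace SingerBO

variable {G E E' L L' : Type} [Group G] [DivisionRing E] [DivisionRing E'] [DivisionRing L]
  [DivisionRing L'] {O : Subring E} {O' : Subring E'} {OL : Subring L} {OL' : Subring L'}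
  {Λ : ℤ → E → L} {Λ' : ℤ → E' → L'} {Cf : ℤ → ℤ → L → E → Prop} {Cf' : ℤ → ℤ → L' → E' → Prop}
  {t : G →* Eˣ} {t' : G →* E'ˣ} {H N : Subgroup G} {χ : G → ℤ} {s : G}

/-- the terms outside the interval -/
private theorem kp_out {O : Subring E} {OL : Subring L} {Λ : ℤ → E → L}
    {Cf : ℤ → ℤ → L → E → Prop} (hO : VR O) (hL : LV O OL Λ Cf) {κ m l n : ℤ} (hκ : m + m ≤ κ)
    {f g : L} (hf : Dv OL m f) (hg : Dv OL m g) {a b : ℤ → E} (ha : ∀ i, Cf (κ - m) i f (a i))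
    (hb : ∀ i, Cf (κ - m) i g (b i)) (hl : ∀ i < l, Cf (κ - m) i f 0)
    (hl' : ∀ i < l, Cf (κ - m) i g 0) :
    ∀ i, i ∉ Finset.Icc l (n - l) → Dv O κ (a i * b (n - i)) := by
  intro i hi
  rw [Finset.mem_Icc, not_and_or] at hi
  have hm : m ≤ κ - m := by omega
  rcases hi with h | h
  · have h1 := (cf_zero_iff hO hL (ha i)).1 (hl i (by omega))
    have h2 := dv_of_cf hO hL hm hg (hb (n - i))
    have h3 := Dv.mul hO h1 h2
    rwa [sub_add_cancel] at h3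
  · have h1 := (cf_zero_iff hO hL (hb (n - i))).1 (hl' (n - i) (by omega))
    have h2 := dv_of_cf hO hL hm hf (ha i)
    have h3 := Dv.mul hO h2 h1
    rwa [add_sub_cancel] at h3

theorem ph_mul (hO : VR O) (hO' : VR O') (hL : LV O OL Λ Cf) (hL' : LV O' OL' Λ' Cf')
    (hc : Chi H N χ s) {B B' C : Ordinal.{0}} (h0 : 0 < C) (hC : ∀ a < C, ∀ b < C, fO a b < C)
    (hB : ∀ a < B, ∀ b < B', gO a b < C) {f g : L} {f' g' : L'}
    (hf : ∀ k n, PH Cf Cf' t t' H N χ k n B f f') (hg : ∀ k n, PH Cf Cf' t t' H N χ k n B' g g')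
    (k n : ℤ) : PH Cf Cf' t t' H N χ k n C (f * g) (f' * g') := by
  obtain ⟨m1, h1⟩ := exists_dv hL.vr f
  obtain ⟨m2, h2⟩ := exists_dv hL.vr g
  obtain ⟨m3, h3⟩ := exists_dv hL'.vr f'
  obtain ⟨m4, h4⟩ := exists_dv hL'.vr g'
  obtain ⟨m, k1, k2, k3, k4⟩ : ∃ m : ℤ, m ≤ m1 ∧ m ≤ m2 ∧ m ≤ m3 ∧ m ≤ m4 :=
    ⟨min (min m1 m2) (min m3 m4), by omega, by omega, by omega, by omega⟩
  replace h1 := Dv.mono hL.vr k1 h1
  replace h2 := Dv.mono hL.vr k2 h2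
  replace h3 := Dv.mono hL'.vr k3 h3
  replace h4 := Dv.mono hL'.vr k4 h4
  obtain ⟨κ, hkκ, hmκ⟩ : ∃ κ : ℤ, k ≤ κ ∧ m + m ≤ κ := ⟨max k (m + m), by omega, by omega⟩
  refine ph_prec hL hL' hkκ ?_
  choose a a' ha hfa hfa' using fun i => hf (κ - m) i
  choose b b' hb hgb hgb' using fun i => hg (κ - m) i
  obtain ⟨l1, e1⟩ := hL.lb (κ - m) f
  obtain ⟨l2, e2⟩ := hL.lb (κ - m) g
  obtain ⟨l3, e3⟩ := hL'.lb (κ - m) f'
  obtain ⟨l4, e4⟩ := hL'.lb (κ - m) g'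
  obtain ⟨l, j1, j2, j3, j4⟩ : ∃ l : ℤ, l ≤ l1 ∧ l ≤ l2 ∧ l ≤ l3 ∧ l ≤ l4 :=
    ⟨min (min l1 l2) (min l3 l4), by omega, by omega, by omega, by omega⟩
  refine ⟨∑ i ∈ Finset.Icc l (n - l), a i * b (n - i),
    ∑ i ∈ Finset.Icc l (n - l), a' i * b' (n - i), ?_, ?_, ?_⟩
  · refine hm2_sum hc h0 hC _ _ _ fun i _ => ?_
    have h5 := hm2_mul hc hB (ha i) (hb (n - i))
    rwa [add_sub_cancel] at h5
  · exact cf_mul hO hL κ n m m f g a b _ hmκ h1 h2 hfa hgb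
      (kp_out hO hL hmκ h1 h2 hfa hgb (fun i hi => e1 i (by omega)) fun i hi => e2 i (by omega))
  · exact cf_mul hO' hL' κ n m m f' g' a' b' _ hmκ h3 h4 hfa' hgb'
      (kp_out hO' hL' hmκ h3 h4 hfa' hgb' (fun i hi => e3 i (by omega)) fun i hi => e4 i (by omega))

end SingerBO
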