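import Mathlib
import Pool.Agent.Lib_MP_394d50_pb.KProd

/-!
# Piece PO-K3a: the inverse, the step (about 230 lines)

`ph_step`: `K = k + 2 m ≥ m + 1`. `l` a common lower bound for `g`, `g'` at precision `k`, `l₁` for `f`, `f'` at precision `K` (`LV.lb`, minimum). Choose
`(a i, a' i)` from `hf K i`. For every `i` let `(c i, c' i)` be the `Hm2` pair of `hg2` (precision `k`) if `i < n`, and of `hg1` (precision `k - 1`) if
`i ≥ n`; and let `b i`, `b' i` be arbitrary with `Cf k i g (b i)`, `Cf' k i g' (b' i)` (`ex`). So `Dv O k (b i - c i)` for `i < n` and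
`Dv O (k - 1) (b i - c i)` for all `i` (`cg`, `mo`).
`cf_mul` for `f * g = 1` in degree `n + n₀`, precision `κ = k + m`, `p = m`, `q = -m` (`p + q = 0 ≤ κ`; `κ - q = K`, `κ - p = k`), with
`I = insert n₀ (Icc l₁ (n + n₀ - l))` (outside: `i < l₁`: `Dv O K (a i)` (`cf_zero_iff`), `Dv O (-m) (b _)` (`dv_of_cf`, `-m ≤ k`); or `n + n₀ - i < l`:
`Dv O k (b _)`, `Dv O m (a i)`).
With `cf_one`, `cg`: `Dv O κ (δ - ∑ i ∈ I, a i * b (n + n₀ - i))`, `δ = if n + n₀ = 0 then 1 else 0`. For `i ∈ I`, `i ≠ n₀` replace `b` by `c`: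
`i > n₀`: index `< n`, `Dv O m (a i)`, `Dv O k (b - c)`; `i < n₀`: `Dv O (m + 1) (a i)` (`hlo`, `mo`, `cf_zero_iff`; `m + 1 ≤ K`), `Dv O (k - 1) (b - c)`.
So with `w = δ - ∑ i ∈ I.erase n₀, a i * c (n + n₀ - i)`: `Dv O κ (w - a n₀ * b n)`. As `¬ Dv O (m + 1) (a n₀)` (`h₀`), `a n₀ ≠ 0`, with
`a n₀ * ((a n₀)⁻¹ * w - b n) = w - a n₀ * b n`, `dv_of_mul`: `Dv O k ((a n₀)⁻¹ * w - b n)`, so `Cf k n g ((a n₀)⁻¹ * w)` (`cg`). The same on the other
side (one may prove this part as a separate lemma for one side and use it twice), and `((a n₀)⁻¹ * w, (a' n₀)⁻¹ * w')` is `Hm2` of degree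
`-n₀ + (n + n₀) = n` with the bound `hO B`: `hm2_inv`, `hm2_mul`, `hm2_add`, `hm2_neg`, `hm2_sum`, `hm2_one`/`hm2_zero`, `hO_closed_f`, `hO_closed_g`,
`lt_hO` (the pairs `(a i, a' i)` have the bound `B ≤ hO B`).
-/

namespace SingerBO

variable {G E E' L L' : Type} [Group G] [DivisionRing E] [DivisionRing E'] [DivisionRing L]
  [DivisionRing L'] {O : Subring E} {O' : Subring E'} {OL : Subring L} {OL' : Subring L'}
  {Λ : ℤ → E → L} {Λ' : ℤ → E' → L'} {Cf : ℤ → ℤ → L → E → Prop} {Cf' : ℤ → ℤ → L' → E' → Prop}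
  {t : G →* Eˣ} {t' : G →* E'ˣ} {H N : Subgroup G} {χ : G → ℤ} {s : G}

/-- One side of the step. -/
private theorem step_side {E L : Type} [DivisionRing E] [DivisionRing L] {O : Subring E}
    {OL : Subring L} {Λ : ℤ → E → L} {Cf : ℤ → ℤ → L → E → Prop} (hR : VR O)
    (hL : LV O OL Λ Cf) {f g : L} {m n₀ k : ℤ} (hk : 0 < k + m) (hfm : Dv OL m f)
    (hgm : Dv OL (-m) g) (hfg : f * g = 1) (h₀ : ¬ Cf (m + 1) n₀ f 0)
    (hlo : ∀ i < n₀, Cf (m + 1) i f 0) (n : ℤ) (a c : ℤ → E) (I : Finset ℤ) (hI₀ : n₀ ∈ I)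
    (ha : ∀ i, Cf (k + 2 * m) i f (a i)) (hc1 : ∀ i < n, Cf k i g (c i))
    (hc2 : ∀ i, Cf (k - 1) i g (c i))
    (hI : ∀ i, i ∉ I → Cf (k + 2 * m) i f 0 ∨ Cf k (n + n₀ - i) g 0) :
    Cf k n g ((a n₀)⁻¹ * ((if n + n₀ = 0 then 1 else 0) -
      ∑ i ∈ I.erase n₀, a i * c (n + n₀ - i))) := by
  classical
  choose b hb using fun i => hL.ex k i g
  have A1 : ∀ i, Dv O m (a i) := fun i => dv_of_cf hR hL (by omega) hfm (ha i)
  have Am : ∀ i, Cf (m + 1) i f (a i) := fun i => hL.mo _ _ _ _ _ (by omega) (ha i)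
  have A2 : ∀ i < n₀, Dv O (m + 1) (a i) := fun i hi => (cf_zero_iff hR hL (Am i)).mp (hlo i hi)
  have A3 : ¬ Dv O (m + 1) (a n₀) := fun h => h₀ ((cf_zero_iff hR hL (Am n₀)).mpr h)
  have B1 : ∀ i, Dv O (-m) (b i) := fun i => dv_of_cf hR hL (by omega) hgm (hb i)
  have C1 : ∀ i < n, Dv O k (b i - c i) := fun i hi => (hL.cg _ _ _ _ _ (hb i)).mp (hc1 i hi)
  have C2 : ∀ i, Dv O (k - 1) (b i - c i) := fun i =>
    (hL.cg _ _ _ _ _ (hL.mo _ _ _ _ _ (by omega) (hb i))).mp (hc2 i)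
  have P := cf_mul hR hL (k + m) (n + n₀) m (-m) f g a b I (by omega) hfm hgm
    (fun i => by
      rw [show k + m - -m = k + 2 * m by ring]
      exact ha i)
    (fun i => by
      rw [show k + m - m = k by ring]
      exact hb i)
    (fun i hi => by
      rcases hI i hi with h | h
      · have h1 := (cf_zero_iff hR hL (ha i)).mp h
        have h2 := Dv.mul hR h1 (B1 (n + n₀ - i))
        rwa [show k + 2 * m + -m = k + m by ring] at h2
      · have h1 := (cf_zero_iff hR hL (hb (n + n₀ - i))).mp h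
        have h2 := Dv.mul hR (A1 i) h1
        rwa [show m + k = k + m by ring] at h2)
  rw [hfg] at P
  have Q : Dv O (k + m) ((if n + n₀ = 0 then 1 else 0) - ∑ i ∈ I, a i * b (n + n₀ - i)) :=
    (hL.cg _ _ _ _ _ (cf_one hL (k + m) (n + n₀))).mp P
  have hsum : ∑ i ∈ I, a i * b (n + n₀ - i) =
      a n₀ * b n + ∑ i ∈ I.erase n₀, a i * b (n + n₀ - i) := by
    rw [← Finset.add_sum_erase I _ hI₀, show n + n₀ - n₀ = n by ring]
  have S : Dv O (k + m) (∑ i ∈ I.erase n₀, a i * (b (n + n₀ - i) - c (n + n₀ - i))) := by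
    refine Dv.sum _ _ fun i hi => ?_
    rw [Finset.mem_erase] at hi
    rcases lt_or_gt_of_ne hi.1 with h | h
    · have h2 := Dv.mul hR (A2 i h) (C2 (n + n₀ - i))
      rwa [show m + 1 + (k - 1) = k + m by ring] at h2
    · have h2 := Dv.mul hR (A1 i) (C1 (n + n₀ - i) (by omega))
      rwa [show m + k = k + m by ring] at h2
  have T : Dv O (k + m) (a n₀ * ((a n₀)⁻¹ * ((if n + n₀ = 0 then 1 else 0) -
      ∑ i ∈ I.erase n₀, a i * c (n + n₀ - i)) - b n)) := by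
    have ha0 : a n₀ ≠ 0 := by
      intro h
      apply A3
      rw [h]
      exact dv_zero _
    have e : a n₀ * ((a n₀)⁻¹ * ((if n + n₀ = 0 then 1 else 0) -
        ∑ i ∈ I.erase n₀, a i * c (n + n₀ - i)) - b n) =
        ((if n + n₀ = 0 then 1 else 0) - ∑ i ∈ I, a i * b (n + n₀ - i)) +
          ∑ i ∈ I.erase n₀, a i * (b (n + n₀ - i) - c (n + n₀ - i)) := by
      rw [mul_sub, ← mul_assoc, mul_inv_cancel₀ ha0, one_mul, hsum]
      simp only [mul_sub, Finset.sum_sub_distrib]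
      abel
    rw [e]
    exact Q.add S
  have U := dv_of_mul hR A3 T
  rw [show k + m - m = k by ring] at U
  refine (hL.cg _ _ _ _ _ (hb n)).mpr ?_
  have V := U.neg
  rwa [neg_sub] at V

theorem ph_step (hR : VR O) (hR' : VR O') (hL : LV O OL Λ Cf) (hL' : LV O' OL' Λ' Cf')
    (hc : Chi H N χ s) {B : Ordinal.{0}} {f g : L} {f' g' : L'} {m n₀ k : ℤ} (hk : 0 < k + m)
    (hfm : Dv OL m f) (hfm' : Dv OL' m f') (hgm : Dv OL (-m) g) (hgm' : Dv OL' (-m) g')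
    (hfg : f * g = 1) (hfg' : f' * g' = 1) (h₀ : ¬ Cf (m + 1) n₀ f 0)
    (h₀' : ¬ Cf' (m + 1) n₀ f' 0) (hlo : ∀ i < n₀, Cf (m + 1) i f 0)
    (hlo' : ∀ i < n₀, Cf' (m + 1) i f' 0) (hf : ∀ K i, PH Cf Cf' t t' H N χ K i B f f')
    (hg1 : ∀ i, PH Cf Cf' t t' H N χ (k - 1) i (hO B) g g') (n : ℤ)
    (hg2 : ∀ i < n, PH Cf Cf' t t' H N χ k i (hO B) g g') :
    PH Cf Cf' t t' H N χ k n (hO B) g g' := by
  classical
  have hpos : 0 < hO B := lt_of_le_of_lt zero_le (lt_hO B)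
  have hCf : ∀ a < hO B, ∀ b < hO B, fO a b < hO B := fun a ha b hb => hO_closed_f ha hb
  have hCg : ∀ a < hO B, ∀ b < hO B, gO a b < hO B := fun a ha b hb => hO_closed_g ha hb
  choose a a' hHa ha ha' using hf (k + 2 * m)
  have hcx : ∀ i, ∃ x x', Hm2 t t' H N χ i (hO B) x x' ∧ Cf (k - 1) i g x ∧
      Cf' (k - 1) i g' x' ∧ (i < n → Cf k i g x ∧ Cf' k i g' x') := by
    intro i
    by_cases hi : i < n
    · obtain ⟨x, x', h1, h2, h3⟩ := hg2 i hi
      exact ⟨x, x', h1, hL.mo _ _ _ _ _ (by omega) h2, hL'.mo _ _ _ _ _ (by omega) h3,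
        fun _ => ⟨h2, h3⟩⟩
    · obtain ⟨x, x', h1, h2, h3⟩ := hg1 i
      exact ⟨x, x', h1, h2, h3, fun h => absurd h hi⟩
  choose c c' hHc hc2 hc2' hc1 using hcx
  obtain ⟨l1, hl1⟩ := hL.lb k g
  obtain ⟨l2, hl2⟩ := hL'.lb k g'
  obtain ⟨l3, hl3⟩ := hL.lb (k + 2 * m) f
  obtain ⟨l4, hl4⟩ := hL'.lb (k + 2 * m) f'
  have hI : ∀ i, i ∉ insert n₀ (Finset.Icc (min l3 l4) (n + n₀ - min l1 l2)) →
      i < min l3 l4 ∨ n + n₀ - i < min l1 l2 := by
    intro i hi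
    rw [Finset.mem_insert, Finset.mem_Icc] at hi
    push Not at hi
    by_cases h : i < min l3 l4
    · exact Or.inl h
    · exact Or.inr (by have := hi.2 (not_lt.mp h); omega)
  refine ⟨_, _, ?_, step_side hR hL hk hfm hgm hfg h₀ hlo n a c
    (insert n₀ (Finset.Icc (min l3 l4) (n + n₀ - min l1 l2))) (Finset.mem_insert_self _ _) ha
    (fun i hi => (hc1 i hi).1) hc2 (fun i hi => (hI i hi).imp
      (fun h => hl3 i (lt_of_lt_of_le h (min_le_left _ _)))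
      (fun h => hl1 _ (lt_of_lt_of_le h (min_le_left _ _)))),
    step_side hR' hL' hk hfm' hgm' hfg' h₀' hlo' n a' c'
    (insert n₀ (Finset.Icc (min l3 l4) (n + n₀ - min l1 l2))) (Finset.mem_insert_self _ _) ha'
    (fun i hi => (hc1 i hi).2) hc2' (fun i hi => (hI i hi).imp
      (fun h => hl4 i (lt_of_lt_of_le h (min_le_right _ _)))
      (fun h => hl2 _ (lt_of_lt_of_le h (min_le_right _ _))))⟩
  have hS : Hm2 t t' H N χ (n + n₀) (hO B)
      (∑ i ∈ (insert n₀ (Finset.Icc (min l3 l4) (n + n₀ - min l1 l2))).erase n₀,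
        a i * c (n + n₀ - i))
      (∑ i ∈ (insert n₀ (Finset.Icc (min l3 l4) (n + n₀ - min l1 l2))).erase n₀,
        a' i * c' (n + n₀ - i)) := by
    refine hm2_sum hc hpos hCf _ _ _ fun i _ => ?_
    have h := hm2_mul hc hCg (hm2_mono (lt_hO B).le (hHa i)) (hHc (n + n₀ - i))
    rwa [show i + (n + n₀ - i) = n + n₀ by ring] at h
  have hD : Hm2 t t' H N χ (n + n₀) (hO B) (if n + n₀ = 0 then 1 else 0)
      (if n + n₀ = 0 then 1 else 0) := by
    split_ifs with h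
    · rw [h]
      exact hm2_one hc hpos
    · exact hm2_zero hc _ hpos
  have h := hm2_mul hc hCg (hm2_inv hc (hHa n₀)) (hm2_add hc hCf hD (hm2_neg hS))
  rw [← sub_eq_add_neg, ← sub_eq_add_neg, show -n₀ + (n + n₀) = n by ring] at h
  exact h

end SingerBO
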