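import Mathlib
import Pool.Agent.Lib_MP_394d50_pb.KStep

/-!
# Piece PO-K3b: the inverse (about 100 lines)

`ph_inv`. Let `m` be the valuation of `f` (`exists_vl hL.vr`: `Dv OL k f ↔ k ≤ m`); by `hv` the same for `f'`. `g = f⁻¹`, `g' = f'⁻¹` (`f' ≠ 0` since not
all `Dv OL' k f'`): `Dv OL (-m) g` (`vl_inv`). Let `n₀` be the least `n` with `¬ Cf (m + 1) n f 0` (`exists_first`). For every `n`:
`Cf (m + 1) n f 0 ↔ Cf' (m + 1) n f' 0` (take the pair `(a, a')` of `hf (m + 1) n`, `cf_zero_iff` on both sides, `hm2_dv`), so `n₀` is also the first one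
for `f'`.
CLAIM: for all `j : ℕ` and all `n`, `PH (-m + j) n (hO B) g g'`. This suffices (`ph_prec`; for `k ≤ -m` use `j = 0`).
`j = 0`: `Cf (-m) n g 0` (`ga`), `ph_zero` (`0 < hO B`). `j → j + 1`: `k = -m + j + 1`; `l` a common lower bound for `g`, `g'` at precision `k` (`LV.lb`).
For `n < l`: `ph_zero`. In general strong induction: for all `r : ℕ` and all `n < l + r` (induction on `r`) by `ph_step` (`k - 1 = -m + j`).
-/

namespace SingerBO

variable {G E E' L L' : Type} [Group G] [DivisionRing E] [DivisionRing E'] [DivisionRing L]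
  [DivisionRing L'] {O : Subring E} {O' : Subring E'} {OL : Subring L} {OL' : Subring L'}
  {Λ : ℤ → E → L} {Λ' : ℤ → E' → L'} {Cf : ℤ → ℤ → L → E → Prop} {Cf' : ℤ → ℤ → L' → E' → Prop}
  {t : G →* Eˣ} {t' : G →* E'ˣ} {H N : Subgroup G} {χ : G → ℤ} {s : G}

theorem ph_inv (hR : VR O) (hR' : VR O') (hF : VFE O t) (hF' : VFE O' t') (hL : LV O OL Λ Cf)
    (hL' : LV O' OL' Λ' Cf') (hc : Chi H N χ s) {B : Ordinal.{0}}
    (hB : ∀ q : PE G, q.In N → q.cx < B → EqV O O' t t' q) {f : L} {f' : L'} (h0 : f ≠ 0)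
    (hv : ∀ k, Dv OL k f ↔ Dv OL' k f') (hf : ∀ k n, PH Cf Cf' t t' H N χ k n B f f') (k n : ℤ) :
    PH Cf Cf' t t' H N χ k n (hO B) f⁻¹ f'⁻¹ := by
  have hpos : 0 < hO B := lt_of_le_of_lt zero_le (lt_hO B)
  obtain ⟨m, hm⟩ := exists_vl hL.vr h0
  have hm' : ∀ k, Dv OL' k f' ↔ k ≤ m := fun k => (hv k).symm.trans (hm k)
  have h0' : f' ≠ 0 := by
    rintro rfl
    have := (hm' (m + 1)).1 (dv_zero _)
    omega
  have hg : Dv OL (-m) f⁻¹ := (vl_inv hL.vr hm (-m)).2 le_rfl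
  have hg' : Dv OL' (-m) f'⁻¹ := (vl_inv hL'.vr hm' (-m)).2 le_rfl
  obtain ⟨n₀, hn0, hlo⟩ := exists_first hR hL (m := m) (f := f) (by rw [hm]; omega)
  have key : ∀ i, Cf (m + 1) i f 0 ↔ Cf' (m + 1) i f' 0 := by
    intro i
    obtain ⟨a, a', h1, h2, h3⟩ := hf (m + 1) i
    rw [cf_zero_iff hR hL h2, cf_zero_iff hR' hL' h3]
    exact hm2_dv hR hR' hF hF' hB h1 _
  have claim : ∀ j : ℕ, ∀ n, PH Cf Cf' t t' H N χ (-m + j) n (hO B) f⁻¹ f'⁻¹ := by
    intro j
    induction j with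
    | zero =>
      intro n
      rw [Nat.cast_zero, add_zero]
      exact ph_zero hc hpos ((hL.ga (-m) _).1 hg n) ((hL'.ga (-m) _).1 hg' n)
    | succ j ih =>
      obtain ⟨l1, hl1⟩ := hL.lb (-m + ((j + 1 : ℕ) : ℤ)) f⁻¹
      obtain ⟨l2, hl2⟩ := hL'.lb (-m + ((j + 1 : ℕ) : ℤ)) f'⁻¹
      have step : ∀ r : ℕ, ∀ n < min l1 l2 + (r : ℤ),
          PH Cf Cf' t t' H N χ (-m + ((j + 1 : ℕ) : ℤ)) n (hO B) f⁻¹ f'⁻¹ := by
        intro r
        induction r with
        | zero =>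
          intro n hn
          exact ph_zero hc hpos (hl1 n (by omega)) (hl2 n (by omega))
        | succ r ihr =>
          intro n hn
          by_cases h : n < min l1 l2 + (r : ℤ)
          · exact ihr n h
          · refine ph_step (m := m) (n₀ := n₀) (f := f) (f' := f') hR hR' hL hL' hc (by omega)
              ((hm m).2 le_rfl) ((hm' m).2 le_rfl) hg hg' (mul_inv_cancel₀ h0)
              (mul_inv_cancel₀ h0') hn0 (fun h => hn0 ((key _).2 h)) hlo
              (fun i hi => (key i).1 (hlo i hi)) hf (fun i => ?_) n (fun i hi => ihr i (by omega))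
            have h := ih i
            rwa [show -m + (j : ℤ) = -m + ((j + 1 : ℕ) : ℤ) - 1 by push_cast; ring] at h
      intro n
      obtain ⟨r, hr⟩ : ∃ r : ℕ, n < min l1 l2 + (r : ℤ) :=
        ⟨(n - min l1 l2 + 1).toNat, by omega⟩
      exact step r n hr
  obtain ⟨j, hj⟩ : ∃ j : ℕ, k ≤ -m + (j : ℤ) := ⟨(k + m).toNat, by omega⟩
  exact ph_prec hL hL' hj (claim j n)

end SingerBO
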