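import Mathlib
import Pool.Agent.Lib_MP_394d50_pb.KInv

/-!
# Piece PO-K4: the key lemma for pairs (about 150 lines)

Model: `kl` in `KKey.lean`, the same induction on `p` (generalizing `n`, `k`), with `hE` passed to the subexpressions (their complexity is
smaller: `lt_fO_left`, `lt_gG`, `lt_hO`, `hO_mono`...).
* `ph_le`: if `p.In N` then `θ (p.val t) = Λ 0 (p.val t)` (`Th2.of_ker`, `PE.val_mem`), `LV.cl`: the coefficient is `p.val t` for `n = 0` and `0`
  otherwise; `hm2_val`, `hm2_zero`. Otherwise `ih`, `ph_mono`.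
* `neg`: `Th2.neg`, `ph_neg`. `add p₁ g p₂`: `θ (x + t g * y) = θ x + Λ (χ g) (t g) * θ y`; cases as in `kl`, `ph_add`, `ph_grp`; in the case
  (b) (`p₁`, `p₂` in `N`, `χ g ≠ 0`): the coefficient is `p₁.val t` for `n = 0`, `t g * p₂.val t` for `n = χ g`, `0` otherwise
  (`LV.cl`, `lm`: `Λ (χ g) (t g) * Λ 0 y = Λ (χ g) (t g * y)`, `LV.ad`).
* `mul`: `ph_mul` with `C = gO p₁.cx p₂.cx`: one factor has the bound `p_i.cx`, the other `p_j.cx + 1` (`ph_le`).
* `inv`: if `p.val t = 0` then by `hE p` also `p.val t' = 0` (`eq_zero_of_dv`), and `0⁻¹ = 0`: `ph_zero`, `cf_zero`. Otherwise `ph_inv` with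
  `f = θ (p.val t) ≠ 0` (`Th2.val`, `eq_zero_of_dv`), `hv` from `Th2.val` and `hE p`, `Th2.inv`.
-/

namespace SingerBO

variable {G E E' L L' : Type} [Group G] [DivisionRing E] [DivisionRing E'] [DivisionRing L]
  [DivisionRing L'] {O : Subring E} {O' : Subring E'} {OL : Subring L} {OL' : Subring L'}
  {Λ : ℤ → E → L} {Λ' : ℤ → E' → L'} {Cf : ℤ → ℤ → L → E → Prop} {Cf' : ℤ → ℤ → L' → E' → Prop}
  {t : G →* Eˣ} {t' : G →* E'ˣ} {H N : Subgroup G} {χ : G → ℤ} {s : G} {θ : E → L} {θ' : E' → L'}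

/-- In all cases the complexity does not increase. -/
private theorem kl2_le (hL : LV O OL Λ Cf) (hL' : LV O' OL' Λ' Cf') (hc : Chi H N χ s)
    (hθ : Th2 O OL Λ t H χ θ) (hθ' : Th2 O' OL' Λ' t' H χ θ') (p : PE G)
    (ih : ¬ p.In N → ∀ k n, PH Cf Cf' t t' H N χ k n p.cx (θ (p.val t)) (θ' (p.val t')))
    (k n : ℤ) : PH Cf Cf' t t' H N χ k n (p.cx + 1) (θ (p.val t)) (θ' (p.val t')) := by
  by_cases hn : p.In N
  · rw [hθ.of_ker hL hc (PE.val_mem t hn), hθ'.of_ker hL' hc (PE.val_mem t' hn)]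
    refine ⟨_, _, ?_, hL.cl k 0 n _, hL'.cl k 0 n _⟩
    by_cases h : n = 0
    · rw [if_pos h, if_pos h, h]
      exact hm2_val hc hn (Order.lt_succ _)
    · rw [if_neg h, if_neg h]
      exact hm2_zero hc n (lt_of_le_of_lt zero_le (Order.lt_succ p.cx))
  · exact ph_mono (Order.le_succ p.cx) (ih hn k n)

/-- The expansion of a sum of translates. -/
private theorem kl2_th (hθ : Th2 O OL Λ t H χ θ) {x y : E} (hx : x ∈ DH t H) (hy : y ∈ DH t H)
    {g : G} (hg : g ∈ H) : θ (x + ((t g : Eˣ) : E) * y) =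
      θ x + Λ (χ g) ((t g : Eˣ) : E) * θ y := by
  rw [hθ.add _ hx _ (mul_mem (mem_DH t hg) hy), hθ.mul _ (mem_DH t hg) _ hy, hθ.grp g hg]

/-- The coefficients of a sum of two homogeneous series. -/
private theorem kl2_cf (hL : LV O OL Λ Cf) (k n m : ℤ) (x y u : E) :
    Cf k n (Λ 0 x + Λ m u * Λ 0 y) ((if n = 0 then x else 0) + (if n = m then u * y else 0)) := by
  have h := hL.ad k n _ _ _ _ (hL.cl k 0 n x) (hL.cl k m n (u * y))
  rwa [hL.lm m 0, add_zero]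

theorem kl2 (hR : VR O) (hR' : VR O') (hF : VFE O t) (hF' : VFE O' t') (hL : LV O OL Λ Cf)
    (hL' : LV O' OL' Λ' Cf') (hc : Chi H N χ s) (hθ : Th2 O OL Λ t H χ θ)
    (hθ' : Th2 O' OL' Λ' t' H χ θ') (p : PE G) (hp : p.In H) (hn : ¬ p.In N)
    (hE : ∀ q : PE G, q.cx < p.cx → EqV O O' t t' q) (k n : ℤ) :
    PH Cf Cf' t t' H N χ k n p.cx (θ (p.val t)) (θ' (p.val t')) := by
  induction p generalizing k n with
  | zero => exact absurd (PE.in_zero N) hn
  | one => exact absurd (PE.in_one N) hn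
  | neg p ih =>
    have hp' : p.In H := hp
    have hE' : ∀ q : PE G, q.cx < p.cx → EqV O O' t t' q := hE
    show PH Cf Cf' t t' H N χ k n p.cx (θ (- p.val t)) (θ' (- p.val t'))
    rw [hθ.neg (PE.val_mem t hp'), hθ'.neg (PE.val_mem t' hp')]
    exact ph_neg hR hR' hL hL' (ih hp' hn hE' k n)
  | add p₁ g p₂ ih1 ih2 =>
    rw [PE.in_add] at hp
    obtain ⟨hp1, hg, hp2⟩ := hp
    have hE' : ∀ q : PE G, q.cx < fO p₁.cx p₂.cx → EqV O O' t t' q := hE
    have hE1 : ∀ q : PE G, q.cx < p₁.cx → EqV O O' t t' q := fun q hq =>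
      hE' q (hq.trans (lt_fO_left _ _))
    have hE2 : ∀ q : PE G, q.cx < p₂.cx → EqV O O' t t' q := fun q hq =>
      hE' q (hq.trans (lt_fO_right _ _))
    show PH Cf Cf' t t' H N χ k n (fO p₁.cx p₂.cx) (θ (p₁.val t + ((t g : Eˣ) : E) * p₂.val t))
      (θ' (p₁.val t' + ((t' g : E'ˣ) : E') * p₂.val t'))
    rw [kl2_th hθ (PE.val_mem t hp1) (PE.val_mem t hp2) hg,
      kl2_th hθ' (PE.val_mem t' hp1) (PE.val_mem t' hp2) hg]
    have hdeg : χ g + (n - χ g) = n := by ring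
    by_cases h1 : p₁.In N
    · by_cases h2 : p₂.In N
      · have hgN : g ∉ N := fun h => hn (PE.in_add.mpr ⟨h1, h, h2⟩)
        have hg0 : χ g ≠ 0 := fun h => hgN ((hc.ker g).mpr ⟨hg, h⟩)
        rw [hθ.of_ker hL hc (PE.val_mem t h1), hθ'.of_ker hL' hc (PE.val_mem t' h1),
          hθ.of_ker hL hc (PE.val_mem t h2), hθ'.of_ker hL' hc (PE.val_mem t' h2)]
        refine ⟨_, _, ?_, kl2_cf hL k n (χ g) _ _ _, kl2_cf hL' k n (χ g) _ _ _⟩
        by_cases hn0 : n = 0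
        · have hng : ¬ n = χ g := fun h => hg0 (h.symm.trans hn0)
          rw [if_pos hn0, if_pos hn0, if_neg hng, if_neg hng, add_zero, add_zero, hn0]
          exact hm2_val hc h1 (lt_fO_left _ _)
        · rw [if_neg hn0, if_neg hn0, zero_add, zero_add]
          by_cases hng : n = χ g
          · rw [if_pos hng, if_pos hng]
            exact ⟨g, hg, hng.symm, p₂, h2, lt_fO_right _ _, rfl, rfl⟩
          · rw [if_neg hng, if_neg hng]
            exact hm2_zero hc n (lt_of_le_of_lt zero_le (lt_fO_left p₁.cx p₂.cx))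
      · have h3 := ph_grp hR hR' hF hF' hL hL' hc hg (ih2 hp2 h2 hE2 k (n - χ g))
        rw [hdeg] at h3
        refine ph_add hL hL' hc (fun a ha b hb => ?_)
          (kl2_le hL hL' hc hθ hθ' p₁ (fun h => ih1 hp1 h hE1) k n) h3
        exact fO_lt (Order.lt_succ_iff.mp ha) hb.le (Or.inr hb)
    · have h3 := ph_grp hR hR' hF hF' hL hL' hc hg
        (kl2_le hL hL' hc hθ hθ' p₂ (fun h => ih2 hp2 h hE2) k (n - χ g))
      rw [hdeg] at h3
      refine ph_add hL hL' hc (fun a ha b hb => ?_) (ih1 hp1 h1 hE1 k n) h3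
      exact fO_lt ha.le (Order.lt_succ_iff.mp hb) (Or.inl ha)
  | mul p₁ p₂ ih1 ih2 =>
    rw [PE.in_mul] at hp
    obtain ⟨hp1, hp2⟩ := hp
    have hE' : ∀ q : PE G, q.cx < gO p₁.cx p₂.cx → EqV O O' t t' q := hE
    have hE1 : ∀ q : PE G, q.cx < p₁.cx → EqV O O' t t' q := fun q hq =>
      hE' q (hq.trans ((lt_fO_left p₁.cx p₂.cx).trans (lt_gG _)))
    have hE2 : ∀ q : PE G, q.cx < p₂.cx → EqV O O' t t' q := fun q hq =>
      hE' q (hq.trans ((lt_fO_right p₁.cx p₂.cx).trans (lt_gG _)))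
    show PH Cf Cf' t t' H N χ k n (gO p₁.cx p₂.cx) (θ (p₁.val t * p₂.val t))
      (θ' (p₁.val t' * p₂.val t'))
    rw [hθ.mul _ (PE.val_mem t hp1) _ (PE.val_mem t hp2),
      hθ'.mul _ (PE.val_mem t' hp1) _ (PE.val_mem t' hp2)]
    have h0 : 0 < gO p₁.cx p₂.cx :=
      lt_of_le_of_lt zero_le ((lt_fO_left p₁.cx p₂.cx).trans (lt_gG _))
    by_cases h1 : p₁.In N
    · have h2 : ¬ p₂.In N := fun h => hn (PE.in_mul.mpr ⟨h1, h⟩)
      refine ph_mul hR hR' hL hL' hc h0 (fun x hx y hy => gO_closed hx hy) (fun a ha b hb => ?_)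
        (kl2_le hL hL' hc hθ hθ' p₁ (fun h => ih1 hp1 h hE1)) (ih2 hp2 h2 hE2) k n
      exact gO_lt (Order.lt_succ_iff.mp ha) hb.le (Or.inr hb)
    · refine ph_mul hR hR' hL hL' hc h0 (fun x hx y hy => gO_closed hx hy) (fun a ha b hb => ?_)
        (ih1 hp1 h1 hE1) (kl2_le hL hL' hc hθ hθ' p₂ (fun h => ih2 hp2 h hE2)) k n
      exact gO_lt ha.le (Order.lt_succ_iff.mp hb) (Or.inl ha)
  | inv p ih =>
    have hp' : p.In H := hp
    have hE' : ∀ q : PE G, q.cx < hO p.cx → EqV O O' t t' q := hE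
    have hE1 : ∀ q : PE G, q.cx < p.cx → EqV O O' t t' q := fun q hq =>
      hE' q (hq.trans (lt_hO _))
    have hpE : EqV O O' t t' p := hE' p (lt_hO _)
    show PH Cf Cf' t t' H N χ k n (hO p.cx) (θ (p.val t)⁻¹) (θ' (p.val t')⁻¹)
    by_cases h0 : p.val t = 0
    · have h0' : p.val t' = 0 := eq_zero_of_dv hR' fun j => (hpE j).mp (by
        rw [h0]
        exact dv_zero j)
      rw [h0, h0', inv_zero, inv_zero, hθ.zero, hθ'.zero]
      exact ph_zero hc (lt_of_le_of_lt zero_le (lt_hO p.cx)) (cf_zero hL k n) (cf_zero hL' k n)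
    · rw [hθ.inv hL hc (PE.val_mem t hp'), hθ'.inv hL' hc (PE.val_mem t' hp')]
      refine ph_inv hR hR' hF hF' hL hL' hc (fun q _ hq => hE1 q hq) (fun h => h0 ?_)
        (fun j => ?_) (ih hp' hn hE1) k n
      · refine eq_zero_of_dv hR fun j => (hθ.val _ (PE.val_mem t hp') j).mp ?_
        rw [h]
        exact dv_zero j
      · rw [hθ.val _ (PE.val_mem t hp'), hθ'.val _ (PE.val_mem t' hp')]
        exact hpE j

end SingerBO
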