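import Mathlib
import Pool.Agent.Lib_MP_394d50_pb.KDefs

/-!
# Piece PO-U1: expressions without group elements (about 120 lines)

`PE.val t p` for `p.In ⊥` is a rational number: `p.val t = ((p.val (1 : G →* ℚˣ) : ℚ) : E)` by induction (all group elements which occur are `1`,
`map_one`; `Rat.cast_add`, `Rat.cast_mul`, `Rat.cast_neg`, `Rat.cast_inv`, with `CharZero E` from `VR.charZero`). `dv_rat`: for `r : ℚ`,
`Dv O k (r : E) ↔ ∃ (a b : ℤ), Odd b ∧ r * b = 2 ^ k * a`: (←) `b` is a unit of `O` (`dv_odd`), `(r : E) = 2 ^ k * a * b⁻¹`. (→) `r = 0`: `a = 0`, `b = 1`.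
Otherwise `r = 2 ^ j * (a / b)` with `a`, `b` odd (write numerator and denominator as a power of `2` times an odd number,
`Int.exists_eq_two_pow_mul_odd`/`Nat.exists_eq_two_pow_mul_odd`); if `k ≤ j` then `r * b = 2 ^ k * (2 ^ (j - k) * a)`; if `k > j` then
`2 ^ (j - k) * (a / b) ∈ O`, so `2 ^ (j - k) ∈ O`, so `2⁻¹ ∈ O`, contradiction. The right side does not depend on `E`.
-/

namespace SingerBO

private theorem rat_fac {r : ℚ} (hr : r ≠ 0) :
    ∃ (j m b : ℤ), Odd m ∧ Odd b ∧ r * b = 2 ^ j * m := by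
  have hn : r.num.natAbs ≠ 0 := by
    rw [Ne, Int.natAbs_eq_zero]
    exact Rat.num_ne_zero.mpr hr
  obtain ⟨i, m, hm, h1⟩ := Nat.exists_eq_two_pow_mul_odd hn
  obtain ⟨l, b, hb, h2⟩ := Nat.exists_eq_two_pow_mul_odd r.den_nz
  have h2q : (2 : ℚ) ≠ 0 := two_ne_zero
  have hb0 : (b : ℚ) ≠ 0 := by
    have : b ≠ 0 := by
      rintro rfl
      exact absurd hb (by decide)
    exact_mod_cast this
  have hden : (r.den : ℚ) = 2 ^ l * b := by
    rw [h2]
    push_cast
    ring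
  have hnum : ∃ m' : ℤ, Odd m' ∧ (r.num : ℚ) = 2 ^ i * m' := by
    rcases Int.natAbs_eq r.num with h | h
    · refine ⟨m, by exact_mod_cast hm, ?_⟩
      rw [h, h1]
      push_cast
      ring
    · refine ⟨-m, (Odd.neg (by exact_mod_cast hm)), ?_⟩
      rw [h, h1]
      push_cast
      ring
  obtain ⟨m', hm', h3⟩ := hnum
  refine ⟨(i : ℤ) - l, m', b, hm', by exact_mod_cast hb, ?_⟩
  have h4 : r = (r.num : ℚ) / r.den := (Rat.num_div_den r).symm
  rw [h4, h3, hden, zpow_sub₀ h2q, zpow_natCast, zpow_natCast]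
  push_cast
  field_simp

theorem dv_rat {E : Type} [DivisionRing E] {O : Subring E} (hO : VR O) (k : ℤ) (r : ℚ) :
    Dv O k (r : E) ↔ ∃ a b : ℤ, Odd b ∧ r * b = 2 ^ k * a := by
  have := hO.charZero
  have h2q : (2 : ℚ) ≠ 0 := two_ne_zero
  -- the equation in `E`
  have key : ∀ (j m b : ℤ), Odd b → r * b = 2 ^ j * m → (r : E) = 2 ^ j * ((m : E) * (b : E)⁻¹) := by
    intro j m b hb h
    have hb0 := (dv_odd hO hb).2.2
    have h1 : ((r * b : ℚ) : E) = ((2 ^ j * m : ℚ) : E) := by rw [h]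
    push_cast at h1
    rw [← mul_assoc, ← h1, mul_assoc, mul_inv_cancel₀ hb0, mul_one]
  constructor
  · intro h
    rcases eq_or_ne r 0 with h0 | h0
    · exact ⟨0, 1, odd_one, by rw [h0]; simp⟩
    · obtain ⟨j, m, b, hm, hb, h1⟩ := rat_fac h0
      have hmO := dv_odd hO hm
      have hbO := dv_odd hO hb
      rw [key j m b hb h1, dv_two_unit hO (O.mul_mem hmO.1 hbO.2.1)
        (by rw [mul_inv_rev, inv_inv]; exact O.mul_mem hbO.1 hmO.2.1)
        (mul_ne_zero hmO.2.2 (inv_ne_zero hbO.2.2))] at h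
      refine ⟨2 ^ (j - k).toNat * m, b, hb, ?_⟩
      rw [h1]
      push_cast
      rw [← mul_assoc, ← zpow_natCast (2 : ℚ) (j - k).toNat, ← zpow_add₀ h2q]
      congr 2
      omega
  · rintro ⟨a, b, hb, h1⟩
    have hbO := dv_odd hO hb
    unfold Dv
    rw [key k a b hb h1, ← mul_assoc, ← zpow_add₀ hO.two_ne, neg_add_cancel, zpow_zero, one_mul]
    exact O.mul_mem (intCast_mem O a) hbO.2.1

private theorem val_bot {G E E' : Type} [Group G] [DivisionRing E] [DivisionRing E'] [CharZero E]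
    [CharZero E'] (t : G →* Eˣ) (t' : G →* E'ˣ) {p : PE G} (hp : p.In ⊥) :
    ∃ r : ℚ, p.val t = (r : E) ∧ p.val t' = (r : E') := by
  induction p with
  | zero => exact ⟨0, by rw [Rat.cast_zero]; rfl, by rw [Rat.cast_zero]; rfl⟩
  | one => exact ⟨1, by rw [Rat.cast_one]; rfl, by rw [Rat.cast_one]; rfl⟩
  | neg p ih =>
    obtain ⟨r, h1, h2⟩ := ih hp
    refine ⟨-r, ?_, ?_⟩
    · show - p.val t = _
      rw [h1, Rat.cast_neg]
    · show - p.val t' = _
      rw [h2, Rat.cast_neg]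
  | add p g q ih1 ih2 =>
    rw [PE.in_add] at hp
    obtain ⟨r, h1, h2⟩ := ih1 hp.1
    obtain ⟨s, h3, h4⟩ := ih2 hp.2.2
    have hg : g = 1 := Subgroup.mem_bot.mp hp.2.1
    refine ⟨r + s, ?_, ?_⟩
    · show p.val t + ((t g : Eˣ) : E) * q.val t = _
      rw [h1, h3, hg, map_one, Units.val_one, one_mul, Rat.cast_add]
    · show p.val t' + ((t' g : E'ˣ) : E') * q.val t' = _
      rw [h2, h4, hg, map_one, Units.val_one, one_mul, Rat.cast_add]
  | mul p q ih1 ih2 =>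
    rw [PE.in_mul] at hp
    obtain ⟨r, h1, h2⟩ := ih1 hp.1
    obtain ⟨s, h3, h4⟩ := ih2 hp.2
    refine ⟨r * s, ?_, ?_⟩
    · show p.val t * q.val t = _
      rw [h1, h3, Rat.cast_mul]
    · show p.val t' * q.val t' = _
      rw [h2, h4, Rat.cast_mul]
  | inv p ih =>
    obtain ⟨r, h1, h2⟩ := ih hp
    refine ⟨r⁻¹, ?_, ?_⟩
    · show (p.val t)⁻¹ = _
      rw [h1, Rat.cast_inv]
    · show (p.val t')⁻¹ = _
      rw [h2, Rat.cast_inv]

theorem eqv_bot {G E E' : Type} [Group G] [DivisionRing E] [DivisionRing E'] {O : Subring E}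
    {O' : Subring E'} (hO : VR O) (hO' : VR O') (t : G →* Eˣ) (t' : G →* E'ˣ) {p : PE G}
    (hp : p.In ⊥) : EqV O O' t t' p := by
  have := hO.charZero
  have := hO'.charZero
  obtain ⟨r, h1, h2⟩ := val_bot t t' hp
  intro k
  rw [h1, h2, dv_rat hO, dv_rat hO']

end SingerBO
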