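import Mathlib
import Pool.Agent.Lib_MP_394d50_bo.MInv

/-!
# MP_394d50_gt, poly-(bi-orderable) groups: 2-adic Malcev-Neumann series with graded coefficients (definitions)

`R` is a ring, `Rk R k = R / 2 ^ k R`, `A v ⊆ R` (`v : V`) a graded family of additive subgroups. `BB hA k` is the ring of the
series over `Rk R k` whose coefficient at `v` is in the image of `A v`, and `SS hA` is the inverse limit.
-/

namespace SingerBO

open MN

section

variable (R : Type) [Ring R]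

theorem two_pow_comm' {R : Type} [Ring R] (k : ℕ) (x : R) : 2 ^ k * x = x * 2 ^ k :=
  ((Commute.ofNat_left 2 x).pow_left k).eq

/-- The ideal `2 ^ k R`. -/
def I2 (k : ℕ) : Ideal R where
  carrier := {x | ∃ y, x = 2 ^ k * y}
  add_mem' := by
    rintro _ _ ⟨a, rfl⟩ ⟨b, rfl⟩
    exact ⟨a + b, (mul_add _ _ _).symm⟩
  zero_mem' := ⟨0, (mul_zero _).symm⟩
  smul_mem' := by
    rintro c _ ⟨a, rfl⟩
    refine ⟨c * a, ?_⟩
    rw [smul_eq_mul, ← mul_assoc, ← two_pow_comm', mul_assoc]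

instance (k : ℕ) : (I2 R k).IsTwoSided := ⟨by
  rintro _ b ⟨a, rfl⟩
  exact ⟨a * b, mul_assoc _ _ _⟩⟩

theorem mem_I2 {R : Type} [Ring R] {k : ℕ} {x : R} : x ∈ I2 R k ↔ ∃ y, x = 2 ^ k * y := Iff.rfl

/-- `R / 2 ^ k R`. -/
abbrev Rk (k : ℕ) : Type := R ⧸ I2 R k

/-- The projection. -/
abbrev mk2 (k : ℕ) : R →+* Rk R k := Ideal.Quotient.mk (I2 R k)

theorem I2_le (k : ℕ) : I2 R (k + 1) ≤ I2 R k := by
  rintro _ ⟨a, rfl⟩
  exact ⟨2 * a, by rw [pow_succ, mul_assoc]⟩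

theorem I2_le_one (k : ℕ) : I2 R (k + 1) ≤ I2 R 1 := by
  rintro _ ⟨a, rfl⟩
  exact ⟨2 ^ k * a, by rw [pow_one, pow_succ', mul_assoc]⟩

/-- The reduction `R / 2 ^ (k + 1) R → R / 2 ^ k R`. -/
def red (k : ℕ) : Rk R (k + 1) →+* Rk R k := Ideal.Quotient.factor (I2_le R k)

/-- The reduction modulo `2`. -/
def red1 (k : ℕ) : Rk R (k + 1) →+* Rk R 1 := Ideal.Quotient.factor (I2_le_one R k)

theorem red_mk (k : ℕ) (x : R) : red R k (mk2 R (k + 1) x) = mk2 R k x := rfl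

theorem red1_mk (k : ℕ) (x : R) : red1 R k (mk2 R (k + 1) x) = mk2 R 1 x := rfl

theorem mk2_eq_zero {R : Type} [Ring R] {k : ℕ} {x : R} : mk2 R k x = 0 ↔ ∃ y, x = 2 ^ k * y :=
  Ideal.Quotient.eq_zero_iff_mem

end

/-- Graded families: a homogeneous element which is not divisible by `2` is a unit. -/
structure Gr {R V : Type} [Ring R] [Group V] (A : V → AddSubgroup R) : Prop where
  one : (1 : R) ∈ A 1
  mul : ∀ v w x y, x ∈ A v → y ∈ A w → x * y ∈ A (v * w)
  tf : ∀ x : R, 2 * x = 0 → x = 0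
  nt : ¬ ∃ y : R, 1 = 2 * y
  div : ∀ v x, x ∈ A v → (∃ y : R, x = 2 * y) → ∃ y ∈ A v, x = 2 * y
  unit : ∀ v x, x ∈ A v → (¬ ∃ y : R, x = 2 * y) → ∃ y ∈ A v⁻¹, x * y = 1 ∧ y * x = 1

section

variable {R V : Type} [Ring R] [Group V] [LinearOrder V] [MulLeftMono V] [MulRightMono V]
  {A : V → AddSubgroup R}

/-- The image of `A v` in `R / 2 ^ k R`. -/
def Ak (A : V → AddSubgroup R) (k : ℕ) (v : V) : AddSubgroup (Rk R k) :=
  (A v).map (mk2 R k).toAddMonoidHom

omit [LinearOrder V] [MulLeftMono V] [MulRightMono V] [Group V] in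
theorem mem_Ak {k : ℕ} {v : V} {x : Rk R k} : x ∈ Ak A k v ↔ ∃ y ∈ A v, mk2 R k y = x := Iff.rfl

omit [LinearOrder V] [MulLeftMono V] [MulRightMono V] in
theorem Ak_mul (hA : Gr A) {k : ℕ} {v w : V} {x y : Rk R k} (hx : x ∈ Ak A k v)
    (hy : y ∈ Ak A k w) : x * y ∈ Ak A k (v * w) := by
  obtain ⟨a, ha, rfl⟩ := mem_Ak.mp hx
  obtain ⟨b, hb, rfl⟩ := mem_Ak.mp hy
  exact mem_Ak.mpr ⟨a * b, hA.mul _ _ _ _ ha hb, map_mul _ _ _⟩

/-- The series modulo `2 ^ k` with homogeneous coefficients. -/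
noncomputable def BB (hA : Gr A) (k : ℕ) : Subring (MN (Rk R k) V) where
  carrier := {f | ∀ v, f.cf v ∈ Ak A k v}
  mul_mem' := fun {f g} hf hg v => by
    rw [mul_cf_sum f g v (pair_finite f.pwo g.pwo v).toFinset (fun x h1 h2 => by
      rw [Set.Finite.mem_toFinset]
      exact ⟨h1, h2⟩)]
    refine AddSubgroup.sum_mem _ fun x _ => ?_
    have h := Ak_mul hA (hf x) (hg (x⁻¹ * v))
    rwa [mul_inv_cancel_left] at h
  one_mem' := fun v => by
    rw [one_cf]
    split_ifs with h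
    · rw [h]
      exact mem_Ak.mpr ⟨1, hA.one, map_one _⟩
    · exact zero_mem _
  add_mem' := fun {f g} hf hg v => by
    rw [add_cf]
    exact add_mem (hf v) (hg v)
  zero_mem' := fun v => by
    rw [zero_cf]
    exact zero_mem _
  neg_mem' := fun {f} hf v => by
    rw [neg_cf]
    exact neg_mem (hf v)

theorem mem_BB {hA : Gr A} {k : ℕ} {f : MN (Rk R k) V} : f ∈ BB hA k ↔ ∀ v, f.cf v ∈ Ak A k v :=
  Iff.rfl

/-- The inverse limit. -/
noncomputable def SS (hA : Gr A) : Subring (∀ k : ℕ, MN (Rk R k) V) where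
  carrier := {f | (∀ k, mapR (red R k) (f (k + 1)) = f k) ∧ ∀ k, f k ∈ BB hA k}
  mul_mem' := fun {f g} hf hg => ⟨fun k => by
    show mapR (red R k) (f (k + 1) * g (k + 1)) = f k * g k
    rw [map_mul, hf.1, hg.1], fun k => mul_mem (hf.2 k) (hg.2 k)⟩
  one_mem' := ⟨fun k => by
    show mapR (red R k) 1 = 1
    rw [map_one], fun k => one_mem _⟩
  add_mem' := fun {f g} hf hg => ⟨fun k => by
    show mapR (red R k) (f (k + 1) + g (k + 1)) = f k + g k
    rw [map_add, hf.1, hg.1], fun k => add_mem (hf.2 k) (hg.2 k)⟩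
  zero_mem' := ⟨fun k => by
    show mapR (red R k) 0 = 0
    rw [map_zero], fun k => zero_mem _⟩
  neg_mem' := fun {f} hf => ⟨fun k => by
    show mapR (red R k) (- f (k + 1)) = - f k
    rw [map_neg, hf.1], fun k => neg_mem (hf.2 k)⟩

/-- The homogeneous series `x v`. -/
noncomputable def ssS (hA : Gr A) (v : V) (x : R) (hx : x ∈ A v) : SS hA :=
  ⟨fun k => single v (mk2 R k x), fun k => by
    show mapR (red R k) (single v (mk2 R (k + 1) x)) = single v (mk2 R k x)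
    rw [mapR_single, red_mk], fun k w => by
    rw [single_cf]
    split_ifs with h
    · rw [h]
      exact mem_Ak.mpr ⟨x, hx, rfl⟩
    · exact zero_mem _⟩

theorem ssS_cf (hA : Gr A) (v : V) (x : R) (hx : x ∈ A v) (k : ℕ) (w : V) :
    ((ssS hA v x hx).1 k).cf w = if w = v then mk2 R k x else 0 := rfl

theorem ssS_mul (hA : Gr A) {v w : V} {x y : R} (hx : x ∈ A v) (hy : y ∈ A w) :
    ssS hA v x hx * ssS hA w y hy = ssS hA (v * w) (x * y) (hA.mul _ _ _ _ hx hy) := by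
  refine Subtype.ext (funext fun k => ?_)
  show single v (mk2 R k x) * single w (mk2 R k y) = single (v * w) (mk2 R k (x * y))
  rw [single_mul_single, map_mul]

theorem ssS_one (hA : Gr A) : ssS hA (1 : V) 1 hA.one = 1 := by
  refine Subtype.ext (funext fun k => ?_)
  show single (1 : V) (mk2 R k 1) = 1
  rw [map_one]
  rfl

end

end SingerBO
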