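import Mathlib
import Pool.Agent.Lib_MP_394d50_pb.WDefs

/-!
# Piece PO-W1a: inverses of `1 - g` (about 80 lines)

* `bb_inv1`: `1 - g` is a unit (`isUnit_one_sub'`), let `s` be the inverse, `s = 1 + g * s` (and `= 1 + s * g`). `s ∈ BB`: the
  coefficient `s.cf v` is in `Ak A _ v`, by well-founded induction on `v` in the support of `s` (`s.pwo.isWF`,
  `Set.WellFoundedOn.induction` or `Set.IsWF`): for `v` outside the support it is `0`; otherwise
  `s.cf v = (1).cf v + ∑ g.cf x * s.cf (x⁻¹ * v)` (`mul_cf_sum`, `pair_finite`), where only `x > 1` and `x⁻¹ * v` in the support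
  of `s` contribute, and `x⁻¹ * v < v`; `Ak_mul`, `mul_inv_cancel_left`.
-/

namespace SingerBO

open MN

variable {R V : Type} [Ring R] [Group V] [LinearOrder V] [MulLeftMono V] [MulRightMono V]
  {A : V → AddSubgroup R}

theorem bb_inv1 (hA : Gr A) (k : ℕ) (g : MN (Rk R k) V) (hg : g ∈ BB hA k)
    (h1 : ∀ v, g.cf v ≠ 0 → 1 < v) : ∃ s ∈ BB hA k, (1 - g) * s = 1 ∧ s * (1 - g) = 1 := by
  obtain ⟨u, hu⟩ := isUnit_one_sub' h1
  have e1 : (1 - g) * (↑u⁻¹ : MN (Rk R k) V) = 1 := by rw [← hu]; exact u.mul_inv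
  have e2 : (↑u⁻¹ : MN (Rk R k) V) * (1 - g) = 1 := by rw [← hu]; exact u.inv_mul
  set s : MN (Rk R k) V := ↑u⁻¹ with hs
  have e3 : s = 1 + g * s := by
    have h : (1 - g) * s = s - g * s := by rw [sub_mul, one_mul]
    rw [h] at e1
    rw [← e1]; abel
  refine ⟨s, ?_, e1, e2⟩
  have hone : (1 : MN (Rk R k) V) ∈ BB hA k := one_mem _
  have key : ∀ v ∈ Function.support s.cf, s.cf v ∈ Ak A k v := by
    intro v hv
    have hwf : (Function.support s.cf).WellFoundedOn (· < ·) := s.pwo.isWF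
    refine hwf.induction hv (P := fun v => s.cf v ∈ Ak A k v) ?_
    intro v hv ih
    rw [e3, add_cf]
    refine add_mem (hone v) ?_
    rw [mul_cf_sum g s v (pair_finite g.pwo s.pwo v).toFinset (fun x h1 h2 => by
      rw [Set.Finite.mem_toFinset]
      exact ⟨h1, h2⟩)]
    refine AddSubgroup.sum_mem _ fun x hx => ?_
    rw [Set.Finite.mem_toFinset] at hx
    obtain ⟨hx1, hx2⟩ := hx
    have hx3 : 1 < x := h1 x hx1
    have hlt : x⁻¹ * v < v := by
      have h4 : x⁻¹ < 1 := inv_lt_one'.mpr hx3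
      calc x⁻¹ * v < 1 * v := mul_lt_mul_left h4 v
        _ = v := one_mul v
    have h := Ak_mul hA (hg x) (ih (x⁻¹ * v) hx2 hlt)
    rwa [mul_inv_cancel_left] at h
  intro v
  by_cases hv : s.cf v = 0
  · rw [hv]; exact zero_mem _
  · exact key v hv

end SingerBO
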