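import Mathlib
import Pool.Agent.Lib_MP_394d50_pb.WDefs

/-!
# Piece PO-W1b: inverses of `1 - w`, `w` divisible by `2` (about 80 lines)

* `bb_inv2`: `w ∈ BB`, all coefficients are multiples of `2` (`mapR (red1 R k) w = 0`: coefficient `mk2 (k+1) x`, `x ∈ A v`,
  `x ∈ 2 R`): `w ^ (k + 1) = 0`: all coefficients of `w ^ j` lie in the ideal `{mk2 (k+1) (2 ^ j * y)}` (see `pow_dvd_cf`, `nilp` in
  OUnit.lean; here the ring is not commutative but `2` is central: show `∃ y, (w ^ j).cf v = 2 ^ j * y` by induction). So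
  `(1 - w) * ∑ j < k + 1, w ^ j = 1` (`mul_neg_geom_sum`, `geom_sum_mul_neg`), and the sum is in the subring `BB`.
-/

namespace SingerBO

open MN

variable {R V : Type} [Ring R] [Group V] [LinearOrder V] [MulLeftMono V] [MulRightMono V]
  {A : V → AddSubgroup R}

private theorem w2_cf {k : ℕ} {w : MN (Rk R (k + 1)) V} (h1 : mapR (red1 R k) w = 0) (v : V) :
    ∃ y, w.cf v = 2 ^ 1 * y := by
  obtain ⟨x, hx⟩ := Ideal.Quotient.mk_surjective (w.cf v)
  have h2 : (mapR (red1 R k) w).cf v = 0 := by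
    rw [h1, zero_cf]
  rw [mapR_cf, ← hx] at h2
  change mk2 R 1 x = 0 at h2
  obtain ⟨y, hy⟩ := mk2_eq_zero.mp h2
  refine ⟨mk2 R (k + 1) y, ?_⟩
  rw [← hx, hy]
  change mk2 R (k + 1) (2 ^ 1 * y) = _
  rw [map_mul, map_pow, map_ofNat]

private theorem w2_pow {S : Type} [Ring S] {w : MN S V} (h : ∀ v, ∃ y, w.cf v = 2 ^ 1 * y) (j : ℕ) :
    ∀ v, ∃ y, (w ^ j).cf v = 2 ^ j * y := by
  induction j with
  | zero => exact fun v => ⟨(w ^ 0).cf v, by rw [pow_zero 2, one_mul]⟩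
  | succ j ih =>
    intro v
    rw [pow_succ, mul_cf_sum (w ^ j) w v (pair_finite (w ^ j).pwo w.pwo v).toFinset (fun x h1 h2 => by
      rw [Set.Finite.mem_toFinset]
      exact ⟨h1, h2⟩)]
    choose y hy using ih
    choose z hz using h
    refine ⟨∑ x ∈ (pair_finite (w ^ j).pwo w.pwo v).toFinset, y x * z (x⁻¹ * v), ?_⟩
    rw [Finset.mul_sum]
    refine Finset.sum_congr rfl fun x _ => ?_
    rw [hy, hz, pow_one, pow_succ, mul_assoc, mul_assoc]
    congr 1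
    rw [← mul_assoc, ← mul_assoc, (Commute.ofNat_left 2 (y x)).eq]

private theorem w2_nilp {k : ℕ} {w : MN (Rk R (k + 1)) V} (h1 : mapR (red1 R k) w = 0) :
    w ^ (k + 1) = 0 := by
  refine MN.ext (funext fun v => ?_)
  obtain ⟨y, hy⟩ := w2_pow (w2_cf h1) (k + 1) v
  rw [hy, zero_cf]
  have h3 : (2 : Rk R (k + 1)) ^ (k + 1) = 0 := by
    have h4 : mk2 R (k + 1) (2 ^ (k + 1)) = 0 := mk2_eq_zero.mpr ⟨1, (mul_one _).symm⟩
    rwa [map_pow, map_ofNat] at h4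
  rw [h3, zero_mul]

theorem bb_inv2 (hA : Gr A) (k : ℕ) (w : MN (Rk R (k + 1)) V) (hw : w ∈ BB hA (k + 1))
    (h1 : mapR (red1 R k) w = 0) : ∃ s ∈ BB hA (k + 1), (1 - w) * s = 1 ∧ s * (1 - w) = 1 := by
  refine ⟨∑ j ∈ Finset.range (k + 1), w ^ j,
    Subring.sum_mem _ fun j _ => Subring.pow_mem _ hw j, ?_, ?_⟩
  · rw [mul_neg_geom_sum, w2_nilp h1, sub_zero]
  · rw [geom_sum_mul_neg, w2_nilp h1, sub_zero]

end SingerBO
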