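import Mathlib
import Pool.Agent.Lib_MP_394d50_pb.WUnit1
import Pool.Agent.Lib_MP_394d50_pb.WUnit2

/-!
# Piece PO-W1c: units modulo `2 ^ (k + 1)` (about 100 lines)

* `bb_unit`: let `v₀` be the least element of the support of `mapR (red1 R k) f` (`exists_lead`), `f.cf v₀ = mk2 x₀`, `x₀ ∈ A v₀`,
  `x₀ ∉ 2 R` (otherwise the reduction is `0`), `y₀ ∈ A v₀⁻¹` the inverse (`hA.unit`). `f' = single v₀⁻¹ (mk2 y₀) * f ∈ BB`;
  `f'.cf v = mk2 y₀ * f.cf (v₀ * v)` (`single_mul_cf`). `f'.cf 1 = 1`; for `v < 1` the reduction modulo `2` of `f'.cf v` is `0`. Put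
  `w =` the restriction of `-f'` to `{v < 1}` (`rst`), `g = ` the restriction of `1 - f'` to `{v > 1}`: `f' = (1 - g) - w`.
  Both are in `BB` (coefficients are `0` or `-` those of `f'`). `1 - g` has the inverse `s` (`bb_inv1`);
  `f' = (1 - g) * (1 - s * w)`, `s * w` reduces to `0` (`map_mul`, `mapR (red1) w = 0`), `bb_inv2`. So `f'` has the inverse
  `(1 - s w)⁻¹ * s` in `BB`, and `f = single v₀ (mk2 x₀) * f'`.
-/

namespace SingerBO

open MN

variable {R V : Type} [Ring R] [Group V] [LinearOrder V] [MulLeftMono V] [MulRightMono V]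
  {A : V → AddSubgroup R}

private theorem single_BB (hA : Gr A) (k : ℕ) {v : V} {x : R} (hx : x ∈ A v) :
    single v (mk2 R k x) ∈ BB hA k := by
  intro w
  rw [single_cf]
  split_ifs with h
  · rw [h]
    exact mem_Ak.mpr ⟨x, hx, rfl⟩
  · exact zero_mem _

private theorem rst_BB (hA : Gr A) (k : ℕ) (S : Set V) {f : MN (Rk R k) V} (hf : f ∈ BB hA k) :
    rst S f ∈ BB hA k := by
  classical
  intro v
  rw [rst_cf, Set.indicator_apply]
  split_ifs
  · exact hf v
  · exact zero_mem _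

theorem bb_unit (hA : Gr A) (k : ℕ) (f : MN (Rk R (k + 1)) V) (hf : f ∈ BB hA (k + 1))
    (h : mapR (red1 R k) f ≠ 0) : ∃ g ∈ BB hA (k + 1), f * g = 1 ∧ g * f = 1 := by
  classical
  obtain ⟨v₀, hv1, hv2⟩ := exists_lead h
  obtain ⟨x₀, hx₀, hx₀'⟩ := mem_Ak.mp (hf v₀)
  have hnd : ¬ ∃ y : R, x₀ = 2 * y := by
    rintro ⟨y, hy⟩
    apply hv1
    rw [mapR_cf, ← hx₀', red1_mk]
    exact mk2_eq_zero.mpr ⟨y, by rw [pow_one]; exact hy⟩
  obtain ⟨y₀, hy₀, hxy, hyx⟩ := hA.unit v₀ x₀ hx₀ hnd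
  have hsx : single v₀ (mk2 R (k + 1) x₀) * single v₀⁻¹ (mk2 R (k + 1) y₀) =
      (1 : MN (Rk R (k + 1)) V) := by
    rw [single_mul_single, mul_inv_cancel, ← map_mul, hxy, map_one]
    rfl
  have hsy : single v₀⁻¹ (mk2 R (k + 1) y₀) * single v₀ (mk2 R (k + 1) x₀) =
      (1 : MN (Rk R (k + 1)) V) := by
    rw [single_mul_single, inv_mul_cancel, ← map_mul, hyx, map_one]
    rfl
  set f' : MN (Rk R (k + 1)) V := single v₀⁻¹ (mk2 R (k + 1) y₀) * f with hf'
  have hf'B : f' ∈ BB hA (k + 1) := mul_mem (single_BB hA (k + 1) hy₀) hf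
  have hcf : ∀ v, f'.cf v = mk2 R (k + 1) y₀ * f.cf (v₀ * v) := by
    intro v
    rw [hf', single_mul_cf, inv_inv]
  have hcf1 : f'.cf 1 = 1 := by
    rw [hcf, mul_one, ← hx₀', ← map_mul, hyx, map_one]
  have hred : ∀ v, v < 1 → red1 R k (f'.cf v) = 0 := by
    intro v hv
    rw [hcf, map_mul]
    have h1 : (mapR (red1 R k) f).cf (v₀ * v) = 0 := by
      by_contra hn
      have h2 := hv2 _ hn
      have h3 : v₀ * v < v₀ * 1 := mul_lt_mul_right hv v₀
      rw [mul_one] at h3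
      exact absurd h2 (not_le.2 h3)
    rw [mapR_cf] at h1
    rw [h1, mul_zero]
  set w : MN (Rk R (k + 1)) V := rst {v | v < 1} (-f') with hw
  set g : MN (Rk R (k + 1)) V := rst {v | 1 < v} (-f') with hg
  have hwB : w ∈ BB hA (k + 1) := rst_BB hA (k + 1) _ (neg_mem hf'B)
  have hgB : g ∈ BB hA (k + 1) := rst_BB hA (k + 1) _ (neg_mem hf'B)
  have hsplit : f' = (1 - g) - w := by
    refine MN.ext (funext fun v => ?_)
    rw [sub_cf, sub_cf, one_cf, hg, hw, rst_cf, rst_cf, Set.indicator_apply, Set.indicator_apply,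
      neg_cf]
    rcases lt_trichotomy v 1 with h1 | h1 | h1
    · rw [if_neg h1.ne, if_neg (show v ∉ {v : V | 1 < v} from not_lt.2 h1.le),
        if_pos (show v ∈ {v : V | v < 1} from h1)]
      abel
    · subst h1
      rw [if_pos rfl, if_neg (show (1 : V) ∉ {v : V | 1 < v} from lt_irrefl _),
        if_neg (show (1 : V) ∉ {v : V | v < 1} from lt_irrefl _), hcf1]
      abel
    · rw [if_neg h1.ne', if_pos (show v ∈ {v : V | 1 < v} from h1),
        if_neg (show v ∉ {v : V | v < 1} from not_lt.2 h1.le)]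
      abel
  have hg1 : ∀ v, g.cf v ≠ 0 → 1 < v := by
    intro v hv
    by_contra hn
    apply hv
    rw [hg, rst_cf, Set.indicator_apply, if_neg (show v ∉ {v : V | 1 < v} from hn)]
  have hw0 : mapR (red1 R k) w = 0 := by
    refine MN.ext (funext fun v => ?_)
    rw [mapR_cf, zero_cf, hw, rst_cf, Set.indicator_apply]
    split_ifs with h1
    · rw [neg_cf, map_neg, hred v h1, neg_zero]
    · exact map_zero _
  obtain ⟨s, hsB, hs1, hs2⟩ := bb_inv1 hA (k + 1) g hgB hg1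
  obtain ⟨s', hsB', hs1', hs2'⟩ := bb_inv2 hA k (s * w) (mul_mem hsB hwB)
    (by rw [map_mul, hw0, mul_zero])
  have hfac : f' = (1 - g) * (1 - s * w) := by
    rw [mul_sub, mul_one, ← mul_assoc, hs1, one_mul]
    exact hsplit
  have hr : f' * (s' * s) = 1 := by
    rw [hfac]
    calc (1 - g) * (1 - s * w) * (s' * s) = (1 - g) * ((1 - s * w) * s') * s := by
          simp only [mul_assoc]
      _ = 1 := by rw [hs1', mul_one, hs1]
  have hl : s' * s * f' = 1 := by
    rw [hfac]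
    calc s' * s * ((1 - g) * (1 - s * w)) = s' * (s * (1 - g)) * (1 - s * w) := by
          simp only [mul_assoc]
      _ = 1 := by rw [hs2, mul_one, hs2']
  have hff : f = single v₀ (mk2 R (k + 1) x₀) * f' := by
    rw [hf', ← mul_assoc, hsx, one_mul]
  refine ⟨s' * s * single v₀⁻¹ (mk2 R (k + 1) y₀),
    mul_mem (mul_mem hsB' hsB) (single_BB hA (k + 1) hy₀), ?_, ?_⟩
  · calc f * (s' * s * single v₀⁻¹ (mk2 R (k + 1) y₀))
        = single v₀ (mk2 R (k + 1) x₀) * (f' * (s' * s)) * single v₀⁻¹ (mk2 R (k + 1) y₀) := by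
          conv_lhs => rw [hff]
          simp only [mul_assoc]
      _ = 1 := by rw [hr, mul_one, hsx]
  · rw [mul_assoc, ← hf']
    exact hl

end SingerBO
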