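import Mathlib
import Pool.Agent.Lib_MP_394d50_pb.WUnit

/-!
# Piece PO-W2a: the inverse limit, units (about 120 lines)

Compare with OUnit.lean (`ob_isUnit`, `half`, `ob_factor`, `ob_two`), where `R = ℤ`.
* `ss_red`: `mapR (red1 R k) (f.1 (k + 1)) = f.1 1`, by induction on `k` (`f.2.1 k`, `red1 (k + 1) = red1 k ∘ red (k + 1)` on
  representatives: `Ideal.Quotient.mk_surjective`, `mapR_cf`).
* `ss_unit`: every component `f.1 (k + 1)` has an inverse in `BB` (`bb_unit`, `ss_red`); component `0`: `Rk R 0` is a subsingleton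
  (`1 = 2 ^ 0 * 1`), so `f.1 0 = 1`. The inverses are compatible (`left_inv_eq_right_inv`, ring homomorphisms `mapR (red R k)`).
* `ss_tf`: `2 * f = 0`; the coefficient `(f.1 (k + 1)).cf v = mk2 x`, `x ∈ A v`, `2 * x = 2 ^ (k + 1) * y`, so `x = 2 ^ k * y` (`hA.tf`),
  so `(f.1 k).cf v = red (mk2 x) = 0`.
* `ss_nt`: `(1 : SS hA).1 1 ≠ 0`: its coefficient at `1` is `mk2 1 1 ≠ 0` by `hA.nt`.
-/

namespace SingerBO

open MN

variable {R V : Type} [Ring R] [Group V] [LinearOrder V] [MulLeftMono V] [MulRightMono V]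
  {A : V → AddSubgroup R}

omit [Group V] [MulLeftMono V] [MulRightMono V] in
private theorem rk0_sub : Subsingleton (MN (Rk R 0) V) := by
  refine ⟨fun f g => MN.ext (funext fun v => ?_)⟩
  have h : ∀ x : Rk R 0, x = 0 := by
    intro x
    obtain ⟨y, rfl⟩ := Ideal.Quotient.mk_surjective x
    exact mk2_eq_zero.mpr ⟨y, by rw [pow_zero, one_mul]⟩
  rw [h (f.cf v), h (g.cf v)]

theorem ss_red (hA : Gr A) (f : SS hA) (k : ℕ) : mapR (red1 R k) (f.1 (k + 1)) = f.1 1 := by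
  induction k with
  | zero =>
    refine MN.ext (funext fun v => ?_)
    rw [mapR_cf]
    obtain ⟨x, hx⟩ := Ideal.Quotient.mk_surjective ((f.1 (0 + 1)).cf v)
    have hx'' : (f.1 (0 + 1)).cf v = mk2 R (0 + 1) x := hx.symm
    rw [hx'']
    rfl
  | succ k ih =>
    rw [← ih, ← f.2.1 (k + 1)]
    refine MN.ext (funext fun v => ?_)
    rw [mapR_cf, mapR_cf, mapR_cf]
    obtain ⟨x, hx⟩ := Ideal.Quotient.mk_surjective ((f.1 (k + 1 + 1)).cf v)
    have hx' : (f.1 (k + 1 + 1)).cf v = mk2 R (k + 1 + 1) x := hx.symm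
    rw [hx', red1_mk, red_mk, red1_mk]

theorem ss_nt (hA : Gr A) : (1 : SS hA).1 1 ≠ 0 := by
  intro h
  have h1 : (1 : MN (Rk R 1) V) = 0 := h
  have h2 := congrArg (fun g : MN (Rk R 1) V => g.cf 1) h1
  simp only [zero_cf] at h2
  rw [one_cf, if_pos rfl] at h2
  have h3 : mk2 R 1 1 = 0 := by rw [map_one]; exact h2
  obtain ⟨y, hy⟩ := mk2_eq_zero.mp h3
  exact hA.nt ⟨y, by rw [pow_one] at hy; exact hy⟩

theorem ss_unit (hA : Gr A) (f : SS hA) (h : f.1 1 ≠ 0) : ∃ g : SS hA, f * g = 1 ∧ g * f = 1 := by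
  have hk : ∀ k : ℕ, ∃ g ∈ BB hA (k + 1), f.1 (k + 1) * g = 1 ∧ g * f.1 (k + 1) = 1 := fun k =>
    bb_unit hA k (f.1 (k + 1)) (f.2.2 (k + 1)) (by rw [ss_red]; exact h)
  choose g hgB hg1 hg2 using hk
  have hs : Subsingleton (MN (Rk R 0) V) := rk0_sub
  let G : ∀ k : ℕ, MN (Rk R k) V := fun k => Nat.casesOn k 0 g
  have hG1 : ∀ k, f.1 k * G k = 1 := by
    intro k
    cases k with
    | zero => exact Subsingleton.elim _ _
    | succ k => exact hg1 k
  have hG2 : ∀ k, G k * f.1 k = 1 := by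
    intro k
    cases k with
    | zero => exact Subsingleton.elim _ _
    | succ k => exact hg2 k
  have hGB : ∀ k, G k ∈ BB hA k := by
    intro k
    cases k with
    | zero => exact zero_mem _
    | succ k => exact hgB k
  have hGc : ∀ k, mapR (red R k) (G (k + 1)) = G k := by
    intro k
    refine left_inv_eq_right_inv (a := f.1 k) ?_ (hG1 k)
    have e : mapR (red R k) (G (k + 1)) * mapR (red R k) (f.1 (k + 1)) = 1 := by
      rw [← map_mul, show G (k + 1) * f.1 (k + 1) = 1 from hG2 (k + 1), map_one]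
    rw [f.2.1 k] at e
    exact e
  refine ⟨⟨G, hGc, hGB⟩, ?_, ?_⟩
  · refine Subtype.ext (funext fun k => ?_)
    exact hG1 k
  · refine Subtype.ext (funext fun k => ?_)
    exact hG2 k

theorem ss_tf (hA : Gr A) (f : SS hA) (h : 2 * f = 0) : f = 0 := by
  have h0 : f + f = 0 := by rw [← two_mul]; exact h
  refine Subtype.ext (funext fun k => ?_)
  refine MN.ext (funext fun v => ?_)
  show (f.1 k).cf v = (0 : MN (Rk R k) V).cf v
  rw [zero_cf, ← f.2.1 k, mapR_cf]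
  obtain ⟨x, -, hx⟩ := mem_Ak.mp (f.2.2 (k + 1) v)
  rw [← hx, red_mk]
  have h1 : f.1 (k + 1) + f.1 (k + 1) = 0 := congrArg (fun g : SS hA => g.1 (k + 1)) h0
  have h2 := congrArg (fun g : MN (Rk R (k + 1)) V => g.cf v) h1
  simp only [zero_cf] at h2
  rw [add_cf, ← hx, ← map_add] at h2
  obtain ⟨y, hy⟩ := mk2_eq_zero.mp h2
  have h3 : 2 * (x - 2 ^ k * y) = 0 := by
    rw [mul_sub, two_mul x, hy, pow_succ', mul_assoc, sub_self]
  have h4 := sub_eq_zero.mp (hA.tf _ h3)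
  exact mk2_eq_zero.mpr ⟨y, h4⟩

end SingerBO
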