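import Mathlib
import Pool.Agent.Lib_MP_394d50_pb.WLim1

/-!
# Piece PO-W2b: the inverse limit, divisibility (about 160 lines)

Compare with OUnit.lean (`ob_isUnit`, `half`, `ob_factor`, `ob_two`), where `R = ℤ`.
* `ss_half`: `(f.1 (k + 1)).cf v = mk2 x` with `x ∈ A v` and `x ∈ 2 R` (its reduction modulo `2` is `0`), so `x = 2 * y`, `y ∈ A v`
  (`hA.div`). Choose such a `y` for every `k`, `v` (`y = 0` if the coefficient is `0`), `(g k).cf v = mk2 k y`; support contained in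
  that of `f.1 (k + 1)`. Compatible: if `y'` belongs to `k + 1` then `2 * (y - y') ∈ 2 ^ (k + 1) R`, so `y - y' ∈ 2 ^ k R`. And
  `2 * g = f`: `(f.1 k).cf v = red (mk2 (2 y)) = 2 * mk2 k y`.
* `ss_fac` from `ss_pow`: some `f.1 k ≠ 0`, take the least `k` (`Nat.find`), `k ≥ 1` as `Rk R 0` is trivial, `f.1 (k - 1) = 0`, so `f = 2 ^ (k - 1) * g`;
  if `g.1 1 = 0` then `g = 2 * g'` and `f.1 k = 0`.
* `ss_two`: `(2 * f).1 1 = 2 * f.1 1`, and `2 = 0` in `Rk R 1` (coefficientwise: `two_mul`, `add_cf`, representatives).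
* `ss_pow`: (←) coefficients of `(2 ^ k * g).1 k` are `2 ^ k` times something, `0` in `Rk R k`. (→) induction on `k`: `f.1 (k + 1) = 0` gives
  `f.1 1 = 0` (`ss_red`), `f = 2 * g` (`ss_half`), and `g.1 k = 0`: its coefficient is `mk2 k y` with (component `k + 1`) `mk2 (k + 1) (2 * y) = 0`, so
  `2 * y = 2 ^ (k + 1) * z`, `y = 2 ^ k * z` (`hA.tf`).
-/

namespace SingerBO

open MN

variable {R V : Type} [Ring R] [Group V] [LinearOrder V] [MulLeftMono V] [MulRightMono V]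
  {A : V → AddSubgroup R}

private theorem two_mul_cf_wlim {S : Type} [Ring S] (g : MN S V) (v : V) :
    (2 * g).cf v = 2 * g.cf v := by
  rw [two_mul, two_mul, add_cf]

private theorem pow_mul_cf_wlim {S : Type} [Ring S] (g : MN S V) (n : ℕ) (v : V) :
    (2 ^ n * g).cf v = 2 ^ n * g.cf v := by
  induction n with
  | zero => rw [pow_zero, one_mul, pow_zero, one_mul]
  | succ n ih => rw [pow_succ', mul_assoc, two_mul_cf_wlim, ih, pow_succ', mul_assoc]

private theorem two_mk_wlim (k : ℕ) (y : R) : (2 : Rk R k) * mk2 R k y = mk2 R k (2 * y) := by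
  rw [map_mul]
  congr 1

private theorem tf_wlim (hA : Gr A) {k : ℕ} {y : R} (h : mk2 R (k + 1) (2 * y) = 0) :
    mk2 R k y = 0 := by
  obtain ⟨z, hz⟩ := mk2_eq_zero.mp h
  refine mk2_eq_zero.mpr ⟨z, ?_⟩
  rw [pow_succ', mul_assoc] at hz
  have h1 : 2 * (y - 2 ^ k * z) = 0 := by rw [mul_sub, hz, sub_self]
  exact sub_eq_zero.mp (hA.tf _ h1)

private theorem mk_two_wlim {k : ℕ} {y : R} (h : mk2 R k y = 0) : mk2 R (k + 1) (2 * y) = 0 := by
  obtain ⟨z, hz⟩ := mk2_eq_zero.mp h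
  exact mk2_eq_zero.mpr ⟨z, by rw [hz, pow_succ', mul_assoc]⟩

private theorem cf_succ_wlim (hA : Gr A) (f : SS hA) (k : ℕ) (v : V) :
    (f.1 k).cf v = red R k ((f.1 (k + 1)).cf v) := by
  rw [← mapR_cf, f.2.1 k]

theorem ss_half (hA : Gr A) (f : SS hA) (h : f.1 1 = 0) : ∃ g : SS hA, f = 2 * g := by
  have key : ∀ k v, ∃ y : R, y ∈ A v ∧ (f.1 (k + 1)).cf v = mk2 R (k + 1) (2 * y) ∧
      ((f.1 (k + 1)).cf v = 0 → y = 0) := by
    intro k v
    by_cases h0 : (f.1 (k + 1)).cf v = 0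
    · exact ⟨0, zero_mem _, by rw [h0, mul_zero, map_zero], fun _ => rfl⟩
    · obtain ⟨x, hx, hxc⟩ := mem_Ak.mp (f.2.2 (k + 1) v)
      have h1 : mk2 R 1 x = 0 := by
        have h2 := congrArg (fun g : MN (Rk R 1) V => g.cf v) ((ss_red hA f k).trans h)
        rw [← red1_mk R k x, hxc, ← mapR_cf]
        exact h2
      obtain ⟨y', hy'⟩ := mk2_eq_zero.mp h1
      rw [pow_one] at hy'
      obtain ⟨y, hy, hxy⟩ := hA.div v x hx ⟨y', hy'⟩
      exact ⟨y, hy, by rw [← hxy, hxc], fun h3 => absurd h3 h0⟩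
  choose Y hYA hYc hY0 using key
  let g : ∀ k : ℕ, MN (Rk R k) V := fun k =>
    ⟨fun v => mk2 R k (Y k v), (f.1 (k + 1)).pwo.mono fun v hv h1 => hv (by
      show mk2 R k (Y k v) = 0
      rw [hY0 k v h1, map_zero])⟩
  have hg : ∀ k v, (g k).cf v = mk2 R k (Y k v) := fun _ _ => rfl
  have hc : ∀ k, mapR (red R k) (g (k + 1)) = g k := by
    intro k
    refine MN.ext (funext fun v => ?_)
    rw [mapR_cf, hg, hg, red_mk]
    have h1 : mk2 R (k + 1) (2 * Y (k + 1) v) = mk2 R (k + 1) (2 * Y k v) := by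
      rw [← hYc k v, cf_succ_wlim hA f (k + 1) v, hYc (k + 1) v, red_mk]
    have h2 : mk2 R (k + 1) (2 * (Y (k + 1) v - Y k v)) = 0 := by
      rw [mul_sub, map_sub, h1, sub_self]
    have h3 := tf_wlim hA h2
    rw [map_sub] at h3
    exact sub_eq_zero.mp h3
  have hB : ∀ k, g k ∈ BB hA k := fun k => mem_BB.mpr fun v =>
    mem_Ak.mpr ⟨Y k v, hYA k v, rfl⟩
  refine ⟨⟨g, hc, hB⟩, Subtype.ext (funext fun k => MN.ext (funext fun v => ?_))⟩
  show (f.1 k).cf v = (2 * g k).cf v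
  rw [two_mul_cf_wlim, hg, cf_succ_wlim hA f k v, hYc k v, red_mk, two_mk_wlim]

/-- `2 * f` is `0` modulo `2` -/
theorem ss_two (hA : Gr A) (f : SS hA) : (2 * f).1 1 = 0 := by
  refine MN.ext (funext fun v => ?_)
  show (2 * f.1 1).cf v = 0
  rw [two_mul_cf_wlim]
  obtain ⟨x, hx, hxc⟩ := mem_Ak.mp (f.2.2 1 v)
  rw [← hxc, two_mk_wlim]
  exact mk2_eq_zero.mpr ⟨x, by rw [pow_one]⟩

/-- if `2 * g` vanishes modulo `2 ^ (k + 1)` then `g` vanishes modulo `2 ^ k`, and conversely -/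
private theorem two_comp_wlim (hA : Gr A) (g : SS hA) (k : ℕ) :
    (2 * g).1 (k + 1) = 0 ↔ g.1 k = 0 := by
  constructor
  · intro h
    refine MN.ext (funext fun v => ?_)
    rw [zero_cf]
    obtain ⟨y, hy, hyc⟩ := mem_Ak.mp (g.2.2 (k + 1) v)
    have h1 : (2 * g.1 (k + 1)).cf v = 0 :=
      congrArg (fun f : MN (Rk R (k + 1)) V => f.cf v) h
    rw [two_mul_cf_wlim, ← hyc, two_mk_wlim] at h1
    rw [cf_succ_wlim hA g k v, ← hyc, red_mk]
    exact tf_wlim hA h1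
  · intro h
    refine MN.ext (funext fun v => ?_)
    show (2 * g.1 (k + 1)).cf v = 0
    obtain ⟨y, hy, hyc⟩ := mem_Ak.mp (g.2.2 (k + 1) v)
    have h1 : (g.1 k).cf v = 0 := congrArg (fun f : MN (Rk R k) V => f.cf v) h
    rw [cf_succ_wlim hA g k v, ← hyc, red_mk] at h1
    rw [two_mul_cf_wlim, ← hyc, two_mk_wlim]
    exact mk_two_wlim h1

theorem ss_fac (hA : Gr A) (f : SS hA) (h : f ≠ 0) :
    ∃ (j : ℕ) (g : SS hA), g.1 1 ≠ 0 ∧ f = 2 ^ j * g := by
  have key : ∀ (n : ℕ) (f : SS hA), f.1 n ≠ 0 →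
      ∃ (j : ℕ) (g : SS hA), g.1 1 ≠ 0 ∧ f = 2 ^ j * g := by
    intro n
    induction n with
    | zero =>
      intro f h0
      exfalso
      apply h0
      refine MN.ext (funext fun v => ?_)
      rw [zero_cf]
      obtain ⟨x, hx, hxc⟩ := mem_Ak.mp (f.2.2 0 v)
      rw [← hxc]
      exact mk2_eq_zero.mpr ⟨x, by rw [pow_zero, one_mul]⟩
    | succ n ih =>
      intro f hn
      by_cases hr : f.1 1 = 0
      · obtain ⟨g, hg⟩ := ss_half hA f hr
        have hgn : g.1 n ≠ 0 := by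
          intro h0
          apply hn
          rw [hg]
          exact (two_comp_wlim hA g n).mpr h0
        obtain ⟨j, g', h1, h2⟩ := ih g hgn
        refine ⟨j + 1, g', h1, ?_⟩
        rw [hg, h2, ← mul_assoc, ← pow_succ']
      · exact ⟨0, f, hr, by rw [pow_zero, one_mul]⟩
  obtain ⟨n, hn⟩ : ∃ n, f.1 n ≠ 0 := by
    by_contra hcon
    push Not at hcon
    exact h (Subtype.ext (funext hcon))
  exact key n f hn

/-- all coefficients modulo `2 ^ k` vanish -/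
theorem ss_pow (hA : Gr A) (f : SS hA) (k : ℕ) : f.1 k = 0 ↔ ∃ g : SS hA, f = 2 ^ k * g := by
  constructor
  · intro h
    induction k generalizing f with
    | zero => exact ⟨f, by rw [pow_zero, one_mul]⟩
    | succ k ih =>
      have h1 : f.1 1 = 0 := by
        rw [← ss_red hA f k, h, map_zero]
      obtain ⟨g, hg⟩ := ss_half hA f h1
      rw [hg] at h
      obtain ⟨g', hg'⟩ := ih g ((two_comp_wlim hA g k).mp h)
      exact ⟨g', by rw [hg, hg', ← mul_assoc, ← pow_succ']⟩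
  · rintro ⟨g, rfl⟩
    refine MN.ext (funext fun v => ?_)
    show (2 ^ k * g.1 k).cf v = 0
    rw [pow_mul_cf_wlim]
    obtain ⟨x, hx, hxc⟩ := mem_Ak.mp (g.2.2 k v)
    rw [← hxc]
    have h1 : (2 : Rk R k) ^ k = mk2 R k (2 ^ k) := by
      rw [map_pow, map_ofNat]
    rw [h1, ← map_mul]
    exact mk2_eq_zero.mpr ⟨x, rfl⟩

end SingerBO
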