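import Mathlib
import Pool.Agent.Lib_MP_394d50_pb.WLim
import Pool.Agent.Lib_MP_394d50_pb.VBasic

/-!
# Piece PO-W3: the division ring of fractions of the limit (about 130 lines)

* `frac_abs`: the proof of `of_abs` in `Lib_MP_394d50_bo/OField.lean` can be copied (it is private there; `CharZero R` is not needed for
  `E` here; `Nontrivial R` from `h1`).
* `exists_frac`: `frac_abs` for `SS hA` with `ss_tf`, `ss_fac`, `ss_unit`, `ss_nt`. `VR ι.range`: `half`: if `ι f = 2⁻¹` then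
  `ι (2 * f) = 1`, `2 * f = 1`, but `(2 * f).1 1 = 0` (`ss_two`) and `(1).1 1 ≠ 0`. `fac`: `2 ^ j * x = ι f`, `f = 2 ^ i * g`
  (`f ≠ 0` as `x ≠ 0` and `2 ≠ 0` in `E`, since `2 = ι 2 ≠ 0`), `x = 2 ^ (i - j) * ι g`, and `(ι g)⁻¹ = ι g'`.
* `range_sub`: let `F = 2 ^ i * G`, `G.1 1 ≠ 0` for the family `B` (`ss_fac`); then `i ≥ j`, since otherwise
  `2 ^ (j - i) * F' = G` in `SS hA` (`ss_tf`) and its component `1` would be `0`; `F' = 2 ^ (i - j) * G`.
-/

namespace SingerBO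

open MN

private theorem two_pow_wfrac {R : Type} [Ring R] (h2 : ∀ f : R, 2 * f = 0 → f = 0) (j : ℕ) :
    ∀ f : R, 2 ^ j * f = 0 → f = 0 := by
  induction j with
  | zero => intro f h; rwa [pow_zero, one_mul] at h
  | succ j ih =>
    intro f h
    rw [pow_succ, mul_assoc] at h
    exact h2 f (ih _ h)

private theorem comm_wfrac {R : Type} [Ring R] (j : ℕ) (f : R) : 2 ^ j * f = f * 2 ^ j :=
  ((Commute.ofNat_left 2 f).pow_left j).eq

theorem frac_abs {R : Type} [Ring R] [Nontrivial R] (h2 : ∀ f : R, 2 * f = 0 → f = 0)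
    (hf : ∀ f : R, f ≠ 0 → ∃ (j : ℕ) (g : R), IsUnit g ∧ f = 2 ^ j * g) :
    ∃ (E : Type) (_ : DivisionRing E) (ι : R →+* E),
      Function.Injective ι ∧ ∀ x : E, ∃ (j : ℕ) (f : R), 2 ^ j * x = ι f := by
  have hnz : NoZeroDivisors R := by
    refine ⟨fun {a b} hab => ?_⟩
    by_contra hn
    push Not at hn
    obtain ⟨i, f, hfu, hfe⟩ := hf a hn.1
    obtain ⟨j, g, hgu, hge⟩ := hf b hn.2
    have h1 : 2 ^ i * (2 ^ j * (f * g)) = 0 := by
      rw [← hab, hfe, hge, mul_assoc, ← mul_assoc f, ← comm_wfrac j f, mul_assoc]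
    have h3 : f * g = 0 := two_pow_wfrac h2 j _ (two_pow_wfrac h2 i _ h1)
    exact (hfu.mul hgu).ne_zero h3
  have h2j : ∀ j : ℕ, (2 : R) ^ j ∈ nonZeroDivisors R := by
    intro j
    refine mem_nonZeroDivisors_of_ne_zero fun h => ?_
    have h1 : (2 : R) ^ j * 1 = 0 := by rw [mul_one, h]
    exact one_ne_zero (two_pow_wfrac h2 j 1 h1)
  have hore : Nonempty (OreLocalization.OreSet (nonZeroDivisors R)) := by
    rw [OreLocalization.nonempty_oreSet_iff_of_noZeroDivisors]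
    intro r s
    obtain ⟨j, g, hgu, hge⟩ := hf s.1 (nonZeroDivisors.ne_zero s.2)
    obtain ⟨u, rfl⟩ := hgu
    refine ⟨r * ((u⁻¹ : Rˣ) : R), ⟨2 ^ j, h2j j⟩, ?_⟩
    show 2 ^ j * r = r * ((u⁻¹ : Rˣ) : R) * s.1
    rw [hge, comm_wfrac j (u : R), ← mul_assoc, mul_assoc r, Units.inv_mul, mul_one, comm_wfrac]
  obtain ⟨hore'⟩ := hore
  have hinj : Function.Injective
      (OreLocalization.numeratorRingHom : R →+* OreLocalization (nonZeroDivisors R) R) :=
    OreLocalization.numeratorHom_inj (R := R) (S := nonZeroDivisors R) inf_le_left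
  refine ⟨OreLocalization (nonZeroDivisors R) R, inferInstance,
    OreLocalization.numeratorRingHom, hinj, ?_⟩
  intro x
  induction x using OreLocalization.ind with
  | _ r s =>
    obtain ⟨j, g, hgu, hge⟩ := hf s.1 (nonZeroDivisors.ne_zero s.2)
    obtain ⟨u, rfl⟩ := hgu
    refine ⟨j, ((u⁻¹ : Rˣ) : R) * r, ?_⟩
    have h1 : (OreLocalization.numeratorRingHom : R →+* OreLocalization (nonZeroDivisors R) R)
        s.1 * (OreLocalization.oreDiv r s) = OreLocalization.numeratorRingHom r :=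
      OreLocalization.mul_cancel (r := r) (s := s) (t := 1)
    rw [hge, map_mul, map_pow, map_ofNat] at h1
    rw [map_mul, ← h1, comm_wfrac j (OreLocalization.numeratorRingHom (u : R)),
      mul_assoc (OreLocalization.numeratorRingHom (u : R)),
      ← mul_assoc (OreLocalization.numeratorRingHom ((u⁻¹ : Rˣ) : R)), ← map_mul,
      Units.inv_mul, map_one, one_mul]

variable {R V : Type} [Ring R] [Group V] [LinearOrder V] [MulLeftMono V] [MulRightMono V]
  {A : V → AddSubgroup R}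

theorem exists_frac (hA : Gr A) : ∃ (E : Type) (_ : DivisionRing E) (ι : SS hA →+* E),
    Function.Injective ι ∧ VR ι.range ∧ ∀ x : E, ∃ (j : ℕ) (f : SS hA), 2 ^ j * x = ι f := by
  have hnt : Nontrivial (SS hA) := ⟨⟨1, 0, fun h => ss_nt hA (by rw [h]; rfl)⟩⟩
  have hfac : ∀ f : SS hA, f ≠ 0 → ∃ (j : ℕ) (g : SS hA), IsUnit g ∧ f = 2 ^ j * g := by
    intro f hf
    obtain ⟨j, g, hg, hfg⟩ := ss_fac hA f hf
    obtain ⟨g', h1, h2⟩ := ss_unit hA g hg
    exact ⟨j, g, ⟨⟨g, g', h1, h2⟩, rfl⟩, hfg⟩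
  obtain ⟨E, hE, ι, hι, hx⟩ := frac_abs (fun f => ss_tf hA f) hfac
  have h2E : (2 : E) ≠ 0 := by
    intro h
    have h1 : ι 2 = ι 0 := by rw [map_ofNat, map_zero, h]
    have h3 : (2 : SS hA) * 1 = 0 := by rw [mul_one, hι h1]
    exact one_ne_zero (ss_tf hA 1 h3)
  refine ⟨E, hE, ι, hι, ⟨?_, ?_⟩, hx⟩
  · rintro ⟨f, hf⟩
    have h1 : ι (2 * f) = ι 1 := by
      rw [map_mul, map_ofNat, hf, map_one, mul_inv_cancel₀ h2E]
    have h3 := ss_two hA f
    rw [hι h1] at h3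
    exact ss_nt hA h3
  · intro x hx0
    obtain ⟨j, f, hf⟩ := hx x
    have hf0 : f ≠ 0 := by
      rintro rfl
      rw [map_zero] at hf
      exact hx0 ((mul_eq_zero.mp hf).resolve_left (pow_ne_zero _ h2E))
    obtain ⟨i, g, ⟨u, rfl⟩, hfg⟩ := hfac f hf0
    refine ⟨(i : ℤ) - j, ι (u : SS hA), ⟨u, rfl⟩, ⟨((u⁻¹ : (SS hA)ˣ) : SS hA), ?_⟩, ?_⟩
    · refine eq_inv_of_mul_eq_one_left ?_
      rw [← map_mul, Units.inv_mul, map_one]
    · rw [hfg, map_mul, map_pow, map_ofNat] at hf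
      have h3 : (2 : E) ^ ((i : ℤ) - j) = (2 ^ j)⁻¹ * 2 ^ i := by
        rw [sub_eq_neg_add, zpow_add₀ h2E, zpow_neg, zpow_natCast, zpow_natCast]
      rw [h3, mul_assoc, ← hf, inv_mul_cancel_left₀ (pow_ne_zero _ h2E)]

/-- The inclusion for a smaller graded family. -/
noncomputable def ssIncl {B : V → AddSubgroup R} (hA : Gr A) (hB : Gr B) (h : ∀ v, B v ≤ A v) :
    SS hB →+* SS hA :=
  Subring.inclusion (by
    rintro f ⟨h1, h2⟩
    exact ⟨h1, fun k v => AddSubgroup.map_mono (h v) (h2 k v)⟩)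

theorem ssIncl_val {B : V → AddSubgroup R} (hA : Gr A) (hB : Gr B) (h : ∀ v, B v ≤ A v)
    (f : SS hB) (k : ℕ) : (ssIncl hA hB h f).1 k = f.1 k := rfl

/-- If `2 ^ j * F'` has its coefficients in the smaller family then `F'` has. -/
theorem ss_div {B : V → AddSubgroup R} (hA : Gr A) (hB : Gr B) (h : ∀ v, B v ≤ A v) (j : ℕ)
    (F' : SS hA) (F : SS hB) (hF : 2 ^ j * F' = ssIncl hA hB h F) :
    ∃ F'' : SS hB, F' = ssIncl hA hB h F'' := by
  by_cases hF0 : F = 0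
  · refine ⟨0, ?_⟩
    rw [hF0, map_zero] at hF
    rw [map_zero]
    exact two_pow_wfrac (fun f => ss_tf hA f) j F' hF
  · obtain ⟨i, G, hG, rfl⟩ := ss_fac hB F hF0
    rw [map_mul, map_pow, map_ofNat] at hF
    by_cases hij : j ≤ i
    · obtain ⟨d, rfl⟩ := Nat.exists_eq_add_of_le hij
      refine ⟨2 ^ d * G, ?_⟩
      rw [map_mul, map_pow, map_ofNat]
      have h1 : 2 ^ j * (F' - 2 ^ d * ssIncl hA hB h G) = 0 := by
        rw [mul_sub, hF, pow_add, mul_assoc, sub_self]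
      exact sub_eq_zero.mp (two_pow_wfrac (fun f => ss_tf hA f) _ _ h1)
    · exfalso
      obtain ⟨d, rfl⟩ := Nat.exists_eq_add_of_lt (not_le.mp hij)
      have h1 : 2 ^ i * (2 * (2 ^ d * F') - ssIncl hA hB h G) = 0 := by
        rw [mul_sub, ← hF, add_assoc, pow_add, pow_succ', mul_assoc, mul_assoc, sub_self]
      have h2 : 2 * (2 ^ d * F') = ssIncl hA hB h G :=
        sub_eq_zero.mp (two_pow_wfrac (fun f => ss_tf hA f) _ _ h1)
      have h3 := ss_two hA (2 ^ d * F')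
      rw [h2] at h3
      exact hG h3

end SingerBO
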