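import Mathlib
import Pool.Agent.Lib_MP_394d50_pb.XDefs
import Pool.Agent.Lib_MP_394d50_pb.WFrac

/-!
# MP_394d50_gt, poly-(bi-orderable) groups: the 2-adic Laurent series over `(E, O)` (construction)

`R = O`, `V = Multiplicative ℤ`, `A v = ⊤`.

Piece PO-X1a: `gr_top` (about 60 lines). `tf`: `2 * x = 0` in `O`, `2 ≠ 0` in `E` (`VR.two_ne`). `nt`: `1 = 2 * y` with `y ∈ O` contradicts
`not_dv_one` (`Dv O 1 1` is `2 ^ (-1) * 1 ∈ O`). `div`: trivial (`A v = ⊤`). `unit`: `x ∈ O` not in `2 O`, so `¬ Dv O 1 x` (if `2 ^ (-1) * x = y ∈ O` then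
`x = 2 * y`), `x ≠ 0`, `x⁻¹ ∈ O` (`inv_mem_of_not_dv`).
-/

namespace SingerBO

open MN

section

variable {E : Type} [DivisionRing E] {O : Subring E}

theorem gr_top (hO : VR O) : Gr (fun _ : Multiplicative ℤ => (⊤ : AddSubgroup O)) := by
  have h2 : (2 : E) ≠ 0 := hO.two_ne
  have hc : ∀ y : O, ((2 * y : O) : E) = 2 * (y : E) := fun y => rfl
  have hdv : ∀ x : O, Dv O 1 (x : E) → ∃ y : O, x = 2 * y := by
    intro x hx
    refine ⟨⟨2 ^ (-1 : ℤ) * (x : E), hx⟩, Subtype.ext ?_⟩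
    rw [hc]
    show (x : E) = 2 * (2 ^ (-1 : ℤ) * (x : E))
    rw [zpow_neg_one, mul_inv_cancel_left₀ h2]
  have hdv' : ∀ x : O, (∃ y : O, x = 2 * y) → Dv O 1 (x : E) := by
    rintro x ⟨y, rfl⟩
    show (2 : E) ^ (-1 : ℤ) * ((2 * y : O) : E) ∈ O
    rw [hc, zpow_neg_one, inv_mul_cancel_left₀ h2]
    exact y.2
  refine ⟨AddSubgroup.mem_top _, fun _ _ _ _ _ _ => AddSubgroup.mem_top _, ?_, ?_, ?_, ?_⟩
  · intro x hx
    have h3 : 2 * (x : E) = 0 := by
      rw [← hc, hx]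
      rfl
    exact Subtype.ext ((mul_eq_zero.mp h3).resolve_left h2)
  · intro h
    exact not_dv_one hO (hdv' 1 h)
  · rintro v x - ⟨y, hy⟩
    exact ⟨y, AddSubgroup.mem_top _, hy⟩
  · intro v x _ hx
    have h1 : ¬ Dv O 1 (x : E) := fun h => hx (hdv x h)
    have h3 := inv_mem_of_not_dv hO h1 x.2
    have h4 : (x : E) ≠ 0 := by
      intro h
      apply h1
      rw [h]
      exact dv_zero 1
    exact ⟨⟨(x : E)⁻¹, h3⟩, AddSubgroup.mem_top _, Subtype.ext (mul_inv_cancel₀ h4),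
      Subtype.ext (inv_mul_cancel₀ h4)⟩

/-- The ring of the integral series. -/
abbrev ST (hO : VR O) : Type := SS (gr_top hO)

/-- The coefficient of degree `n` modulo `2 ^ k`. -/
def cfS {hO : VR O} (k : ℕ) (n : ℤ) (F : ST hO) : Rk O k := (F.1 k).cf (Multiplicative.ofAdd n)

/-- The series `x z ^ n`. -/
noncomputable def zS (hO : VR O) (n : ℤ) (x : O) : ST hO :=
  ssS (gr_top hO) (Multiplicative.ofAdd n) x (AddSubgroup.mem_top x)

theorem cfS_zS (hO : VR O) (k : ℕ) (m n : ℤ) (x : O) :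
    cfS k n (zS hO m x) = if n = m then mk2 O k x else 0 := by
  unfold cfS zS
  rw [ssS_cf]
  exact if_congr (Equiv.apply_eq_iff_eq _) rfl rfl

/-- The coefficients of a quotient. -/
def CfD {L : Type} [DivisionRing L] {hO : VR O} (ι : ST hO →+* L) (k n : ℤ) (f : L) (a : E) :
    Prop :=
  ∃ (j : ℕ) (F : ST hO) (x : O), 2 ^ j * f = ι F ∧ (x : E) = 2 ^ j * a ∧ 0 ≤ k + j ∧
    cfS (k + j).toNat n F = mk2 O (k + j).toNat x

/-- What is known on the division ring of fractions. -/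
structure FracS {L : Type} [DivisionRing L] {hO : VR O} (ι : ST hO →+* L) : Prop where
  inj : Function.Injective ι
  vr : VR ι.range
  frac : ∀ x : L, ∃ (j : ℕ) (F : ST hO), 2 ^ j * x = ι F

end

end SingerBO
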