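import Mathlib
import Pool.Agent.Lib_MP_394d50_pb.XSer

/-!
# Piece PO-X1b: the coefficients of the integral series (about 150 lines)

* `cfS_add`, `cfS_neg`: `add_cf`, `neg_cf`. `cfS_red`: `red O k (cfS (k + 1) n F) = cfS k n F` (`F.2.1 k`, `mapR_cf`).
* `cfS_two`: `cfS (k + j) n (2 ^ j * F) = mk2 O (k + j) (2 ^ j * x)` if `cfS k n F = mk2 O k x`: the coefficient of `2 ^ j * F` is `2 ^ j` times that of `F`
  (`(2 * F) = F + F`; induction on `j`: `2 ^ (j+1) * F = 2 * (2 ^ j * F)`), which is `mk2 O (k + j) y` for some `y` with `mk2 O k y = mk2 O k x`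
  (iterate `cfS_red`), so `y - x = 2 ^ k * z`, `2 ^ j * y - 2 ^ j * x = 2 ^ (k + j) * z`.
  `cfS_two'`: the converse: from `cfS (k + j) n (2 ^ j * F) = mk2 O (k + j) (2 ^ j * x)`: with `y` as before `2 ^ j * (y - x) = 2 ^ (k + j) * z`, so
  `y - x = 2 ^ k * z` (`2 ≠ 0` in `E`).
* `cfS_ext`: `F.1 k = 0 ↔ ∀ n, cfS k n F = 0` (`MN.ext`).
* `cfS_lb`: the support of `F.1 k` is empty or has a least element (`exists_lead`).
* `cfS_mul`: `mul_cf_sum` (as in `lc_mul`, LDefs.lean) over a finite set `J ⊇ I` containing all contributing indices (`pair_finite`); the terms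
  outside `I` are `0` by `hI`.
-/

namespace SingerBO

open MN

variable {E : Type} [DivisionRing E] {O : Subring E} {hO : VR O}

theorem cfS_add (k : ℕ) (n : ℤ) (F F' : ST hO) : cfS k n (F + F') = cfS k n F + cfS k n F' := rfl

theorem cfS_red (k : ℕ) (n : ℤ) (F : ST hO) : red O k (cfS (k + 1) n F) = cfS k n F := by
  unfold cfS
  rw [← mapR_cf, F.2.1 k]

private theorem cfS_two_mul (k : ℕ) (n : ℤ) (F : ST hO) : cfS k n (2 * F) = 2 * cfS k n F := by
  rw [two_mul, cfS_add, two_mul]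

private theorem cfS_pow_mul (k j : ℕ) (n : ℤ) (F : ST hO) : cfS k n (2 ^ j * F) = 2 ^ j * cfS k n F := by
  induction j with
  | zero => rw [pow_zero, pow_zero, one_mul, one_mul]
  | succ j ih => rw [pow_succ', mul_assoc, cfS_two_mul, ih, pow_succ', mul_assoc]

private theorem cfS_step (k : ℕ) (n : ℤ) (F : ST hO) (x : O) (hx : cfS (k + 1) n F = mk2 O (k + 1) x) :
    cfS k n F = mk2 O k x := by
  rw [← cfS_red, hx, red_mk]

private theorem mk2_eq_iff (k : ℕ) (x y : O) : mk2 O k x = mk2 O k y ↔ ∃ z, x - y = 2 ^ k * z := by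
  rw [← mk2_eq_zero, map_sub, sub_eq_zero]

theorem cfS_mono (k l : ℕ) (h : k ≤ l) (n : ℤ) (F : ST hO) (x : O)
    (hx : cfS l n F = mk2 O l x) : cfS k n F = mk2 O k x := by
  induction l, h using Nat.le_induction with
  | base => exact hx
  | succ l _ ih => exact ih (cfS_step l n F x hx)

theorem cfS_two (k j : ℕ) (n : ℤ) (F : ST hO) (x : O) :
    cfS (k + j) n (2 ^ j * F) = mk2 O (k + j) (2 ^ j * x) ↔ cfS k n F = mk2 O k x := by
  obtain ⟨y, hy⟩ := Ideal.Quotient.mk_surjective (cfS (k + j) n F)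
  have hy' : cfS (k + j) n F = mk2 O (k + j) y := hy.symm
  have hp : (2 : Rk O (k + j)) ^ j = mk2 O (k + j) (2 ^ j) := by rw [map_pow, map_ofNat]
  rw [cfS_pow_mul, hy', cfS_mono k (k + j) (Nat.le_add_right k j) n F y hy', hp, ← map_mul, mk2_eq_iff, mk2_eq_iff]
  have h2 : (2 : E) ≠ 0 := hO.two_ne
  constructor
  · rintro ⟨z, hz⟩
    refine ⟨z, Subtype.ext ?_⟩
    have h3 := congrArg (fun w : O => (w : E)) hz
    have h4 : (2 : E) ^ j * ((y : E) - (x : E)) = 2 ^ j * (2 ^ k * (z : E)) := by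
      rw [← mul_assoc, ← pow_add, add_comm j k, mul_sub]
      exact h3
    exact mul_left_cancel₀ (pow_ne_zero j h2) h4
  · rintro ⟨z, hz⟩
    refine ⟨z, ?_⟩
    rw [← mul_sub, hz, ← mul_assoc, ← pow_add, add_comm j k]

theorem cfS_ext (k : ℕ) (F : ST hO) : F.1 k = 0 ↔ ∀ n, cfS k n F = 0 := by
  constructor
  · intro h n
    unfold cfS
    rw [h]
    rfl
  · intro h
    exact MN.ext (funext fun v => h (Multiplicative.toAdd v))

theorem cfS_lb (k : ℕ) (F : ST hO) : ∃ l : ℤ, ∀ n < l, cfS k n F = 0 := by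
  by_cases h : F.1 k = 0
  · exact ⟨0, fun n _ => (cfS_ext k F).1 h n⟩
  · obtain ⟨v₀, _, h2⟩ := MN.exists_lead h
    refine ⟨Multiplicative.toAdd v₀, fun n hn => ?_⟩
    by_contra hc
    have h3 := h2 _ hc
    exact absurd h3 (not_le.mpr hn)

theorem cfS_mul (k : ℕ) (n : ℤ) (F F' : ST hO) (I : Finset ℤ)
    (hI : ∀ i, i ∉ I → cfS k i F * cfS k (n - i) F' = 0) :
    cfS k n (F * F') = ∑ i ∈ I, cfS k i F * cfS k (n - i) F' := by
  classical
  have he : ∀ x : Multiplicative ℤ, x⁻¹ * Multiplicative.ofAdd n =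
      Multiplicative.ofAdd (n - Multiplicative.toAdd x) := by
    intro x
    show Multiplicative.ofAdd (- Multiplicative.toAdd x + n) = _
    rw [neg_add_eq_sub]
  have h1 : cfS k n (F * F') = (F.1 k * F'.1 k).cf (Multiplicative.ofAdd n) := rfl
  rw [h1, MN.mul_cf_sum (F.1 k) (F'.1 k) _ (I.map (Multiplicative.ofAdd (α := ℤ)).toEmbedding ∪
    (pair_finite (F.1 k).pwo (F'.1 k).pwo (Multiplicative.ofAdd n)).toFinset) (fun x h1 h2 => by
      rw [Finset.mem_union, Set.Finite.mem_toFinset]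
      exact Or.inr ⟨h1, h2⟩)]
  have h2 : ∑ i ∈ I, cfS k i F * cfS k (n - i) F' =
      ∑ x ∈ I.map (Multiplicative.ofAdd (α := ℤ)).toEmbedding, (F.1 k).cf x * (F'.1 k).cf (x⁻¹ * Multiplicative.ofAdd n) := by
    rw [Finset.sum_map]
    refine Finset.sum_congr rfl fun i _ => ?_
    rw [he]
    rfl
  rw [h2]
  symm
  refine Finset.sum_subset Finset.subset_union_left fun x _ hx => ?_
  rw [he]
  refine hI (Multiplicative.toAdd x) fun h => hx ?_
  exact Finset.mem_map.2 ⟨Multiplicative.toAdd x, h, rfl⟩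

end SingerBO
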