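import Mathlib
import Pool.Agent.Lib_MP_394d50_pb.XInt

/-!
# Piece PO-X1c: the coefficients of the quotients, first part (about 180 lines)

* `cfD_iff` (main lemma): let `2 ^ j * f = ι F`, `(x : E) = 2 ^ j * a`, `0 ≤ k + j`. Then `CfD ι k n f a ↔ cfS (k + j).toNat n F = mk2 O _ x`. (←) by
  definition. (→) let `j'`, `F'`, `x'` be the data of `CfD`. If `j' ≤ j`: `F = 2 ^ (j - j') * F'` (`ι` injective), `x = 2 ^ (j - j') * x'`,
  `(k + j).toNat = (k + j').toNat + (j - j')`, `cfS_two`. If `j ≤ j'` the same with the roles exchanged (`cfS_two` is an equivalence).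
* `cfD_data`: for all `f`, `a`, `k` there is `j` with all data (`FracS.frac`, `exists_dv hO a`: `Dv O m a`, `2 ^ j * a ∈ O` for `j ≥ -m`; take `j` large:
  `2 ^ i * (2 ^ j * f) = ι (2 ^ i * F)`). `cfD_data2`: a common `j` for two pairs.
* the rules: use `cfD_iff` for a common `j`. `ex`: `cfS K n F = mk2 O K x` for some `x` (`Ideal.Quotient.mk_surjective`), `a = 2 ^ (-j) * x`. `cg`:
  `mk2 x = mk2 y ↔ ∃ z, x - y = 2 ^ K * z ↔ Dv O k (a - b)` (`mk2_eq_zero`, `2 ^ j * (a - b) = 2 ^ (k + j) * z`). `ad`: `cfS_add`, `map_add`. `mo`: `cfS_mono`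
  (take `j` with `0 ≤ k + j`). `sc` (`i : ℤ`): choose `j` large, `j - i ≥ 0`: data for `(f, a)` with `j` are data for `(2 ^ i f, 2 ^ i a)` with `j - i`.
-/

namespace SingerBO

open MN

variable {E L : Type} [DivisionRing E] [DivisionRing L] {O : Subring E} {hO : VR O}
  {ι : ST hO →+* L}

private theorem xcf_pow_z {K : Type} [DivisionRing K] (j : ℕ) : (2 : K) ^ (j : ℤ) = 2 ^ j :=
  zpow_natCast 2 j

private theorem xcf_mk2_eq (k : ℕ) (x y : O) : mk2 O k x = mk2 O k y ↔ ∃ z, x - y = 2 ^ k * z := by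
  rw [← mk2_eq_zero, map_sub, sub_eq_zero]

/-- lifting data from `j` to `j + d` -/
private theorem xcf_lift (ι : ST hO →+* L) {f : L} {a : E} {j : ℕ} {F : ST hO} {x : O}
    (h1 : 2 ^ j * f = ι F) (h2 : (x : E) = 2 ^ j * a) (d : ℕ) :
    2 ^ (j + d) * f = ι (2 ^ d * F) ∧ ((2 ^ d * x : O) : E) = 2 ^ (j + d) * a := by
  constructor
  · rw [add_comm, pow_add, mul_assoc, h1, map_mul, map_pow, map_ofNat]
  · rw [add_comm, pow_add, mul_assoc, ← h2]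
    rfl

private theorem xcf_key (hS : FracS ι) {k n : ℤ} {f : L} {a : E} {j d : ℕ} {F F' : ST hO} {x x' : O}
    (h1 : 2 ^ j * f = ι F) (h2 : (x : E) = 2 ^ j * a) (h3 : 0 ≤ k + j)
    (h1' : 2 ^ (j + d) * f = ι F') (h2' : (x' : E) = 2 ^ (j + d) * a) :
    cfS (k + ((j + d : ℕ) : ℤ)).toNat n F' = mk2 O (k + ((j + d : ℕ) : ℤ)).toNat x' ↔
      cfS (k + j).toNat n F = mk2 O (k + j).toNat x := by
  obtain ⟨e1, e2⟩ := xcf_lift ι h1 h2 d
  have hF : F' = 2 ^ d * F := hS.inj (by rw [← h1', e1])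
  have hx : x' = 2 ^ d * x := Subtype.ext (by rw [h2', e2])
  have hk : (k + ((j + d : ℕ) : ℤ)).toNat = (k + j).toNat + d := by
    push_cast
    omega
  rw [hF, hx, hk]
  exact cfS_two _ _ _ _ _

theorem cfD_iff (hS : FracS ι) {k n : ℤ} {f : L} {a : E} {j : ℕ} {F : ST hO} {x : O}
    (h1 : 2 ^ j * f = ι F) (h2 : (x : E) = 2 ^ j * a) (h3 : 0 ≤ k + j) :
    CfD ι k n f a ↔ cfS (k + j).toNat n F = mk2 O (k + j).toNat x := by
  constructor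
  · rintro ⟨j', F', x', e1, e2, e3, e4⟩
    rcases le_total j' j with h | h
    · obtain ⟨d, rfl⟩ := Nat.exists_eq_add_of_le h
      exact (xcf_key hS e1 e2 e3 h1 h2).2 e4
    · obtain ⟨d, rfl⟩ := Nat.exists_eq_add_of_le h
      exact (xcf_key hS h1 h2 h3 e1 e2).1 e4
  · intro h
    exact ⟨j, F, x, h1, h2, h3, h⟩

theorem cfD_data (hS : FracS ι) (k : ℤ) (f : L) (a : E) (m : ℕ) :
    ∃ (j : ℕ) (F : ST hO) (x : O), m ≤ j ∧ 2 ^ j * f = ι F ∧ (x : E) = 2 ^ j * a ∧ 0 ≤ k + j := by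
  obtain ⟨i, F, hF⟩ := hS.frac f
  obtain ⟨m', hm'⟩ := exists_dv hO a
  have h1 : Dv O (-((i + (m + m'.natAbs + k.natAbs) : ℕ) : ℤ)) a := Dv.mono hO (by omega) hm'
  unfold Dv at h1
  rw [neg_neg, xcf_pow_z] at h1
  refine ⟨i + (m + m'.natAbs + k.natAbs), 2 ^ (m + m'.natAbs + k.natAbs) * F, ⟨_, h1⟩, by omega, ?_, rfl, by omega⟩
  rw [add_comm, pow_add, mul_assoc, hF, map_mul, map_pow, map_ofNat]

theorem cfD_data2 (hS : FracS ι) (k : ℤ) (f g : L) (a b : E) (m : ℕ) :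
    ∃ (j : ℕ) (F F' : ST hO) (x y : O), m ≤ j ∧ 2 ^ j * f = ι F ∧ 2 ^ j * g = ι F' ∧
      (x : E) = 2 ^ j * a ∧ (y : E) = 2 ^ j * b ∧ 0 ≤ k + j := by
  obtain ⟨j, F, x, e0, e1, e2, e3⟩ := cfD_data hS k f a m
  obtain ⟨j', F', y, e0', e1', e2', e3'⟩ := cfD_data hS k g b j
  obtain ⟨d, rfl⟩ := Nat.exists_eq_add_of_le e0'
  obtain ⟨c1, c2⟩ := xcf_lift ι e1 e2 d
  exact ⟨j + d, 2 ^ d * F, F', 2 ^ d * x, y, e0.trans e0', c1, e1', c2, e2', e3'⟩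

theorem cfD_ex (hS : FracS ι) (k n : ℤ) (f : L) : ∃ a, CfD ι k n f a := by
  obtain ⟨j, F, x, e0, e1, e2, e3⟩ := cfD_data hS k f (0 : E) 0
  obtain ⟨y, hy⟩ := Ideal.Quotient.mk_surjective (cfS (k + j).toNat n F)
  refine ⟨(2 ^ j)⁻¹ * (y : E), j, F, y, e1, ?_, e3, hy.symm⟩
  rw [mul_inv_cancel_left₀ (pow_ne_zero j hO.two_ne)]

theorem cfD_cg (hS : FracS ι) (k n : ℤ) (f : L) (a b : E) (h : CfD ι k n f a) :
    CfD ι k n f b ↔ Dv O k (a - b) := by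
  obtain ⟨j, F, F', x, y, e0, e1, e1', e2, e2', e3⟩ := cfD_data2 hS k f f a b 0
  have hF : F' = F := hS.inj (by rw [← e1, e1'])
  subst hF
  have h1 := (cfD_iff hS e1 e2 e3).1 h
  rw [cfD_iff hS e1 e2' e3, h1, xcf_mk2_eq]
  have h2 : (2 : E) ≠ 0 := hO.two_ne
  have hK : (2 : E) ^ (k + j).toNat = 2 ^ k * 2 ^ j := by
    rw [← xcf_pow_z, ← xcf_pow_z j, ← zpow_add₀ h2, Int.toNat_of_nonneg e3]
  unfold Dv
  have hsub : ((x - y : O) : E) = 2 ^ j * (a - b) := by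
    rw [mul_sub, ← e2, ← e2']
    rfl
  have hj : (2 : E) ^ j ≠ 0 := pow_ne_zero j h2
  have hk : (2 : E) ^ k ≠ 0 := zpow_ne_zero k h2
  constructor
  · rintro ⟨z, hz⟩
    have h4 : ((x - y : O) : E) = 2 ^ (k + j).toNat * (z : E) := by
      rw [hz]
      rfl
    rw [hsub, hK] at h4
    have h5 : (2 : E) ^ j * (a - b) = 2 ^ j * (2 ^ k * (z : E)) := by
      rw [h4, ← mul_assoc, ← xcf_pow_z j, ← zpow_add₀ h2, ← zpow_add₀ h2, add_comm]
    have h6 := mul_left_cancel₀ hj h5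
    rw [h6, zpow_neg, inv_mul_cancel_left₀ hk]
    exact z.2
  · intro hz
    refine ⟨⟨_, hz⟩, Subtype.ext ?_⟩
    have h4 : ((2 ^ (k + j).toNat * (⟨2 ^ (-k) * (a - b), hz⟩ : O) : O) : E) =
        2 ^ (k + j).toNat * (2 ^ (-k) * (a - b)) := rfl
    rw [h4, hsub, hK, ← mul_assoc, ← xcf_pow_z j, ← zpow_add₀ h2, ← zpow_add₀ h2]
    congr 2
    ring

theorem cfD_ad (hS : FracS ι) (k n : ℤ) (f g : L) (a b : E) (h : CfD ι k n f a)
    (h' : CfD ι k n g b) : CfD ι k n (f + g) (a + b) := by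
  obtain ⟨j, F, F', x, y, e0, e1, e1', e2, e2', e3⟩ := cfD_data2 hS k f g a b 0
  have h1 := (cfD_iff hS e1 e2 e3).1 h
  have h2 := (cfD_iff hS e1' e2' e3).1 h'
  refine ⟨j, F + F', x + y, by rw [mul_add, e1, e1', map_add], ?_, e3, by rw [cfS_add, h1, h2, map_add]⟩
  rw [mul_add, ← e2, ← e2']
  rfl

theorem cfD_mo (hS : FracS ι) (k l n : ℤ) (f : L) (a : E) (hkl : k ≤ l) (h : CfD ι l n f a) :
    CfD ι k n f a := by
  obtain ⟨j, F, x, e0, e1, e2, e3⟩ := cfD_data hS k f a 0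
  have h1 := (cfD_iff hS e1 e2 (by omega : 0 ≤ l + j)).1 h
  exact ⟨j, F, x, e1, e2, e3, cfS_mono _ _ (by omega) _ _ _ h1⟩

theorem cfD_sc (hS : FracS ι) (i k n : ℤ) (f : L) (a : E) (h : CfD ι k n f a) :
    CfD ι (k + i) n (2 ^ i * f) (2 ^ i * a) := by
  obtain ⟨j, F, x, e0, e1, e2, e3⟩ := cfD_data hS k f a i.toNat
  have h1 := (cfD_iff hS e1 e2 e3).1 h
  have hj : (((j : ℤ) - i).toNat : ℤ) = j - i := Int.toNat_of_nonneg (by omega)
  have hk : k + i + (((j : ℤ) - i).toNat : ℤ) = k + j := by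
    rw [hj]
    ring
  have hL : (2 : L) ≠ 0 := hS.vr.two_ne
  have hE : (2 : E) ≠ 0 := hO.two_ne
  refine ⟨((j : ℤ) - i).toNat, F, x, ?_, ?_, ?_, ?_⟩
  · rw [← e1, ← mul_assoc, ← xcf_pow_z, ← zpow_add₀ hL, hj, ← xcf_pow_z j]
    congr 2
    ring
  · rw [e2, ← mul_assoc, ← xcf_pow_z ((j : ℤ) - i).toNat, ← zpow_add₀ hE, hj, ← xcf_pow_z j]
    congr 2
    ring
  · rw [hk]
    exact e3
  · have key : ∀ K : ℕ, K = (k + j).toNat → cfS K n F = mk2 O K x := by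
      rintro _ rfl
      exact h1
    exact key _ (by rw [hk])

end SingerBO
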