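import Mathlib
import Pool.Agent.Lib_MP_394d50_pb.XCf

/-!
# Piece PO-X1d: the coefficients of the quotients, second part (about 130 lines)

* `cfD_ga`: `Dv ι.range k f ↔ ∀ n, CfD ι k n f 0`. `cfD_data` for `(f, 0)`: `2 ^ j * f = ι F`, `x = 0`, `0 ≤ k + j`; `K = (k + j).toNat`. `CfD ι k n f 0 ↔
  cfS K n F = 0`; all of them iff `F.1 K = 0` (`cfS_ext`) iff `F = 2 ^ K * F'` (`ss_pow`) iff `2 ^ (-k) * f = ι F'` (`2 ^ j * f = 2 ^ (k + j) * ι F'`; `ι` injective;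
  `2 ≠ 0` in `L`: `hS.vr.two_ne`).
* `cfD_lb`: `cfS_lb`.
* `cfD_ml`: `0 ≤ k`, `f = ι F`, `g = ι F'`; the `a i` are in `O`: `Dv ι.range 0 f`, so `CfD ι 0 i f 0` (`cfD_ga`), and `CfD ι 0 i f (a i)` (`cfD_mo`), so
  `Dv O 0 (0 - a i)` (`cfD_cg`). With `j = 0`, `K = k.toNat`: `cfS K i F = mk2 O K (a i)` (`cfD_iff`), the same for `b`; `cfS_mul`: outside `I`
  `mk2 (a i * b (n - i)) = 0` since `Dv O k` (`mk2_eq_zero`). The sum is `mk2` of `∑ a i * b (n - i)` (`map_sum`, `map_mul`; coercions of `O`).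
-/

namespace SingerBO

open MN

variable {E L : Type} [DivisionRing E] [DivisionRing L] {O : Subring E} {hO : VR O}
  {ι : ST hO →+* L}

private theorem two_pow_toNat {D : Type} [DivisionRing D] {m : ℤ} (hm : 0 ≤ m) :
    (2 : D) ^ m.toNat = (2 : D) ^ m := by
  rw [← zpow_natCast, Int.toNat_of_nonneg hm]

private theorem cfD_zero_iff (hS : FracS ι) {k : ℤ} {f : L} {j : ℕ} {F : ST hO} {x : O}
    (h1 : 2 ^ j * f = ι F) (h2 : (x : E) = 2 ^ j * 0) (h3 : 0 ≤ k + j) (n : ℤ) :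
    CfD ι k n f 0 ↔ cfS (k + j).toNat n F = 0 := by
  have hx : x = 0 := by
    apply Subtype.ext
    rw [h2, mul_zero]
    rfl
  rw [cfD_iff hS h1 h2 h3, hx, map_zero]

theorem cfD_ga (hS : FracS ι) (k : ℤ) (f : L) : Dv ι.range k f ↔ ∀ n, CfD ι k n f 0 := by
  obtain ⟨j, F, x, -, h1, h2, h3⟩ := cfD_data hS k f 0 0
  have h20 : (2 : L) ≠ 0 := hS.vr.two_ne
  have hK : (2 : L) ^ (k + j).toNat = 2 ^ (k + j) := two_pow_toNat h3
  have e1 : (∀ n, CfD ι k n f 0) ↔ ∀ n, cfS (k + j).toNat n F = 0 :=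
    forall_congr' fun n => cfD_zero_iff hS h1 h2 h3 n
  rw [e1, ← cfS_ext, ss_pow]
  have hj : (2 : L) ^ j = 2 ^ (j : ℤ) := (zpow_natCast _ _).symm
  constructor
  · rintro ⟨g, hg⟩
    refine ⟨g, hS.inj ?_⟩
    rw [map_mul, map_pow, map_ofNat, ← h1, hg, hK, hj, ← mul_assoc, ← zpow_add₀ h20]
    congr 2
    ring
  · rintro ⟨g, hg⟩
    refine ⟨g, ?_⟩
    have h4 : 2 ^ (j : ℤ) * f = 2 ^ (k + j) * ι g := by
      rw [← hj, h1, hg, map_mul, map_pow, map_ofNat, hK]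
    have h5 : f = 2 ^ k * ι g := by
      have h6 : f = 2 ^ (-(j : ℤ)) * (2 ^ (j : ℤ) * f) := by
        rw [← mul_assoc, ← zpow_add₀ h20, neg_add_cancel, zpow_zero, one_mul]
      rw [h6, h4, ← mul_assoc, ← zpow_add₀ h20]
      congr 2
      ring
    rw [h5, ← mul_assoc, ← zpow_add₀ h20, neg_add_cancel, zpow_zero, one_mul]

theorem cfD_lb (hS : FracS ι) (k : ℤ) (f : L) : ∃ l, ∀ n < l, CfD ι k n f 0 := by
  obtain ⟨j, F, x, -, h1, h2, h3⟩ := cfD_data hS k f 0 0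
  obtain ⟨l, hl⟩ := cfS_lb (k + j).toNat F
  exact ⟨l, fun n hn => (cfD_zero_iff hS h1 h2 h3 n).mpr (hl n hn)⟩

private theorem mem_of_cfD (hS : FracS ι) {k : ℤ} {f : L} {a : ℤ → E} (hk : 0 ≤ k)
    (hf : f ∈ ι.range) (ha : ∀ i, CfD ι k i f (a i)) (i : ℤ) : a i ∈ O := by
  have h0 : CfD ι 0 i f 0 := (cfD_ga hS 0 f).mp ((dv_iff_mem f).mpr hf) i
  have h1 : CfD ι 0 i f (a i) := cfD_mo hS 0 k i f (a i) hk (ha i)
  have h2 := (dv_iff_mem _).mp ((cfD_cg hS 0 i f 0 (a i) h0).mp h1)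
  rw [zero_sub] at h2
  exact neg_mem_iff.mp h2

theorem cfD_ml (hS : FracS ι) (k n : ℤ) (f g : L) (a b : ℤ → E) (I : Finset ℤ) (hk : 0 ≤ k)
    (hf : f ∈ ι.range) (hg : g ∈ ι.range) (ha : ∀ i, CfD ι k i f (a i))
    (hb : ∀ i, CfD ι k i g (b i)) (hI : ∀ i, i ∉ I → Dv O k (a i * b (n - i))) :
    CfD ι k n (f * g) (∑ i ∈ I, a i * b (n - i)) := by
  have h20 : (2 : E) ≠ 0 := hO.two_ne
  have haO := mem_of_cfD hS hk hf ha
  have hbO := mem_of_cfD hS hk hg hb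
  obtain ⟨F, hF⟩ := hf
  obtain ⟨F', hF'⟩ := hg
  have h3 : 0 ≤ k + (0 : ℕ) := by simpa using hk
  have cA : ∀ i, cfS (k + (0 : ℕ)).toNat i F = mk2 O (k + (0 : ℕ)).toNat ⟨a i, haO i⟩ := fun i =>
    (cfD_iff hS (by rw [pow_zero, one_mul, hF]) (by rw [pow_zero, one_mul]) h3).mp (ha i)
  have cB : ∀ i, cfS (k + (0 : ℕ)).toNat i F' = mk2 O (k + (0 : ℕ)).toNat ⟨b i, hbO i⟩ := fun i =>
    (cfD_iff hS (by rw [pow_zero, one_mul, hF']) (by rw [pow_zero, one_mul]) h3).mp (hb i)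
  refine (cfD_iff hS (j := 0) (F := F * F')
    (x := ∑ i ∈ I, (⟨a i, haO i⟩ : O) * ⟨b (n - i), hbO (n - i)⟩)
    (by rw [pow_zero, one_mul, map_mul, hF, hF']) ?_ h3).mpr ?_
  · rw [pow_zero, one_mul, AddSubmonoidClass.coe_finsetSum]
    rfl
  · rw [cfS_mul _ n F F' I, map_sum]
    · refine Finset.sum_congr rfl fun i _ => ?_
      rw [cA, cB, map_mul]
    · intro i hi
      rw [cA, cB, ← map_mul, mk2_eq_zero]
      refine ⟨⟨_, hI i hi⟩, Subtype.ext ?_⟩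
      show a i * b (n - i) = ((2 ^ (k + (0 : ℕ)).toNat : O) : E) * (2 ^ (-k) * (a i * b (n - i)))
      have h4 : ((2 ^ (k + (0 : ℕ)).toNat : O) : E) = 2 ^ k := by
        rw [SubmonoidClass.coe_pow]
        show (2 : E) ^ _ = _
        rw [two_pow_toNat h3]
        simp
      rw [h4, ← mul_assoc, ← zpow_add₀ h20, add_neg_cancel, zpow_zero, one_mul]

end SingerBO
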