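import Mathlib
import Pool.Agent.Lib_MP_394d50_pb.XCf2

/-!
# Piece PO-X1e: the homogeneous series (about 130 lines)

* `zS` is additive (`zS_add`: componentwise `single_add`, `map_add`), `zS m x * zS n y = zS (m + n) (x * y)` (`ssS_mul`), `zS 0 1 = 1` (`ssS_one`),
  `zS n (2 ^ i * x) = 2 ^ i * zS n x` (induction from additivity).
* `exists_lam`: for `a : E` choose `j a : ℕ` with `2 ^ (j a) * a ∈ O` (`exists_dv`), and `Λ n a = 2 ^ (-(j a)) * ι (zS n ⟨2 ^ (j a) * a, _⟩)`. Then for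
  EVERY `j : ℕ` and `x : O` with `x = 2 ^ j * a`: `2 ^ j * Λ n a = ι (zS n x)` (multiply by `2 ^ (j + j a)`, cancel). Uniqueness: `2 ^ j * y = ι (..)`
  determines `y` (`2 ≠ 0` in `L`).
* `la`, `lm`, `lo`: multiply by a common large power of `2` (`2 ^ j` is central: `two_zpow_comm` or `Commute.ofNat_left`).
* `cfD_cl`: `j` large, `cfD_iff` with `F = zS m x`, `cfS_zS`; for `n ≠ m` the value is `0 = 2 ^ j * 0`.
* `exists_lv`: `exists_frac (gr_top hO)`, `OL = ι.range`, `Cf = CfD ι`.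
-/

namespace SingerBO

open MN

variable {E L : Type} [DivisionRing E] [DivisionRing L] {O : Subring E} {hO : VR O}
  {ι : ST hO →+* L}

private theorem xl_zS_add (n : ℤ) (x y : O) : zS hO n (x + y) = zS hO n x + zS hO n y := by
  refine Subtype.ext (funext fun k => ?_)
  show single (Multiplicative.ofAdd n) (mk2 O k (x + y)) =
    single (Multiplicative.ofAdd n) (mk2 O k x) + single (Multiplicative.ofAdd n) (mk2 O k y)
  rw [map_add, single_add]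

private theorem xl_zS_mul (m n : ℤ) (x y : O) : zS hO m x * zS hO n y = zS hO (m + n) (x * y) :=
  ssS_mul (gr_top hO) (AddSubgroup.mem_top x) (AddSubgroup.mem_top y)

private theorem xl_zS_one : zS hO 0 1 = 1 := ssS_one (gr_top hO)

private theorem xl_zS_pow (n : ℤ) (x : O) (i : ℕ) : zS hO n (2 ^ i * x) = 2 ^ i * zS hO n x := by
  induction i with
  | zero => rw [pow_zero, pow_zero, one_mul, one_mul]
  | succ i ih =>
    rw [pow_succ', pow_succ', mul_assoc, mul_assoc, two_mul, two_mul, xl_zS_add, ih]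

private theorem xl_ι_pow (n : ℤ) (x : O) (i : ℕ) :
    ι (zS hO n (2 ^ i * x)) = 2 ^ i * ι (zS hO n x) := by
  rw [xl_zS_pow, map_mul, map_pow, map_ofNat]

private theorem xl_ne (hS : FracS ι) (i : ℕ) : (2 : L) ^ i ≠ 0 := pow_ne_zero _ hS.vr.two_ne

theorem exists_lam (hS : FracS ι) : ∃ Λ : ℤ → E → L,
    ∀ n a (j : ℕ) (x : O), (x : E) = 2 ^ j * a → 2 ^ j * Λ n a = ι (zS hO n x) := by
  have h1 : ∀ a : E, ∃ (j : ℕ) (x : O), (x : E) = 2 ^ j * a := by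
    intro a
    obtain ⟨j, -, x, -, -, hx, -⟩ := cfD_data hS 0 (0 : L) a 0
    exact ⟨j, x, hx⟩
  choose J X hJ using h1
  refine ⟨fun n a => (2 ^ J a)⁻¹ * ι (zS hO n (X a)), ?_⟩
  intro n a j x hx
  apply mul_left_cancel₀ (xl_ne hS (J a))
  have h2 : (2 : L) ^ J a * (2 ^ j * ((2 ^ J a)⁻¹ * ι (zS hO n (X a)))) = 2 ^ j * ι (zS hO n (X a)) := by
    rw [← mul_assoc, ← pow_add, add_comm, pow_add, mul_assoc,
      mul_inv_cancel_left₀ (xl_ne hS (J a))]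
  rw [h2, ← xl_ι_pow, ← xl_ι_pow]
  congr 2
  apply Subtype.ext
  show (2 : E) ^ j * (X a : E) = 2 ^ J a * (x : E)
  rw [hx, hJ a, ← mul_assoc, ← mul_assoc, ← pow_add, ← pow_add, add_comm]

theorem lam_la (hS : FracS ι) {Λ : ℤ → E → L}
    (hΛ : ∀ n a (j : ℕ) (x : O), (x : E) = 2 ^ j * a → 2 ^ j * Λ n a = ι (zS hO n x)) (n : ℤ)
    (a b : E) : Λ n (a + b) = Λ n a + Λ n b := by
  obtain ⟨j, -, -, x, y, -, -, -, hx, hy, -⟩ := cfD_data2 hS 0 (0 : L) 0 a b 0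
  apply mul_left_cancel₀ (xl_ne hS j)
  have h1 : ((x + y : O) : E) = 2 ^ j * (a + b) := by
    push_cast
    rw [hx, hy, mul_add]
  rw [hΛ n (a + b) j (x + y) h1, xl_zS_add, map_add, mul_add, hΛ n a j x hx, hΛ n b j y hy]

theorem lam_lm (hS : FracS ι) {Λ : ℤ → E → L}
    (hΛ : ∀ n a (j : ℕ) (x : O), (x : E) = 2 ^ j * a → 2 ^ j * Λ n a = ι (zS hO n x)) (m n : ℤ)
    (a b : E) : Λ m a * Λ n b = Λ (m + n) (a * b) := by
  obtain ⟨j, -, -, x, y, -, -, -, hx, hy, -⟩ := cfD_data2 hS 0 (0 : L) 0 a b 0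
  apply mul_left_cancel₀ (xl_ne hS (j + j))
  have h1 : ((x * y : O) : E) = 2 ^ (j + j) * (a * b) := by
    push_cast
    rw [hx, hy, pow_add, mul_assoc, mul_assoc, ← mul_assoc a, ← two_pow_comm' j a, mul_assoc]
  rw [hΛ (m + n) (a * b) (j + j) (x * y) h1, ← xl_zS_mul, map_mul, ← hΛ m a j x hx,
    ← hΛ n b j y hy, pow_add, mul_assoc, mul_assoc, ← mul_assoc (Λ m a), ← two_pow_comm' j (Λ m a),
    mul_assoc]

theorem lam_lo (hS : FracS ι) {Λ : ℤ → E → L}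
    (hΛ : ∀ n a (j : ℕ) (x : O), (x : E) = 2 ^ j * a → 2 ^ j * Λ n a = ι (zS hO n x)) :
    Λ 0 1 = 1 := by
  have h1 := hΛ 0 1 0 1 (by rw [pow_zero, one_mul]; rfl)
  rwa [pow_zero, one_mul, xl_zS_one, map_one] at h1

theorem cfD_cl (hS : FracS ι) {Λ : ℤ → E → L}
    (hΛ : ∀ n a (j : ℕ) (x : O), (x : E) = 2 ^ j * a → 2 ^ j * Λ n a = ι (zS hO n x))
    (k m n : ℤ) (a : E) : CfD ι k n (Λ m a) (if n = m then a else 0) := by
  obtain ⟨j, -, x, -, -, hx, hk⟩ := cfD_data hS k (0 : L) a 0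
  by_cases h : n = m
  · rw [if_pos h]
    exact ⟨j, zS hO m x, x, hΛ m a j x hx, hx, hk, by rw [cfS_zS, if_pos h]⟩
  · rw [if_neg h]
    refine ⟨j, zS hO m x, 0, hΛ m a j x hx, ?_, hk, by rw [cfS_zS, if_neg h, map_zero]⟩
    rw [mul_zero]
    rfl

end SingerBO
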