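import Mathlib
import Pool.Agent.Lib_MP_394d50_pb.XLam

/-!
# Existence of the 2-adic Laurent series
-/

namespace SingerBO

open MN

theorem exists_lv {E : Type} [DivisionRing E] {O : Subring E} (hO : VR O) :
    ∃ (L : Type) (_ : DivisionRing L) (OL : Subring L) (Λ : ℤ → E → L)
      (Cf : ℤ → ℤ → L → E → Prop), LV O OL Λ Cf := by
  obtain ⟨L, iL, ι, h1, h2, h3⟩ := exists_frac (gr_top hO)
  have hS : FracS (hO := hO) ι := ⟨h1, h2, h3⟩
  obtain ⟨Λ, hΛ⟩ := exists_lam hS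
  exact ⟨L, iL, ι.range, Λ, CfD ι, {
    vr := h2
    la := lam_la hS hΛ
    lm := lam_lm hS hΛ
    lo := lam_lo hS hΛ
    ex := cfD_ex hS
    cg := cfD_cg hS
    ad := cfD_ad hS
    mo := cfD_mo hS
    sc := cfD_sc hS
    cl := cfD_cl hS hΛ
    ga := cfD_ga hS
    lb := cfD_lb hS
    ml := cfD_ml hS }⟩

end SingerBO
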