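import Mathlib
import Pool.Agent.Lib_MP_394d50_pb.KMain
import Pool.Agent.Lib_MP_394d50_pb.UBase
import Pool.Agent.Lib_MP_394d50_pb.XMake

/-!
# Piece PO-U2a: uniqueness of the valuation (about 90 lines)

* `eqv`: strong induction on `p.cx` (`induction h : p.cx using WellFoundedLT.induction generalizing p`, or `Ordinal.induction`).
  `H = PE.clo [p]`. If `H = ⊥`: `eqv_bot` (`PE.in_clo`). Otherwise `hLI` gives `N`, `χ`, `s`; `exists_lv` for both, `theta2_exists` for both; `p` is
  not in `N` (`PE.exists_not_in`). For `k`: `Dv O k (p.val t) ↔ Dv OL k (θ _)` (`Th2.val`, `PE.val_mem`) `↔ ∀ n, Cf k n (θ _) 0` (`ga`); for every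
  `n` take the pair `(a, a')` of `kl2 k n`: `Cf k n (θ _) 0 ↔ Dv O k a ↔ Dv O' k a' ↔ Cf' k n (θ' _) 0` (`cf_zero_iff`, `hm2_dv`).
-/

namespace SingerBO

variable {G E E' : Type} [Group G] [DivisionRing E] [DivisionRing E'] {O : Subring E}
  {O' : Subring E'} {t : G →* Eˣ} {t' : G →* E'ˣ}

/-- **Uniqueness.** The valuation of the value of an expression does not depend on the valued free embedding. -/
theorem eqv (hR : VR O) (hR' : VR O') (hF : VFE O t) (hF' : VFE O' t') (hLI : LocInd G)
    (p : PE G) : EqV O O' t t' p := by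
  induction h : p.cx using WellFoundedLT.induction generalizing p with
  | ind c ih =>
    by_cases hb : PE.clo [p] = ⊥
    · refine eqv_bot hR hR' t t' ?_
      rw [← hb]
      exact PE.in_clo List.mem_cons_self
    · obtain ⟨N, χ, s, hc⟩ := hLI (PE.clo [p]) (PE.clo_fg [p]) hb
      obtain ⟨L, iL, OL, Λ, Cf, hL⟩ := exists_lv hR
      obtain ⟨L', iL', OL', Λ', Cf', hL'⟩ := exists_lv hR'
      obtain ⟨θ, hθ⟩ := theta2_exists hR hF hL hc
      obtain ⟨θ', hθ'⟩ := theta2_exists hR' hF' hL' hc
      have hp : p.In (PE.clo [p]) := PE.in_clo List.mem_cons_self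
      have hn : ¬ p.In N := by
        obtain ⟨q, hq, hqn⟩ := PE.exists_not_in hc
        rw [List.mem_singleton] at hq
        rwa [hq] at hqn
      have hE : ∀ q : PE G, q.cx < p.cx → EqV O O' t t' q := fun q hq =>
        ih q.cx (by rw [← h]; exact hq) q rfl
      intro k
      have h1 := hθ.val (p.val t) (PE.val_mem t hp) k
      have h2 := hθ'.val (p.val t') (PE.val_mem t' hp) k
      rw [← h1, ← h2, hL.ga, hL'.ga]
      refine forall_congr' fun n => ?_
      obtain ⟨a, a', hm, ha, ha'⟩ := kl2 hR hR' hF hF' hL hL' hc hθ hθ' p hp hn hE k n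
      rw [cf_zero_iff hR hL ha, cf_zero_iff hR' hL' ha']
      exact hm2_dv hR hR' hF hF' (fun q _ hq => hE q hq) hm k

end SingerBO
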