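import Mathlib
import Pool.Agent.Lib_MP_394d50_pb.UEqv

/-!
# Piece PO-U2b: the isomorphism (about 120 lines)

* `exists_hom`: every `x` is `p.val t` for some `p` (`exists_rep_left ⊤`: `x = t γ * q.val t = (PE.add PE.zero γ q).val t`); choose `p x` and let
  `φ x = (p x).val t'`. If `p.val t = q.val t` then `p.val t' = q.val t'`: `eqv` for `PE.add p 1 (PE.neg q)`, whose value is
  `p.val - q.val` (`eq_zero_of_dv`, `dv_zero`). So `φ (p.val t) = p.val t'` for all `p`, and `φ` is a ring homomorphism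
  (`PE.add p 1 q`, `PE.mul p q`, `PE.zero`, `PE.one`), `φ (t g) = t' g` (`PE.add PE.zero g PE.one`). `φ x ∈ O' ↔ x ∈ O`: `eqv` for `k = 0`, `dv_iff_mem`.
* `hom_unique`: two ring homomorphisms which agree on the `t g` agree on `DH t ⊤` (`Subfield.closure_induction`, `map_inv₀`).
-/

namespace SingerBO

variable {G E E' : Type} [Group G] [DivisionRing E] [DivisionRing E'] {O : Subring E}
  {O' : Subring E'} {t : G →* Eˣ} {t' : G →* E'ˣ}

theorem exists_hom (hR : VR O) (hR' : VR O') (hF : VFE O t) (hF' : VFE O' t') (hLI : LocInd G)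
    (hg : ∀ x : E, x ∈ DH t ⊤) :
    ∃ φ : E →+* E', (∀ g, φ ((t g : Eˣ) : E) = ((t' g : E'ˣ) : E')) ∧ ∀ x, φ x ∈ O' ↔ x ∈ O := by
  have hex : ∀ x : E, ∃ p : PE G, p.val t = x := by
    intro x
    obtain ⟨γ, _, q, _, hx⟩ := exists_rep_left ⊤ (hg x)
    refine ⟨PE.add PE.zero γ q, ?_⟩
    show (0 : E) + ((t γ : Eˣ) : E) * q.val t = x
    rw [zero_add, hx]
  choose P hP using hex
  have heq : ∀ p q : PE G, p.val t = q.val t → p.val t' = q.val t' := by
    intro p q h
    have h1 : (PE.add p 1 (PE.neg q)).val t = 0 := by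
      show p.val t + ((t 1 : Eˣ) : E) * (- q.val t) = 0
      rw [map_one, Units.val_one, one_mul, h, add_neg_cancel]
    have h2 : ∀ k, Dv O' k ((PE.add p 1 (PE.neg q)).val t') := fun k =>
      (eqv hR hR' hF hF' hLI (PE.add p 1 (PE.neg q)) k).1 (by rw [h1]; exact dv_zero k)
    have h3 : p.val t' + ((t' 1 : E'ˣ) : E') * (- q.val t') = 0 := eq_zero_of_dv hR' h2
    rw [map_one, Units.val_one, one_mul] at h3
    exact eq_of_sub_eq_zero (by rw [sub_eq_add_neg]; exact h3)
  have hone : (P 1).val t' = 1 := heq (P 1) PE.one (by rw [hP]; rfl)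
  have hzero : (P 0).val t' = 0 := heq (P 0) PE.zero (by rw [hP]; rfl)
  have hmul : ∀ x y : E, (P (x * y)).val t' = (P x).val t' * (P y).val t' := fun x y =>
    heq (P (x * y)) (PE.mul (P x) (P y)) (by
      rw [hP]
      show x * y = (P x).val t * (P y).val t
      rw [hP, hP])
  have hadd : ∀ x y : E, (P (x + y)).val t' = (P x).val t' + (P y).val t' := fun x y => by
    have h := heq (P (x + y)) (PE.add (P x) 1 (P y)) (by
      rw [hP]
      show x + y = (P x).val t + ((t 1 : Eˣ) : E) * (P y).val t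
      rw [hP, hP, map_one, Units.val_one, one_mul])
    rw [h]
    show (P x).val t' + ((t' 1 : E'ˣ) : E') * (P y).val t' = (P x).val t' + (P y).val t'
    rw [map_one, Units.val_one, one_mul]
  refine ⟨{ toFun := fun x => (P x).val t', map_one' := hone, map_mul' := hmul, map_zero' := hzero,
            map_add' := hadd }, fun g => ?_, fun x => ?_⟩
  · have h := heq (P ((t g : Eˣ) : E)) (PE.add PE.zero g PE.one) (by
      rw [hP]
      show ((t g : Eˣ) : E) = (0 : E) + ((t g : Eˣ) : E) * 1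
      rw [zero_add, mul_one])
    show (P ((t g : Eˣ) : E)).val t' = ((t' g : E'ˣ) : E')
    rw [h]
    show (0 : E') + ((t' g : E'ˣ) : E') * 1 = ((t' g : E'ˣ) : E')
    rw [zero_add, mul_one]
  · show (P x).val t' ∈ O' ↔ x ∈ O
    have h := eqv hR hR' hF hF' hLI (P x) 0
    rw [hP, dv_iff_mem, dv_iff_mem] at h
    exact h.symm

theorem hom_unique (hg : ∀ x : E, x ∈ DH t ⊤) (φ ψ : E →+* E')
    (h : ∀ g, φ ((t g : Eˣ) : E) = ψ ((t g : Eˣ) : E)) (x : E) : φ x = ψ x := by
  have hx := hg x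
  unfold DH at hx
  induction hx using Subfield.closure_induction with
  | mem x hx =>
    obtain ⟨g, _, rfl⟩ := hx
    exact h g
  | one => rw [map_one, map_one]
  | add x y _ _ hx hy => rw [map_add, map_add, hx, hy]
  | neg x _ hx => rw [map_neg, map_neg, hx]
  | inv x _ hx => rw [map_inv₀, map_inv₀, hx]
  | mul x y _ _ hx hy => rw [map_mul, map_mul, hx, hy]

end SingerBO
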