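import Mathlib
import Pool.Agent.Lib_MP_394d50_pb.VFree
import Pool.Agent.Lib_MP_394d50_pb.WFrac

/-!
# MP_394d50_gt, poly-(bi-orderable) groups: twisted coefficients for a group extension (definitions)

`f : G →* V`, `N = f.ker`, `t : N →* Eˣ` a valued free embedding, `α g` automorphisms of `E` with `α g (t n) = t (g n g⁻¹)`. `MM` is
the group of the functions `m : G → O` with `m (n x) = t n * m x`; `(ee a g m) x = α x a * m (x g)` for `a ∈ O`.
-/

namespace SingerBO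

/-- The action of `G` on the coefficients. -/
structure Tw {G E : Type} [Group G] [DivisionRing E] {N : Subgroup G} [N.Normal] (O : Subring E)
    (t : N →* Eˣ) (α : G → E →+* E) : Prop where
  mul : ∀ g h x, α (g * h) x = α g (α h x)
  one : ∀ x, α 1 x = x
  grp : ∀ g (n : N), α g ((t n : Eˣ) : E) = ((t (MulAut.conjNormal g n) : Eˣ) : E)
  ker : ∀ (n : N) x, α n x = ((t n : Eˣ) : E) * x * (((t n)⁻¹ : Eˣ) : E)
  mem : ∀ g x, x ∈ O → α g x ∈ O

section

variable {G E : Type} [Group G] [DivisionRing E] {N : Subgroup G} [N.Normal]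

/-- The functions `m : G → O` with `m (n x) = t n * m x`. -/
def MM (O : Subring E) (t : N →* Eˣ) : AddSubgroup (G → E) where
  carrier := {m | (∀ x, m x ∈ O) ∧ ∀ (n : N) (x : G), m (n * x) = ((t n : Eˣ) : E) * m x}
  add_mem' := by
    rintro a b ⟨ha1, ha2⟩ ⟨hb1, hb2⟩
    refine ⟨fun x => O.add_mem (ha1 x) (hb1 x), fun n x => ?_⟩
    show a (n * x) + b (n * x) = _ * (a x + b x)
    rw [ha2, hb2, mul_add]
  zero_mem' := ⟨fun _ => O.zero_mem, fun _ _ => (mul_zero _).symm⟩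
  neg_mem' := by
    rintro a ⟨ha1, ha2⟩
    refine ⟨fun x => O.neg_mem (ha1 x), fun n x => ?_⟩
    show - a (n * x) = _ * (- a x)
    rw [ha2, mul_neg]

theorem unit_cancel (u : Eˣ) (x : E) : ((u⁻¹ : Eˣ) : E) * (((u : Eˣ) : E) * x) = x := by
  rw [← mul_assoc, Units.inv_mul, one_mul]

variable {O : Subring E} {t : N →* Eˣ} {α : G → E →+* E}

/-- The operator `a g`. -/
def ee (hT : Tw O t α) (a : O) (g : G) : AddMonoid.End (MM O t) where
  toFun m := ⟨fun x => α x a * m.1 (x * g), fun x => O.mul_mem (hT.mem x _ a.2) (m.2.1 _), by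
    intro n x
    show α (n * x) a * m.1 (n * x * g) = ((t n : Eˣ) : E) * (α x a * m.1 (x * g))
    rw [hT.mul, hT.ker, mul_assoc (n : G) x g, m.2.2 n (x * g)]
    rw [mul_assoc, mul_assoc, unit_cancel]⟩
  map_zero' := Subtype.ext (funext fun x => by
    show α x a * 0 = 0
    rw [mul_zero])
  map_add' m m' := Subtype.ext (funext fun x => by
    show α x a * (m.1 (x * g) + m'.1 (x * g)) = α x a * m.1 (x * g) + α x a * m'.1 (x * g)
    rw [mul_add])

theorem ee_apply (hT : Tw O t α) (a : O) (g : G) (m : MM O t) (x : G) :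
    (ee hT a g m).1 x = α x a * m.1 (x * g) := rfl

theorem ee_ext {r r' : AddMonoid.End (MM O t)} (h : ∀ m x, (r m).1 x = (r' m).1 x) : r = r' :=
  AddMonoidHom.ext fun m => Subtype.ext (funext fun x => h m x)

theorem ee_mul (hT : Tw O t α) (a b : O) (g h : G) :
    ee hT a g * ee hT b h = ee hT (a * ⟨α g b, hT.mem g _ b.2⟩) (g * h) := by
  refine ee_ext fun m x => ?_
  show α x a * (α (x * g) b * m.1 (x * g * h)) = α x (a * α g b) * m.1 (x * (g * h))
  rw [map_mul, hT.mul, mul_assoc x g h, mul_assoc (α x (a : E))]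

theorem ee_add (hT : Tw O t α) (a b : O) (g : G) :
    ee hT a g + ee hT b g = ee hT (a + b) g := by
  refine ee_ext fun m x => ?_
  show α x a * m.1 (x * g) + α x b * m.1 (x * g) = α x ((a : E) + b) * m.1 (x * g)
  rw [map_add, add_mul]

theorem ee_neg (hT : Tw O t α) (a : O) (g : G) : - ee hT a g = ee hT (-a) g := by
  refine ee_ext fun m x => ?_
  show -(α x a * m.1 (x * g)) = α x (-(a : E)) * m.1 (x * g)
  rw [map_neg, neg_mul]

theorem ee_zero (hT : Tw O t α) (g : G) : ee hT 0 g = 0 := by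
  refine ee_ext fun m x => ?_
  show α x 0 * m.1 (x * g) = 0
  rw [map_zero, zero_mul]

theorem ee_one (hT : Tw O t α) : ee hT 1 1 = 1 := by
  refine ee_ext fun m x => ?_
  show α x 1 * m.1 (x * 1) = m.1 x
  rw [map_one, one_mul, mul_one]

/-- `a (n g) = (a t n) g`. -/
theorem ee_ker (hT : Tw O t α) (a : O) (n : N) (g : G) (hn : ((t n : Eˣ) : E) ∈ O) :
    ee hT a (n * g) = ee hT (a * ⟨((t n : Eˣ) : E), hn⟩) g := by
  refine ee_ext fun m x => ?_
  show α x a * m.1 (x * (n * g)) = α x ((a : E) * ((t n : Eˣ) : E)) * m.1 (x * g)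
  have e : x * (n * g) = ((MulAut.conjNormal x n : N) : G) * (x * g) := by
    rw [MulAut.conjNormal_apply]
    group
  rw [e, m.2.2, map_mul, hT.grp, mul_assoc]

end

/-! ## The graded families -/

section

variable {G V E : Type} [Group G] [Group V] (f : G →* V) [DivisionRing E] {O : Subring E}
  {t : f.ker →* Eˣ} {α : G → E →+* E}

/-- The homogeneous operators `a h`, `h ∈ H`, `f h = v`, `a` integral in the division ring generated by `H ∩ N`. -/
def GA (hT : Tw O t α) (hm : ∀ n, ((t n : Eˣ) : E) ∈ O) (H : Subgroup G) (v : V) :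
    AddSubgroup (AddMonoid.End (MM O t)) where
  carrier := {r | r = 0 ∨ ∃ a : O, (a : E) ∈ DH t (H.subgroupOf f.ker) ∧ ∃ h ∈ H, f h = v ∧
    r = ee hT a h}
  zero_mem' := Or.inl rfl
  neg_mem' := by
    rintro r (rfl | ⟨a, ha, h, hh, hv, rfl⟩)
    · exact Or.inl neg_zero
    · exact Or.inr ⟨-a, neg_mem ha, h, hh, hv, ee_neg hT a h⟩
  add_mem' := by
    rintro r r' (rfl | ⟨a, ha, h, hh, hv, rfl⟩) (rfl | ⟨b, hb, h', hh', hv', rfl⟩)
    · exact Or.inl (add_zero 0)
    · rw [zero_add]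
      exact Or.inr ⟨b, hb, h', hh', hv', rfl⟩
    · rw [add_zero]
      exact Or.inr ⟨a, ha, h, hh, hv, rfl⟩
    · have hk : h' * h⁻¹ ∈ f.ker := by
        rw [MonoidHom.mem_ker, map_mul, map_inv, hv, hv', mul_inv_cancel]
      have e : ee hT b h' = ee hT (b * ⟨((t ⟨h' * h⁻¹, hk⟩ : Eˣ) : E), hm _⟩) h := by
        rw [← ee_ker hT b ⟨h' * h⁻¹, hk⟩ h (hm _)]
        show ee hT b h' = ee hT b (h' * h⁻¹ * h)
        rw [inv_mul_cancel_right]
      refine Or.inr ⟨a + b * ⟨((t ⟨h' * h⁻¹, hk⟩ : Eˣ) : E), hm _⟩, ?_, h, hh, hv, ?_⟩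
      · refine add_mem ha (mul_mem hb (mem_DH t ?_))
        rw [Subgroup.mem_subgroupOf]
        exact H.mul_mem hh' (H.inv_mem hh)
      · rw [e, ee_add]

theorem mem_GA {hT : Tw O t α} {hm : ∀ n, ((t n : Eˣ) : E) ∈ O} {H : Subgroup G} {v : V}
    {r : AddMonoid.End (MM O t)} : r ∈ GA f hT hm H v ↔ r = 0 ∨ ∃ a : O,
      (a : E) ∈ DH t (H.subgroupOf f.ker) ∧ ∃ h ∈ H, f h = v ∧ r = ee hT a h := Iff.rfl

theorem GA_mono (hT : Tw O t α) (hm : ∀ n, ((t n : Eˣ) : E) ∈ O) {H K : Subgroup G} (h : H ≤ K)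
    (v : V) : GA f hT hm H v ≤ GA f hT hm K v := by
  rintro r (rfl | ⟨a, ha, h', hh', hv, rfl⟩)
  · exact zero_mem _
  · exact Or.inr ⟨a, DH_mono t (fun x hx => h hx) ha, h', h hh', hv, rfl⟩

theorem ee_mem_GA (hT : Tw O t α) (hm : ∀ n, ((t n : Eˣ) : E) ∈ O) {H : Subgroup G} {g : G}
    (hg : g ∈ H) : ee hT 1 g ∈ GA f hT hm H (f g) :=
  Or.inr ⟨1, one_mem _, g, hg, rfl, rfl⟩

end

end SingerBO
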