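import Mathlib
import Pool.Agent.Lib_MP_394d50_pb.EDefs

/-!
# Piece PO-E1a: operators divisible by 2 (about 110 lines)

* `ee_two`: (←) `a = 2 * b`, `b = 2⁻¹ a ∈ O` (`Dv O 1 a` is `2 ^ (-1) * a ∈ O`), `ee a g = 2 * ee b g` (check on `m`, `x`:
  `(2 * y) m = y m + y m`, `two_mul`). (→) `ee a g = 2 * y`: take the function `m₁` with `m₁ x = t (x g⁻¹)` if `x g⁻¹ ∈ N` and `0` otherwise
  (`exists_fun`); at `x = 1`: `α 1 a * m₁ g = a`, so `a = 2 * (y m₁) 1`, `(y m₁) 1 ∈ O`.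
* `ee_tf`: `2 * y = 0` gives `2 * (y m) x = 0` in `E`, `2 ≠ 0` (`VR.two_ne`). `ee_nt`: `1 = ee 1 1` (`ee_one`), `ee_two`, `not_dv_one`.
* `exists_fun`: `t (y x g⁻¹) = t y * t (x g⁻¹)` for `y ∈ N`; `y x g⁻¹ ∈ N ↔ x g⁻¹ ∈ N`.
-/

namespace SingerBO

variable {G E : Type} [Group G] [DivisionRing E] {N : Subgroup G} [N.Normal] {O : Subring E}
  {t : N →* Eˣ} {α : G → E →+* E}

/-- a function in `MM O t` with the value `1` at `g` -/
theorem exists_fun (hm : ∀ n, ((t n : Eˣ) : E) ∈ O) (g : G) : ∃ m : MM O t, m.1 g = 1 := by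
  classical
  refine ⟨⟨fun x => if h : x * g⁻¹ ∈ N then ((t ⟨x * g⁻¹, h⟩ : Eˣ) : E) else 0, ?_, ?_⟩, ?_⟩
  · intro x
    beta_reduce
    split_ifs with h
    · exact hm _
    · exact O.zero_mem
  · intro n x
    have hiff : (n : G) * x * g⁻¹ ∈ N ↔ x * g⁻¹ ∈ N := by
      rw [mul_assoc]
      exact Subgroup.mul_mem_cancel_left N n.2
    beta_reduce
    by_cases h : x * g⁻¹ ∈ N
    · have h' : (n : G) * x * g⁻¹ ∈ N := hiff.2 h
      rw [dif_pos h, dif_pos h']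
      have e : (⟨(n : G) * x * g⁻¹, h'⟩ : N) = n * ⟨x * g⁻¹, h⟩ :=
        Subtype.ext (mul_assoc _ _ _)
      rw [e, map_mul, Units.val_mul]
    · have h' : ¬ (n : G) * x * g⁻¹ ∈ N := fun h1 => h (hiff.1 h1)
      rw [dif_neg h, dif_neg h', mul_zero]
  · have h : g * g⁻¹ ∈ N := by
      rw [mul_inv_cancel]
      exact N.one_mem
    show (if h : g * g⁻¹ ∈ N then ((t ⟨g * g⁻¹, h⟩ : Eˣ) : E) else 0) = 1
    rw [dif_pos h]
    have e : (⟨g * g⁻¹, h⟩ : N) = 1 := Subtype.ext (mul_inv_cancel g)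
    rw [e, map_one, Units.val_one]

private theorem two_mul_apply_egr1 (y : AddMonoid.End (MM O t)) (m : MM O t) (x : G) :
    ((2 * y) m).1 x = 2 * (y m).1 x := by
  rw [two_mul y, two_mul]
  rfl

theorem ee_two (hR : VR O) (hT : Tw O t α) (hm : ∀ n, ((t n : Eˣ) : E) ∈ O) (a : O) (g : G) :
    (∃ y : AddMonoid.End (MM O t), ee hT a g = 2 * y) ↔ Dv O 1 (a : E) := by
  constructor
  · rintro ⟨y, hy⟩
    obtain ⟨m, hm1⟩ := exists_fun (O := O) (t := t) hm g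
    have h1 : (ee hT a g m).1 1 = (a : E) := by
      rw [ee_apply, hT.one, one_mul, hm1, mul_one]
    rw [hy, two_mul_apply_egr1] at h1
    unfold Dv
    rw [← h1, ← mul_assoc, zpow_neg_one, inv_mul_cancel₀ hR.two_ne, one_mul]
    exact (y m).2.1 1
  · intro h
    refine ⟨ee hT ⟨2 ^ (-1 : ℤ) * (a : E), h⟩ g, ?_⟩
    rw [two_mul, ee_add]
    congr 1
    refine Subtype.ext ?_
    show (a : E) = 2 ^ (-1 : ℤ) * (a : E) + 2 ^ (-1 : ℤ) * (a : E)
    rw [← two_mul, ← mul_assoc, zpow_neg_one, mul_inv_cancel₀ hR.two_ne, one_mul]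

theorem ee_tf (hR : VR O) (y : AddMonoid.End (MM O t)) (h : 2 * y = 0) : y = 0 := by
  refine ee_ext fun m x => ?_
  have h1 := two_mul_apply_egr1 y m x
  rw [h] at h1
  have h2 : (0 : E) = 2 * (y m).1 x := h1
  have h3 := (mul_eq_zero.1 h2.symm).resolve_left hR.two_ne
  rw [h3]
  rfl

theorem ee_nt (hR : VR O) (hT : Tw O t α) (hm : ∀ n, ((t n : Eˣ) : E) ∈ O) :
    ¬ ∃ y : AddMonoid.End (MM O t), 1 = 2 * y := by
  rw [← ee_one hT, ee_two hR hT hm]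
  exact not_dv_one hR

end SingerBO
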