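import Mathlib
import Pool.Agent.Lib_MP_394d50_pb.EGr1

/-!
# Piece PO-E1b: the graded families (about 130 lines)

* `gr_GA`: `one`: `ee_one`. `mul`: `ee a g * ee b h = ee (a * α g b) (g h)`; `α g b ∈ DH t (H ∩ N)` for `g ∈ H`, `b ∈ DH t (H ∩ N)` (`tw_DH`:
  `Subfield.closure_induction`; `α g (t n) = t (g n g⁻¹)`, `g n g⁻¹ ∈ H`). `div`: `ee a g = 2 * y`, so `a = 2 * b`, `b = 2⁻¹ * a` is in
  `DH t _` and in `O`, and `ee a g = 2 * ee b g`. `unit`: `ee a g` not in `2 End`, so `¬ Dv O 1 a`, `a⁻¹ ∈ O` (`inv_mem_of_not_dv`), the inverse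
  is `ee (α g⁻¹ a⁻¹) g⁻¹` (`ee_mul`, `hT.mul`, `hT.one`, `ee_one`; `a ≠ 0`), `f g⁻¹ = v⁻¹`. (`r = 0` is divisible by `2`.)
-/

namespace SingerBO



theorem tw_DH {G E : Type} [Group G] [DivisionRing E] {N : Subgroup G} [N.Normal] {O : Subring E}
    {t : N →* Eˣ} {α : G → E →+* E} (hT : Tw O t α) (H : Subgroup G) {g : G} (hg : g ∈ H) {b : E}
    (hb : b ∈ DH t (H.subgroupOf N)) : α g b ∈ DH t (H.subgroupOf N) := by
  unfold DH at hb
  induction hb using Subfield.closure_induction with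
  | mem x hx =>
    obtain ⟨n, hn, rfl⟩ := hx
    rw [hT.grp]
    refine mem_DH t ?_
    rw [Subgroup.mem_subgroupOf, MulAut.conjNormal_apply]
    rw [Subgroup.mem_subgroupOf] at hn
    exact H.mul_mem (H.mul_mem hg hn) (H.inv_mem hg)
  | one =>
    rw [map_one]
    exact one_mem _
  | add x y _ _ hx hy =>
    rw [map_add]
    exact add_mem hx hy
  | neg x _ hx =>
    rw [map_neg]
    exact neg_mem hx
  | inv x _ hx =>
    rw [map_inv₀]
    exact inv_mem hx
  | mul x y _ _ hx hy =>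
    rw [map_mul]
    exact mul_mem hx hy



theorem gr_GA {G V E : Type} [Group G] [Group V] (f : G →* V) [DivisionRing E] {O : Subring E}
    {t : f.ker →* Eˣ} {α : G → E →+* E} (hR : VR O) (hT : Tw O t α)
    (hm : ∀ n, ((t n : Eˣ) : E) ∈ O) (H : Subgroup G) : Gr (GA f hT hm H) where
  one := Or.inr ⟨1, one_mem _, 1, H.one_mem, map_one f, (ee_one hT).symm⟩
  mul := by
    rintro v w x y (rfl | ⟨a, ha, g, hg, hv, rfl⟩) hy
    · rw [zero_mul]
      exact zero_mem _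
    · rcases hy with rfl | ⟨b, hb, h, hh, hw, rfl⟩
      · rw [mul_zero]
        exact zero_mem _
      · rw [ee_mul]
        refine Or.inr ⟨_, ?_, g * h, H.mul_mem hg hh, ?_, rfl⟩
        · exact mul_mem ha (tw_DH hT H hg hb)
        · rw [map_mul, hv, hw]
  tf := fun x hx => ee_tf hR x hx
  nt := ee_nt hR hT hm
  div := by
    rintro v x (rfl | ⟨a, ha, g, hg, hv, rfl⟩) hx
    · exact ⟨0, zero_mem _, (mul_zero _).symm⟩
    · have hd : Dv O 1 (a : E) := (ee_two hR hT hm a g).mp hx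
      have hb : (2 : E)⁻¹ * (a : E) ∈ O := by
        have h := hd
        unfold Dv at h
        rwa [zpow_neg_one] at h
      refine ⟨ee hT ⟨(2 : E)⁻¹ * (a : E), hb⟩ g, Or.inr ⟨_, ?_, g, hg, hv, rfl⟩, ?_⟩
      · have h2 : (2 : E) ∈ DH t (H.subgroupOf f.ker) := by
          have h : (1 : E) + 1 ∈ DH t (H.subgroupOf f.ker) := add_mem (one_mem _) (one_mem _)
          rwa [one_add_one_eq_two] at h
        exact mul_mem (inv_mem h2) ha
      · rw [two_mul, ee_add]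
        have e : a = (⟨(2 : E)⁻¹ * (a : E), hb⟩ : O) + ⟨(2 : E)⁻¹ * (a : E), hb⟩ := by
          apply Subtype.ext
          show (a : E) = (2 : E)⁻¹ * (a : E) + (2 : E)⁻¹ * (a : E)
          rw [← two_mul, ← mul_assoc, mul_inv_cancel₀ hR.two_ne, one_mul]
        rw [← e]
  unit := by
    rintro v x (rfl | ⟨a, ha, g, hg, hv, rfl⟩) hx
    · exact absurd ⟨0, (mul_zero _).symm⟩ hx
    · have hd : ¬ Dv O 1 (a : E) := fun h => hx ((ee_two hR hT hm a g).mpr h)
      have hi : (a : E)⁻¹ ∈ O := inv_mem_of_not_dv hR hd a.2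
      have ha0 : (a : E) ≠ 0 := fun h => hd (by
        rw [h]
        exact dv_zero 1)
      have hc : α g⁻¹ (a : E)⁻¹ ∈ O := hT.mem _ _ hi
      refine ⟨ee hT ⟨α g⁻¹ (a : E)⁻¹, hc⟩ g⁻¹, Or.inr ⟨_, ?_, g⁻¹, H.inv_mem hg, ?_, rfl⟩, ?_, ?_⟩
      · exact tw_DH hT H (H.inv_mem hg) (inv_mem ha)
      · rw [map_inv, hv]
      · rw [ee_mul]
        have e : a * (⟨α g (α g⁻¹ (a : E)⁻¹), hT.mem g _ hc⟩ : O) = 1 := by
          apply Subtype.ext
          show (a : E) * α g (α g⁻¹ (a : E)⁻¹) = 1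
          rw [← hT.mul, mul_inv_cancel, hT.one, mul_inv_cancel₀ ha0]
        rw [mul_inv_cancel]
        exact (congrArg (fun z => ee hT z 1) e).trans (ee_one hT)
      · rw [ee_mul]
        have e : (⟨α g⁻¹ (a : E)⁻¹, hc⟩ : O) * (⟨α g⁻¹ (a : E), hT.mem g⁻¹ _ a.2⟩ : O) = 1 := by
          apply Subtype.ext
          show α g⁻¹ (a : E)⁻¹ * α g⁻¹ (a : E) = 1
          rw [← map_mul, inv_mul_cancel₀ ha0, map_one]
        rw [inv_mul_cancel]
        exact (congrArg (fun z => ee hT z 1) e).trans (ee_one hT)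


end SingerBO
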