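import Mathlib
import Pool.Agent.Lib_MP_394d50_pb.EGr

/-!
# Piece PO-E2: the division ring of the extension (about 180 lines)

`ι : SS (gr_GA ... ⊤) →+* L` as in `exists_frac`. `TT`: the embedding `g ↦ ι (e(1, g) at f g)`.
* `tt_DH`: let `P x := ∃ (j : ℕ) (F : SS (gr_GA .. H)), 2 ^ j * x = ι (ssIncl F)`. `P` holds for the `T h`, `h ∈ H` (`ssS` with `ee_mem_GA`), and is
  closed under sums (common `j`), negatives, products (`2` is central in `L`), inverses: `x ≠ 0`, `2 ^ j * x = ι (ssIncl F)`, `F ≠ 0`,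
  `F = 2 ^ i * G'`, `G'.1 1 ≠ 0` (`ss_fac`), `G' * G'' = 1` (`ss_unit`), so `2 ^ i * x⁻¹ = ι (ssIncl (2 ^ j * G''))`
  (`x = 2 ^ (-j) 2 ^ i ι (ssIncl G')`). `0⁻¹ = 0`. So `P x` for `x ∈ DH T H` (`Subfield.closure_induction`). If in addition `x = ι F'`, then
  `2 ^ j * F' = ssIncl F` (`ι` injective), `ss_div`.
-/

namespace SingerBO

open MN

variable {G V E L : Type} [Group G] [Group V] [LinearOrder V] [MulLeftMono V] [MulRightMono V]
  {f : G →* V} [DivisionRing E] [DivisionRing L] {O : Subring E} {t : f.ker →* Eˣ}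
  {α : G → E →+* E}

/-- The embedding of the group. -/
noncomputable def TT (hR : VR O) (hT : Tw O t α) (hm : ∀ n, ((t n : Eˣ) : E) ∈ O)
    (ι : SS (gr_GA f hR hT hm ⊤) →+* L) : G →* Lˣ where
  toFun g := ⟨ι (ssS _ (f g) (ee hT 1 g) (ee_mem_GA f hT hm (Subgroup.mem_top g))),
    ι (ssS _ (f g⁻¹) (ee hT 1 g⁻¹) (ee_mem_GA f hT hm (Subgroup.mem_top g⁻¹))), by
      rw [← map_mul, ssS_mul, ← map_one ι, ← ssS_one]
      congr 2
      · rw [← map_mul, mul_inv_cancel, map_one]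
      · rw [ee_mul, mul_inv_cancel, ← ee_one hT]
        congr 1
        exact Subtype.ext (by
          show (1 : E) * α g 1 = 1
          rw [map_one, one_mul]), by
      rw [← map_mul, ssS_mul, ← map_one ι, ← ssS_one]
      congr 2
      · rw [← map_mul, inv_mul_cancel, map_one]
      · rw [ee_mul, inv_mul_cancel, ← ee_one hT]
        congr 1
        exact Subtype.ext (by
          show (1 : E) * α g⁻¹ 1 = 1
          rw [map_one, one_mul])⟩
  map_one' := Units.ext (by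
    show ι (ssS _ (f 1) (ee hT 1 1) _) = 1
    rw [← map_one ι, ← ssS_one]
    congr 2
    · rw [map_one]
    · rw [ee_one])
  map_mul' g h := Units.ext (by
    show ι (ssS _ (f (g * h)) (ee hT 1 (g * h)) _) = ι (ssS _ (f g) (ee hT 1 g) _) *
      ι (ssS _ (f h) (ee hT 1 h) _)
    rw [← map_mul, ssS_mul]
    congr 2
    · rw [map_mul]
    · rw [ee_mul]
      congr 1
      exact Subtype.ext (by
        show (1 : E) = (1 : E) * α g 1
        rw [map_one, one_mul]))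

theorem TT_val (hR : VR O) (hT : Tw O t α) (hm : ∀ n, ((t n : Eˣ) : E) ∈ O)
    (ι : SS (gr_GA f hR hT hm ⊤) →+* L) (g : G) : ((TT hR hT hm ι g : Lˣ) : L) =
      ι (ssS _ (f g) (ee hT 1 g) (ee_mem_GA f hT hm (Subgroup.mem_top g))) := rfl

private theorem dh_clear {K : Type} [DivisionRing K] {S : Type} [Ring S] (κ : S →+* K)
    (h2 : (2 : K) ≠ 0) (hfac : ∀ F : S, F ≠ 0 → ∃ (i : ℕ) (G' G'' : S), G' * G'' = 1 ∧
      F = 2 ^ i * G') (t : G →* Kˣ) (H : Subgroup G) (ht : ∀ h ∈ H, ∃ F : S, ((t h : Kˣ) : K) = κ F)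
    {x : K} (hx : x ∈ DH t H) : ∃ (j : ℕ) (F : S), 2 ^ j * x = κ F := by
  have hk : ∀ (i : ℕ) (F : S), κ (2 ^ i * F) = 2 ^ i * κ F := by
    intro i F
    rw [map_mul, map_pow, map_ofNat]
  induction hx using Subfield.closure_induction with
  | mem x hx =>
    obtain ⟨h, hh, rfl⟩ := hx
    obtain ⟨F, hF⟩ := ht h hh
    exact ⟨0, F, by rw [pow_zero, one_mul, hF]⟩
  | one => exact ⟨0, 1, by rw [pow_zero, one_mul, map_one]⟩
  | add x y _ _ hx hy =>
    obtain ⟨i, F, hF⟩ := hx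
    obtain ⟨j, F', hF'⟩ := hy
    refine ⟨i + j, 2 ^ j * F + 2 ^ i * F', ?_⟩
    rw [map_add, hk, hk, ← hF, ← hF', mul_add, ← mul_assoc, ← mul_assoc, ← pow_add, ← pow_add,
      Nat.add_comm j i]
  | neg x _ hx =>
    obtain ⟨i, F, hF⟩ := hx
    exact ⟨i, -F, by rw [mul_neg, hF, map_neg]⟩
  | inv x _ hx =>
    obtain ⟨j, F, hF⟩ := hx
    by_cases hx0 : x = 0
    · exact ⟨0, 0, by rw [hx0, inv_zero, mul_zero, map_zero]⟩
    · have hF0 : F ≠ 0 := by
        rintro rfl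
        rw [map_zero] at hF
        exact (mul_ne_zero (pow_ne_zero j h2) hx0) hF
      obtain ⟨i, G', G'', hG, rfl⟩ := hfac F hF0
      rw [hk] at hF
      refine ⟨i, 2 ^ j * G'', ?_⟩
      have h1 : κ G' * κ G'' = 1 := by rw [← map_mul, hG, map_one]
      have h3 : κ G'' * κ G' = 1 := by
        have hne : κ G' ≠ 0 := by
          intro h
          rw [h, zero_mul] at h1
          exact zero_ne_one h1
        rw [eq_inv_of_mul_eq_one_right h1, inv_mul_cancel₀ hne]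
      rw [hk]
      refine mul_right_cancel₀ hx0 ?_
      rw [mul_assoc, inv_mul_cancel₀ hx0, mul_one, two_pow_comm' j (κ G''), mul_assoc, hF,
        ← mul_assoc, ← two_pow_comm', mul_assoc, h3, mul_one]
  | mul x y _ _ hx hy =>
    obtain ⟨i, F, hF⟩ := hx
    obtain ⟨j, F', hF'⟩ := hy
    refine ⟨i + j, F * F', ?_⟩
    rw [map_mul, ← hF, ← hF', pow_add, mul_assoc, mul_assoc, ← mul_assoc (2 ^ j) x y,
      two_pow_comm' j x, mul_assoc]

theorem tt_DH (hR : VR O) (hT : Tw O t α) (hm : ∀ n, ((t n : Eˣ) : E) ∈ O)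
    (ι : SS (gr_GA f hR hT hm ⊤) →+* L) (hι : Function.Injective ι) (hV : VR ι.range)
    (hL : ∀ x : L, ∃ (j : ℕ) (F : SS (gr_GA f hR hT hm ⊤)), 2 ^ j * x = ι F) (H : Subgroup G)
    {x : L} (hx : x ∈ DH (TT hR hT hm ι) H) (hxO : x ∈ ι.range) :
    ∃ F : SS (gr_GA f hR hT hm H), x = ι (ssIncl (gr_GA f hR hT hm ⊤) (gr_GA f hR hT hm H)
      (fun v => GA_mono f hT hm le_top v) F) := by
  obtain ⟨F', rfl⟩ := hxO
  have h2 : (2 : L) ≠ 0 := hV.two_ne
  obtain ⟨j, F, hF⟩ := dh_clear (ι.comp (ssIncl (gr_GA f hR hT hm ⊤) (gr_GA f hR hT hm H)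
      (fun v => GA_mono f hT hm le_top v))) h2 (fun F hF => by
        obtain ⟨i, G', hG', e⟩ := ss_fac _ F hF
        obtain ⟨G'', e1, _⟩ := ss_unit _ G' hG'
        exact ⟨i, G', G'', e1, e⟩) (TT hR hT hm ι) H (fun h hh =>
          ⟨ssS _ (f h) (ee hT 1 h) (ee_mem_GA f hT hm hh), by
            rw [TT_val]
            rfl⟩) hx
  rw [RingHom.comp_apply] at hF
  have hF2 : (2 : SS (gr_GA f hR hT hm ⊤)) ^ j * F' = ssIncl (gr_GA f hR hT hm ⊤)
      (gr_GA f hR hT hm H) (fun v => GA_mono f hT hm le_top v) F := by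
    apply hι
    rw [map_mul, map_pow, map_ofNat]
    exact hF
  obtain ⟨F'', e⟩ := ss_div _ _ _ j F' F hF2
  exact ⟨F'', by rw [← e]⟩

end SingerBO
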