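import Mathlib
import Pool.Agent.Lib_MP_394d50_pb.EFrac

/-!
# Piece PO-E3a: the extension, left cosets (about 200 lines)

LEFT: let `H ≤ G`, `F`, `d` as in `VFE.left`. By `tt_DH` `d g = ι (ssIncl (D g))` for `g ∈ F`. `Dv ι.range 1 (∑ T g * d g)` gives
`∑ T g * d g = 2 * ι F'` (`2 ^ (-1) * x = ι F'`), so in `SS`: `∑ ssS (f g) (ee 1 g) * ssIncl (D g) = 2 * F'` (`ι` injective), and component `1`
is `0` (`ss_two`). Write `c g w = ((D g).1 1).cf w`. Coefficient at `v` (`single_mul_cf`, `sum_cf`):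
`∑ g ∈ F, mk2 1 (ee 1 g) * c g ((f g)⁻¹ * v) = 0` (*). We show `c g₀ w₀ = 0` for `g₀ ∈ F` and all `w₀`; then `(D g₀).1 1 = 0`,
`D g₀ = 2 * D'` (`ss_half`), `Dv ι.range 1 (d g₀)`. Suppose not; `v = f g₀ * w₀`; `I = {g ∈ F | c g ((f g)⁻¹ * v) ≠ 0}`. For `g ∈ I`
(`mem_Ak`, `mem_GA`; not `r = 0`): `c g ((f g)⁻¹ * v) = mk2 1 (ee a_g h_g)`, `a_g ∈ O`, in `DH t (H ∩ N)`, `h_g ∈ H`, `f h_g = (f g)⁻¹ * v`.
`x = g₀ * h_{g₀}`, `n_g = x⁻¹ * g * h_g ∈ f.ker`, `a'_g = α (h_g⁻¹) a_g ∈ DH t (H ∩ N)` (`tw_DH`), in `O`. Then `ee 1 g * ee a_g h_g =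
ee (α g a_g) (g h_g)`, `g h_g = (x n_g x⁻¹) x`, so by `ee_ker` it is `ee (α g a_g * t (conjNormal x n_g)) x`, and
`α g a_g = α x (α n_g (a'_g)) = α x (t n_g * a'_g * (t n_g)⁻¹)` (`g = x * n_g * h_g⁻¹`, `hT.mul`, `hT.ker`), `t (conjNormal x n_g) = α x (t n_g)`
(`hT.grp`): it is `ee (α x (t n_g * a'_g)) x`. So (*) is `mk2 1 (ee (α x (∑ g ∈ I, t n_g * a'_g)) x) = 0` (`ee_add`, sums), so by `mk2_eq_zero`,
`ee_two` `Dv O 1 (α x (∑ ...))`, so `Dv O 1 (∑ ...)` (apply `α x⁻¹`; `2 ^ (-1)` is fixed: `map_zpow₀`, `map_ofNat`). The `n_g` are distinct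
modulo `H ∩ N`: `n_g⁻¹ n_{g'} = h_g⁻¹ g⁻¹ g' h_{g'} ∈ H` gives `g⁻¹ g' ∈ H`. `vfe_left_idx`: `Dv O 1 (a'_{g₀})`, so
`Dv O 1 (a_{g₀})`, so `ee a_{g₀} h_{g₀} ∈ 2 End` (`ee_two`), `c g₀ w₀ = 0`, contradiction.
-/

namespace SingerBO

open MN

section core

variable {G V E : Type} [Group G] [Group V] {f : G →* V} [DivisionRing E] {O : Subring E}
  {t : f.ker →* Eˣ} {α : G → E →+* E}

private theorem el_alpha_inv (hT : Tw O t α) (g : G) (y : E) : α g⁻¹ (α g y) = y := by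
  rw [← hT.mul, inv_mul_cancel, hT.one]

private theorem el_alpha_inv' (hT : Tw O t α) (g : G) (y : E) : α g (α g⁻¹ y) = y := by
  rw [← hT.mul, mul_inv_cancel, hT.one]

private theorem el_dv (hT : Tw O t α) (g : G) {k : ℤ} {y : E} (h : Dv O k y) : Dv O k (α g y) := by
  have h1 := hT.mem g _ h
  rw [map_mul, map_zpow₀, map_ofNat] at h1
  exact h1

private theorem el_dv' (hT : Tw O t α) (g : G) {k : ℤ} {y : E} (h : Dv O k (α g y)) : Dv O k y := by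
  have h1 := el_dv hT g⁻¹ h
  rwa [el_alpha_inv hT] at h1

private theorem el_sum (hT : Tw O t α) {κ : Type} (s : Finset κ) (b : κ → O) (g : G) :
    ∑ i ∈ s, ee hT (b i) g = ee hT (∑ i ∈ s, b i) g := by
  classical
  induction s using Finset.induction_on with
  | empty => rw [Finset.sum_empty, Finset.sum_empty, ee_zero]
  | insert i s hi ih => rw [Finset.sum_insert hi, Finset.sum_insert hi, ih, ee_add]

/-- The product of `ee 1 g` and `ee a h` in the normal form. -/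
private theorem el_prod (hT : Tw O t α) (hm : ∀ n, ((t n : Eˣ) : E) ∈ O) (a : O) (g h x : G)
    (n : f.ker) (hn : (n : G) = x⁻¹ * g * h) :
    ee hT 1 g * ee hT a h =
      ee hT ⟨α x (((t n : Eˣ) : E) * α h⁻¹ a), hT.mem x _ (O.mul_mem (hm n) (hT.mem _ _ a.2))⟩ x := by
  rw [ee_mul]
  refine ee_ext fun m y => ?_
  show α y (1 * α g a) * m.1 (y * (g * h)) = α y (α x (((t n : Eˣ) : E) * α h⁻¹ a)) * m.1 (y * x)
  have e1 : y * (g * h) = ((MulAut.conjNormal (y * x) n : f.ker) : G) * (y * x) := by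
    rw [MulAut.conjNormal_apply, hn]
    group
  have e2 : g = x * (n : G) * h⁻¹ := by
    rw [hn]
    group
  have e3 : α g (a : E) = α x (((t n : Eˣ) : E) * α h⁻¹ a * (((t n)⁻¹ : Eˣ) : E)) := by
    rw [← hT.ker, ← hT.mul, ← hT.mul, ← e2]
  rw [e1, m.2.2, ← hT.grp, one_mul, e3, ← hT.mul, ← hT.mul, ← mul_assoc, ← map_mul, mul_assoc
    (((t n : Eˣ) : E) * α h⁻¹ a), Units.inv_mul, mul_one]

/-- Independence of the left cosets for homogeneous operators. -/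
theorem core_left (hR : VR O) (hF : VFE O t) (hT : Tw O t α) (H : Subgroup G) (F : Finset G)
    (h1 : ∀ g ∈ F, ∀ g' ∈ F, g⁻¹ * g' ∈ H → g = g')
    (c : G → V → AddMonoid.End (MM O t)) (hc : ∀ g ∈ F, ∀ w, c g w ∈ GA f hT hF.mem H w)
    (h : ∀ v, ∃ y : AddMonoid.End (MM O t), ∑ g ∈ F, ee hT 1 g * c g ((f g)⁻¹ * v) = 2 * y) :
    ∀ g ∈ F, ∀ w, ∃ y : AddMonoid.End (MM O t), c g w = 2 * y := by
  classical
  intro g₀ hg₀ w₀
  by_contra hne
  set v : V := f g₀ * w₀ with hv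
  have hw₀ : (f g₀)⁻¹ * v = w₀ := by rw [hv, inv_mul_cancel_left]
  set I : Finset G := F.filter fun g => ¬ ∃ y : AddMonoid.End (MM O t), c g ((f g)⁻¹ * v) = 2 * y
    with hI
  have hex : ∀ g : G, ∃ (a : O) (k : G), g ∈ I → (a : E) ∈ DH t (H.subgroupOf f.ker) ∧ k ∈ H ∧
      f k = (f g)⁻¹ * v ∧ c g ((f g)⁻¹ * v) = ee hT a k := by
    intro g
    by_cases hg : g ∈ I
    · have hg' := Finset.mem_filter.mp hg
      rcases (mem_GA f).mp (hc g hg'.1 ((f g)⁻¹ * v)) with h0 | ⟨a, ha, k, hk, hkv, h0⟩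
      · exact absurd ⟨0, by rw [h0, mul_zero]⟩ hg'.2
      · exact ⟨a, k, fun _ => ⟨ha, hk, hkv, h0⟩⟩
    · exact ⟨0, 1, fun h => absurd h hg⟩
  choose a k hak using hex
  have hg₀I : g₀ ∈ I := by
    rw [hI, Finset.mem_filter, hw₀]
    exact ⟨hg₀, hne⟩
  set x : G := g₀ * k g₀ with hx
  have hfx : f x = v := by
    rw [hx, map_mul, (hak g₀ hg₀I).2.2.1, mul_inv_cancel_left]
  have hexn : ∀ g : G, ∃ n : f.ker, g ∈ I → (n : G) = x⁻¹ * g * k g := by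
    intro g
    by_cases hg : g ∈ I
    · refine ⟨⟨x⁻¹ * g * k g, ?_⟩, fun _ => rfl⟩
      rw [MonoidHom.mem_ker, map_mul, map_mul, map_inv, hfx, (hak g hg).2.2.1]
      group
    · exact ⟨1, fun h => absurd h hg⟩
  choose n hn using hexn
  -- the sum over `I` is divisible by `2`
  have hsum : ∃ y : AddMonoid.End (MM O t), ∑ g ∈ I, ee hT 1 g * c g ((f g)⁻¹ * v) = 2 * y := by
    obtain ⟨y, hy⟩ := h v
    have hex2 : ∀ g : G, ∃ z : AddMonoid.End (MM O t), g ∈ F → g ∉ I →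
        c g ((f g)⁻¹ * v) = 2 * z := by
      intro g
      by_cases hg : ∃ z : AddMonoid.End (MM O t), c g ((f g)⁻¹ * v) = 2 * z
      · obtain ⟨z, hz⟩ := hg
        exact ⟨z, fun _ _ => hz⟩
      · exact ⟨0, fun h2 h3 => absurd (Finset.mem_filter.mpr ⟨h2, hg⟩) h3⟩
    choose z hz using hex2
    have h2 := Finset.sum_filter_add_sum_filter_not F
      (fun g => ¬ ∃ y : AddMonoid.End (MM O t), c g ((f g)⁻¹ * v) = 2 * y)
      (fun g => ee hT 1 g * c g ((f g)⁻¹ * v))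
    have h3 : ∑ g ∈ F.filter (fun g => ¬ ¬ ∃ y : AddMonoid.End (MM O t),
        c g ((f g)⁻¹ * v) = 2 * y), ee hT 1 g * c g ((f g)⁻¹ * v) =
        2 * ∑ g ∈ F.filter (fun g => ¬ ¬ ∃ y : AddMonoid.End (MM O t),
          c g ((f g)⁻¹ * v) = 2 * y), ee hT 1 g * z g := by
      rw [Finset.mul_sum]
      refine Finset.sum_congr rfl fun g hg => ?_
      have hg' := Finset.mem_filter.mp hg
      rw [hz g hg'.1 (fun h4 => hg'.2 (Finset.mem_filter.mp h4).2), ← mul_assoc, ← mul_assoc,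
        (Commute.ofNat_left 2 (ee hT 1 g)).eq]
    refine ⟨y - ∑ g ∈ F.filter (fun g => ¬ ¬ ∃ y : AddMonoid.End (MM O t),
          c g ((f g)⁻¹ * v) = 2 * y), ee hT 1 g * z g, ?_⟩
    rw [mul_sub, ← hy, ← h2, ← h3, hI]
    exact (add_sub_cancel_right _ _).symm
  have hsum2 : ∑ g ∈ I, ee hT 1 g * c g ((f g)⁻¹ * v) = ∑ g ∈ I,
      ee hT ⟨α x (((t (n g) : Eˣ) : E) * α (k g)⁻¹ (a g)),
        hT.mem x _ (O.mul_mem (hF.mem (n g)) (hT.mem _ _ (a g).2))⟩ x := by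
    refine Finset.sum_congr rfl fun g hg => ?_
    rw [(hak g hg).2.2.2, el_prod hT hF.mem (a g) g (k g) x (n g) (hn g hg)]
  rw [hsum2, el_sum] at hsum
  have h2 := (ee_two hR hT hF.mem _ _).mp hsum
  have h3 : Dv O 1 (α x (∑ g ∈ I, ((t (n g) : Eˣ) : E) * α (k g)⁻¹ (a g))) := by
    rw [map_sum]
    rwa [AddSubmonoidClass.coe_finsetSum] at h2
  have h4 := el_dv' hT x h3
  have h5 := vfe_left_idx hF (H.subgroupOf f.ker) I n (fun g => α (k g)⁻¹ (a g)) ?_ ?_ h4 g₀ hg₀I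
  · have h6 := el_dv hT (k g₀) h5
    rw [el_alpha_inv' hT] at h6
    obtain ⟨z, hz⟩ := (ee_two hR hT hF.mem (a g₀) (k g₀)).mpr h6
    apply hne
    rw [← hw₀, (hak g₀ hg₀I).2.2.2]
    exact ⟨z, hz⟩
  · intro i hi j hj hij
    rw [Subgroup.mem_subgroupOf, Subgroup.coe_mul, Subgroup.coe_inv, hn i hi, hn j hj] at hij
    have e : (k i) * ((x⁻¹ * i * k i)⁻¹ * (x⁻¹ * j * k j)) * (k j)⁻¹ = i⁻¹ * j := by group
    refine h1 i (Finset.mem_filter.mp hi).1 j (Finset.mem_filter.mp hj).1 ?_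
    rw [← e]
    exact H.mul_mem (H.mul_mem (hak i hi).2.1 hij) (H.inv_mem (hak j hj).2.1)
  · intro i hi
    exact ⟨tw_DH hT H (H.inv_mem (hak i hi).2.1) (hak i hi).1, hT.mem _ _ (a i).2⟩

end core

variable {G V E L : Type} [Group G] [Group V] [LinearOrder V] [MulLeftMono V] [MulRightMono V]
  {f : G →* V} [DivisionRing E] [DivisionRing L] {O : Subring E} {t : f.ker →* Eˣ}
  {α : G → E →+* E}

theorem tt_left (hR : VR O) (hF : VFE O t) (hT : Tw O t α)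
    (ι : SS (gr_GA f hR hT hF.mem ⊤) →+* L) (hι : Function.Injective ι) (hV : VR ι.range)
    (hL : ∀ x : L, ∃ (j : ℕ) (F : SS (gr_GA f hR hT hF.mem ⊤)), 2 ^ j * x = ι F)
    (H : Subgroup G) (F : Finset G) (d : G → L)
    (h1 : ∀ g ∈ F, ∀ g' ∈ F, g⁻¹ * g' ∈ H → g = g')
    (h2 : ∀ g ∈ F, d g ∈ DH (TT hR hT hF.mem ι) H ∧ d g ∈ ι.range)
    (h3 : Dv ι.range 1 (∑ g ∈ F, ((TT hR hT hF.mem ι g : Lˣ) : L) * d g)) :
    ∀ g ∈ F, Dv ι.range 1 (d g) := by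
  classical
  set incl := ssIncl (gr_GA f hR hT hF.mem ⊤) (gr_GA f hR hT hF.mem H)
    (fun v => GA_mono f hT hF.mem le_top v) with hincl
  have hexD : ∀ g : G, ∃ D : SS (gr_GA f hR hT hF.mem H), g ∈ F → d g = ι (incl D) := by
    intro g
    by_cases hg : g ∈ F
    · obtain ⟨D, hD⟩ := tt_DH hR hT hF.mem ι hι hV hL H (h2 g hg).1 (h2 g hg).2
      exact ⟨D, fun _ => hD⟩
    · exact ⟨0, fun h => absurd h hg⟩
  choose D hD using hexD
  have htwo : (2 : L) ≠ 0 := hV.two_ne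
  -- the sum in the ring of series
  obtain ⟨F', hF'⟩ := h3
  have hsum : ∑ g ∈ F, ssS (gr_GA f hR hT hF.mem ⊤) (f g) (ee hT 1 g)
      (ee_mem_GA f hT hF.mem (Subgroup.mem_top g)) * incl (D g) = 2 * F' := by
    apply hι
    rw [map_mul, hF', map_sum, map_ofNat, zpow_neg, zpow_one, mul_inv_cancel_left₀ htwo]
    refine Finset.sum_congr rfl fun g hg => ?_
    rw [map_mul, ← hD g hg, TT_val]
  have hcomp := congrArg (fun z : SS (gr_GA f hR hT hF.mem ⊤) => z.1 1) hsum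
  simp only [ss_two] at hcomp
  have hcf : ∀ v, ∑ g ∈ F, mk2 (AddMonoid.End (MM O t)) 1 (ee hT 1 g) *
      ((D g).1 1).cf ((f g)⁻¹ * v) = 0 := by
    intro v
    have h4 := congrArg (fun z => z.cf v) hcomp
    simp only [zero_cf] at h4
    rw [← h4, AddSubmonoidClass.coe_finsetSum, Finset.sum_apply, sum_cf]
    refine Finset.sum_congr rfl fun g _ => ?_
    exact (single_mul_cf (f g) _ ((D g).1 1) v).symm
  have hexc : ∀ (g : G) (w : V), ∃ r ∈ GA f hT hF.mem H w,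
      mk2 (AddMonoid.End (MM O t)) 1 r = ((D g).1 1).cf w := fun g w => mem_Ak.mp ((D g).2.2 1 w)
  choose c hc1 hc2 using hexc
  have hcore := core_left hR hF hT H F h1 c (fun g _ w => hc1 g w) (by
    intro v
    have h4 : mk2 (AddMonoid.End (MM O t)) 1 (∑ g ∈ F, ee hT 1 g * c g ((f g)⁻¹ * v)) = 0 := by
      rw [map_sum, ← hcf v]
      refine Finset.sum_congr rfl fun g _ => ?_
      rw [map_mul, hc2]
    obtain ⟨y, hy⟩ := mk2_eq_zero.mp h4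
    exact ⟨y, by rw [hy, pow_one]⟩)
  have hzero : ∀ g ∈ F, (D g).1 1 = 0 := by
    intro g hg
    refine MN.ext (funext fun w => ?_)
    obtain ⟨y, hy⟩ := hcore g hg w
    rw [← hc2, zero_cf, mk2_eq_zero]
    exact ⟨y, by rw [pow_one, hy]⟩
  intro g hg
  obtain ⟨D', hD'⟩ := ss_half _ (D g) (hzero g hg)
  rw [hD g hg, hD', map_mul, map_mul, map_ofNat, map_ofNat]
  show (2 : L) ^ (-1 : ℤ) * (2 * ι (incl D')) ∈ ι.range
  rw [zpow_neg, zpow_one, inv_mul_cancel_left₀ htwo]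
  exact ⟨_, rfl⟩

end SingerBO
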