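import Mathlib
import Pool.Agent.Lib_MP_394d50_pb.EFrac

/-!
# Piece PO-E3b: the extension, right cosets (about 160 lines)

As `tt_left` (ELeft.lean: read the plan there, with `d g = ι (ssIncl (D g))`, `c g w`, `I`), on the other side.
RIGHT: `mul_single_cf`: coefficient at `v` of `∑ D g * ssS (f g) (ee 1 g)` is `∑ c g (v * (f g)⁻¹) * mk2 (ee 1 g)`;
`ee a_g h_g * ee 1 g = ee a_g (h_g g)`, `h_g * g = n_g * x`, `x = h_{g₀} g₀`, `n_g ∈ N`: `ee (a_g * t n_g) x` (`ee_ker`); `vfe_right_idx`;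
`n_{g'} n_g⁻¹ = h_{g'} g' g⁻¹ h_g⁻¹`.

`mem`: `TT_val`. LEFT: let `H ≤ G`, `F`, `d` as in `VFE.left`. By `tt_DH` `d g = ι (ssIncl (D g))` for `g ∈ F`. `Dv ι.range 1 (∑ T g * d g)` gives
`∑ T g * d g = 2 * ι F'` (`2 ^ (-1) * x = ι F'`), so in `SS`: `∑ ssS (f g) (ee 1 g) * ssIncl (D g) = 2 * F'` (`ι` injective), and component `1`
is `0` (`ss_two`). Write `c g w = ((D g).1 1).cf w`. Coefficient at `v` (`single_mul_cf`, `sum_cf`):
`∑ g ∈ F, mk2 1 (ee 1 g) * c g ((f g)⁻¹ * v) = 0` (*). We show `c g₀ w₀ = 0` for `g₀ ∈ F` and all `w₀`; then `(D g₀).1 1 = 0`,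
`D g₀ = 2 * D'` (`ss_half`), `Dv ι.range 1 (d g₀)`. Suppose not; `v = f g₀ * w₀`; `I = {g ∈ F | c g ((f g)⁻¹ * v) ≠ 0}`. For `g ∈ I`
(`mem_Ak`, `mem_GA`; not `r = 0`): `c g ((f g)⁻¹ * v) = mk2 1 (ee a_g h_g)`, `a_g ∈ O`, in `DH t (H ∩ N)`, `h_g ∈ H`, `f h_g = (f g)⁻¹ * v`.
`x = g₀ * h_{g₀}`, `n_g = x⁻¹ * g * h_g ∈ f.ker`, `a'_g = α (h_g⁻¹) a_g ∈ DH t (H ∩ N)` (`tw_DH`), in `O`. Then `ee 1 g * ee a_g h_g =
ee (α g a_g) (g h_g)`, `g h_g = (x n_g x⁻¹) x`, so by `ee_ker` it is `ee (α g a_g * t (conjNormal x n_g)) x`, and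
`α g a_g = α x (α n_g (a'_g)) = α x (t n_g * a'_g * (t n_g)⁻¹)` (`g = x * n_g * h_g⁻¹`, `hT.mul`, `hT.ker`), `t (conjNormal x n_g) = α x (t n_g)`
(`hT.grp`): it is `ee (α x (t n_g * a'_g)) x`. So (*) is `mk2 1 (ee (α x (∑ g ∈ I, t n_g * a'_g)) x) = 0` (`ee_add`, sums), so by `mk2_eq_zero`,
`ee_two` `Dv O 1 (α x (∑ ...))`, so `Dv O 1 (∑ ...)` (apply `α x⁻¹`; `2 ^ (-1)` is fixed: `map_zpow₀`, `map_ofNat`). The `n_g` are distinct
modulo `H ∩ N`: `n_g⁻¹ n_{g'} = h_g⁻¹ g⁻¹ g' h_{g'} ∈ H` gives `g⁻¹ g' ∈ H`. `vfe_left_idx`: `Dv O 1 (a'_{g₀})`, so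
`Dv O 1 (a_{g₀})`, so `ee a_{g₀} h_{g₀} ∈ 2 End` (`ee_two`), `c g₀ w₀ = 0`, contradiction.
-/

namespace SingerBO

open MN

variable {G V E L : Type} [Group G] [Group V] [LinearOrder V] [MulLeftMono V] [MulRightMono V]
  {f : G →* V} [DivisionRing E] [DivisionRing L] {O : Subring E} {t : f.ker →* Eˣ}
  {α : G → E →+* E}

omit [LinearOrder V] [MulLeftMono V] [MulRightMono V] in
private theorem ee_sum_right (hT : Tw O t α) (s : Finset G) (b : G → O) (x : G) :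
    ∑ g ∈ s, ee hT (b g) x = ee hT (∑ g ∈ s, b g) x := by
  classical
  induction s using Finset.induction_on with
  | empty => rw [Finset.sum_empty, Finset.sum_empty, ee_zero]
  | insert g s hg ih => rw [Finset.sum_insert hg, Finset.sum_insert hg, ih, ee_add]

private theorem mk2_sum_right {R X : Type} [Ring R] (s : Finset X) (b : X → R) :
    mk2 R 1 (∑ g ∈ s, b g) = ∑ g ∈ s, mk2 R 1 (b g) := map_sum _ _ _

private theorem mk2_mul_right {R : Type} [Ring R] (a b : R) :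
    mk2 R 1 a * mk2 R 1 b = mk2 R 1 (a * b) := (map_mul _ _ _).symm

private theorem sum_cf_right {R X : Type} [Ring R] {A : V → AddSubgroup R} (hA : Gr A) (F : Finset X)
    (D : X → SS hA) (w : X → V) (x : X → R) (hx : ∀ g, x g ∈ A (w g)) (F' : SS hA)
    (hS : ∑ g ∈ F, D g * ssS hA (w g) (x g) (hx g) = 2 * F') (v : V) :
    ∑ g ∈ F, ((D g).1 1).cf (v * (w g)⁻¹) * mk2 R 1 (x g) = 0 := by
  have h4 := ss_two hA F'
  rw [← hS] at h4
  have h5 : (∑ g ∈ F, D g * ssS hA (w g) (x g) (hx g) : SS hA).1 1 =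
      ∑ g ∈ F, (D g).1 1 * single (w g) (mk2 R 1 (x g)) := by
    let ev : SS hA →+* MN (Rk R 1) V :=
      (Pi.evalRingHom (fun k : ℕ => MN (Rk R k) V) 1).comp (SS hA).subtype
    show ev _ = _
    rw [map_sum]
    rfl
  rw [h5] at h4
  have h6 := congrArg (fun s => MN.cf s v) h4
  simp only [sum_cf, mul_single_cf, zero_cf] at h6
  exact h6

private theorem half_right {R : Type} [Ring R] {A B : V → AddSubgroup R} (hA : Gr A) (hB : Gr B)
    (h : ∀ v, B v ≤ A v) (ι : SS hA →+* L) (h2 : (2 : L) ≠ 0) (D : SS hB)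
    (hD : ∀ w, (D.1 1).cf w = 0) : Dv ι.range 1 (ι (ssIncl hA hB h D)) := by
  obtain ⟨D', hD'⟩ := ss_half hB D (MN.ext (funext hD))
  refine ⟨ssIncl hA hB h D', ?_⟩
  rw [hD', map_mul, map_mul, map_ofNat, map_ofNat, zpow_neg_one, ← mul_assoc,
    inv_mul_cancel₀ h2, one_mul]

omit [LinearOrder V] [MulLeftMono V] [MulRightMono V] in
/-- The heart of the proof: the coefficients modulo `2` vanish. -/
private theorem cf_zero_right (hR : VR O) (hF : VFE O t) (hT : Tw O t α)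
    (H : Subgroup G) (F : Finset G) (c : G → V → Rk (AddMonoid.End (MM O t)) 1)
    (hc : ∀ g w, c g w ∈ Ak (GA f hT hF.mem H) 1 w)
    (h1 : ∀ g ∈ F, ∀ g' ∈ F, g' * g⁻¹ ∈ H → g = g')
    (hsum : ∀ v : V, ∑ g ∈ F, c g (v * (f g)⁻¹) * mk2 _ 1 (ee hT 1 g) = 0) :
    ∀ g ∈ F, ∀ w, c g w = 0 := by
  classical
  intro g₀ hg₀ w₀
  by_contra hne
  obtain ⟨v, hv⟩ : ∃ v, v = w₀ * f g₀ := ⟨_, rfl⟩
  obtain ⟨I, hI⟩ : ∃ I : Finset G, I = F.filter fun g => c g (v * (f g)⁻¹) ≠ 0 := ⟨_, rfl⟩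
  have hmemI : ∀ g, g ∈ I ↔ g ∈ F ∧ c g (v * (f g)⁻¹) ≠ 0 := by
    intro g
    rw [hI, Finset.mem_filter]
  have hv0 : v * (f g₀)⁻¹ = w₀ := by
    rw [hv, mul_inv_cancel_right]
  have hg₀I : g₀ ∈ I := by
    rw [hmemI, hv0]
    exact ⟨hg₀, hne⟩
  have hex : ∀ g, ∃ (a : O) (h : G), g ∈ I → (a : E) ∈ DH t (H.subgroupOf f.ker) ∧ h ∈ H ∧
      f h = v * (f g)⁻¹ ∧ c g (v * (f g)⁻¹) = mk2 _ 1 (ee hT a h) := by
    intro g
    by_cases hg : g ∈ I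
    · obtain ⟨y, hy, hyc⟩ := mem_Ak.mp (hc g (v * (f g)⁻¹))
      rcases (mem_GA f).mp hy with rfl | ⟨a, ha, h, hh, hfh, rfl⟩
      · exfalso
        rw [map_zero] at hyc
        exact ((hmemI g).mp hg).2 hyc.symm
      · exact ⟨a, h, fun _ => ⟨ha, hh, hfh, hyc.symm⟩⟩
    · exact ⟨0, 1, fun h => absurd h hg⟩
  choose a h hah using hex
  obtain ⟨x, hx⟩ : ∃ x, x = h g₀ * g₀ := ⟨_, rfl⟩
  have hfx : f x = v := by
    rw [hx, map_mul, (hah g₀ hg₀I).2.2.1, inv_mul_cancel_right]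
  have hexn : ∀ g, ∃ n : f.ker, g ∈ I → (n : G) = h g * g * x⁻¹ := by
    intro g
    by_cases hg : g ∈ I
    · refine ⟨⟨h g * g * x⁻¹, ?_⟩, fun _ => rfl⟩
      rw [MonoidHom.mem_ker, map_mul, map_mul, map_inv, (hah g hg).2.2.1, hfx,
        inv_mul_cancel_right, mul_inv_cancel]
    · exact ⟨1, fun h' => absurd h' hg⟩
  choose n hn using hexn
  have hterm : ∀ g ∈ I, c g (v * (f g)⁻¹) * mk2 _ 1 (ee hT 1 g) =
      mk2 _ 1 (ee hT (a g * ⟨((t (n g) : Eˣ) : E), hF.mem _⟩) x) := by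
    intro g hg
    rw [(hah g hg).2.2.2, mk2_mul_right, ee_mul, ← ee_ker hT (a g) (n g) x (hF.mem _), hn g hg,
      inv_mul_cancel_right]
    congr 2
    exact Subtype.ext (by
      show (a g : E) * α (h g) 1 = a g
      rw [map_one, mul_one])
  have h0 : mk2 (AddMonoid.End (MM O t)) 1
      (ee hT (∑ g ∈ I, a g * ⟨((t (n g) : Eˣ) : E), hF.mem _⟩) x) = 0 := by
    rw [← ee_sum_right, mk2_sum_right, ← hsum v, ← Finset.sum_congr rfl hterm, hI]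
    refine Finset.sum_subset (Finset.filter_subset _ _) fun g hgF hg => ?_
    rw [Finset.mem_filter, not_and, not_not] at hg
    rw [hg hgF, zero_mul]
  have h2 : Dv O 1 (∑ g ∈ I, (a g : E) * ((t (n g) : Eˣ) : E)) := by
    have h3 := mk2_eq_zero.mp h0
    rw [pow_one, ee_two hR hT hF.mem] at h3
    rw [AddSubmonoidClass.coe_finsetSum] at h3
    exact h3
  have h4 := vfe_right_idx hF (H.subgroupOf f.ker) I n (fun g => (a g : E)) (fun i hi j hj hij => by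
    rw [Subgroup.mem_subgroupOf] at hij
    have h5 : ((n j * (n i)⁻¹ : f.ker) : G) = h j * (j * i⁻¹) * (h i)⁻¹ := by
      show (n j : G) * (n i : G)⁻¹ = _
      rw [hn j hj, hn i hi]
      group
    rw [h5] at hij
    have h6 : j * i⁻¹ ∈ H := by
      have h7 := H.mul_mem (H.mul_mem (H.inv_mem (hah j hj).2.1) hij) (hah i hi).2.1
      have h8 : (h j)⁻¹ * (h j * (j * i⁻¹) * (h i)⁻¹) * h i = j * i⁻¹ := by group
      rwa [h8] at h7
    exact h1 i ((hmemI i).mp hi).1 j ((hmemI j).mp hj).1 h6)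
    (fun i hi => ⟨(hah i hi).1, (a i).2⟩) h2 g₀ hg₀I
  have h9 := (ee_two hR hT hF.mem (a g₀) (h g₀)).mpr h4
  apply hne
  rw [← hv0, (hah g₀ hg₀I).2.2.2, mk2_eq_zero, pow_one]
  exact h9

omit [LinearOrder V] [MulLeftMono V] [MulRightMono V] in
/-- The heart of the proof in terms of homogeneous operators. -/
theorem core_right (hR : VR O) (hF : VFE O t) (hT : Tw O t α) (H : Subgroup G) (F : Finset G)
    (h1 : ∀ g ∈ F, ∀ g' ∈ F, g' * g⁻¹ ∈ H → g = g')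
    (c : G → V → AddMonoid.End (MM O t)) (hc : ∀ g ∈ F, ∀ w, c g w ∈ GA f hT hF.mem H w)
    (h : ∀ v, ∃ y : AddMonoid.End (MM O t), ∑ g ∈ F, c g (v * (f g)⁻¹) * ee hT 1 g = 2 * y) :
    ∀ g ∈ F, ∀ w, ∃ y : AddMonoid.End (MM O t), c g w = 2 * y := by
  classical
  have h2 := cf_zero_right hR hF hT H F (fun g w => if g ∈ F then mk2 _ 1 (c g w) else 0)
    (fun g w => by
      show (if g ∈ F then mk2 _ 1 (c g w) else 0) ∈ Ak (GA f hT hF.mem H) 1 w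
      split_ifs with hg
      · exact mem_Ak.mpr ⟨c g w, hc g hg w, rfl⟩
      · exact zero_mem _) h1 (fun v => by
      obtain ⟨y, hy⟩ := h v
      have h3 : mk2 (AddMonoid.End (MM O t)) 1 (∑ g ∈ F, c g (v * (f g)⁻¹) * ee hT 1 g) = 0 := by
        rw [mk2_eq_zero, pow_one]
        exact ⟨y, hy⟩
      rw [mk2_sum_right] at h3
      rw [← h3]
      refine Finset.sum_congr rfl fun g hg => ?_
      rw [if_pos hg, mk2_mul_right])
  intro g hg w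
  have h3 := h2 g hg w
  simp only [if_pos hg] at h3
  rw [mk2_eq_zero, pow_one] at h3
  exact h3

theorem tt_right (hR : VR O) (hF : VFE O t) (hT : Tw O t α)
    (ι : SS (gr_GA f hR hT hF.mem ⊤) →+* L) (hι : Function.Injective ι) (hV : VR ι.range)
    (hL : ∀ x : L, ∃ (j : ℕ) (F : SS (gr_GA f hR hT hF.mem ⊤)), 2 ^ j * x = ι F)
    (H : Subgroup G) (F : Finset G) (d : G → L)
    (h1 : ∀ g ∈ F, ∀ g' ∈ F, g' * g⁻¹ ∈ H → g = g')
    (h2 : ∀ g ∈ F, d g ∈ DH (TT hR hT hF.mem ι) H ∧ d g ∈ ι.range)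
    (h3 : Dv ι.range 1 (∑ g ∈ F, d g * ((TT hR hT hF.mem ι g : Lˣ) : L))) :
    ∀ g ∈ F, Dv ι.range 1 (d g) := by
  classical
  have h2ne : (2 : L) ≠ 0 := hV.two_ne
  have hex : ∀ g, ∃ D : SS (gr_GA f hR hT hF.mem H), g ∈ F → d g =
      ι (ssIncl (gr_GA f hR hT hF.mem ⊤) (gr_GA f hR hT hF.mem H)
      (fun v => GA_mono f hT hF.mem le_top v) D) := by
    intro g
    by_cases hg : g ∈ F
    · obtain ⟨D, hD⟩ := tt_DH hR hT hF.mem ι hι hV hL H (h2 g hg).1 (h2 g hg).2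
      exact ⟨D, fun _ => hD⟩
    · exact ⟨0, fun h => absurd h hg⟩
  choose D hD using hex
  obtain ⟨F', hF'⟩ : ∃ F', ι F' = 2 ^ (-1 : ℤ) * ∑ g ∈ F, d g * ((TT hR hT hF.mem ι g : Lˣ) : L) :=
    h3
  have hS : ∑ g ∈ F, (ssIncl (gr_GA f hR hT hF.mem ⊤) (gr_GA f hR hT hF.mem H)
      (fun v => GA_mono f hT hF.mem le_top v) (D g)) *
      ssS _ (f g) (ee hT 1 g) (ee_mem_GA f hT hF.mem (Subgroup.mem_top g)) = 2 * F' := by
    apply hι
    rw [map_mul, hF', map_ofNat, zpow_neg_one, ← mul_assoc, mul_inv_cancel₀ h2ne, one_mul, map_sum]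
    refine Finset.sum_congr rfl fun g hg => ?_
    rw [map_mul, hD g hg, TT_val]
  have hcf := sum_cf_right (gr_GA f hR hT hF.mem ⊤) F
    (fun g => ssIncl (gr_GA f hR hT hF.mem ⊤) (gr_GA f hR hT hF.mem H)
      (fun v => GA_mono f hT hF.mem le_top v) (D g)) (fun g => f g) (fun g => ee hT 1 g)
    (fun g => ee_mem_GA f hT hF.mem (Subgroup.mem_top g)) F' hS
  have hz := cf_zero_right hR hF hT H F (fun g w => ((D g).1 1).cf w)
    (fun g w => (D g).2.2 1 w) h1 hcf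
  intro g hg
  rw [hD g hg]
  exact half_right _ _ _ ι h2ne (D g) (hz g hg)

end SingerBO
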