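import Mathlib
import Pool.Agent.Lib_MP_394d50_pb.VDefs

/-!
# Piece PO-G1a: extensions of locally indicable groups (about 100 lines)

* `li_ext`: let `H ≤ G` be finitely generated, `H ≠ ⊥`. If `H.map f ≠ ⊥`: it is finitely generated (`Subgroup.FG.map`), so `hQ` gives
  `N'`, `χ'`, `s' = f s`, `s ∈ H`; take `N = H ⊓ N'.comap f`, `χ = χ' ∘ f`. Otherwise `H ≤ f.ker`; `H' = H.subgroupOf f.ker` is finitely
  generated (`H' ≃* H`, `Subgroup.subgroupOfEquivOfLe`; or: `H'.map f.ker.subtype = H`, `Subgroup.fg_iff...`) and `≠ ⊥`; `hN` gives `N'`, `χ'`, `s'`;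
  `N = N'.map f.ker.subtype`, `χ x = if h : x ∈ f.ker then χ' ⟨x, h⟩ else 0`, `s = s'`.
-/

namespace SingerBO

/-- the case of a subgroup whose image is not trivial -/
private theorem GLi_img {G Q : Type} [Group G] [Group Q] (f : G →* Q) (hQ : LocInd Q)
    (H : Subgroup G) (hfg : H.FG) (hm : H.map f ≠ ⊥) :
    ∃ (N : Subgroup G) (χ : G → ℤ) (s : G), Chi H N χ s := by
  have hfg' : (H.map f).FG := by
    have h1 : Group.FG H := (Group.fg_iff_subgroup_fg H).2 hfg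
    have h2 : Group.FG (H.map f) :=
      Group.fg_of_surjective (f := f.subgroupMap H) (f.subgroupMap_surjective H)
    exact (Group.fg_iff_subgroup_fg _).1 h2
  obtain ⟨N', χ', s', hC⟩ := hQ (H.map f) hfg' hm
  obtain ⟨s, hs, hfs⟩ := Subgroup.mem_map.1 hC.mem
  refine ⟨H ⊓ N'.comap f, fun x => χ' (f x), s, ?_, ?_, hs, ?_⟩
  · intro x hx y hy
    show χ' (f (x * y)) = χ' (f x) + χ' (f y)
    rw [map_mul]
    exact hC.mul _ (Subgroup.mem_map_of_mem f hx) _ (Subgroup.mem_map_of_mem f hy)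
  · intro x
    rw [Subgroup.mem_inf, Subgroup.mem_comap, hC.ker]
    constructor
    · rintro ⟨h1, _, h2⟩
      exact ⟨h1, h2⟩
    · rintro ⟨h1, h2⟩
      exact ⟨h1, Subgroup.mem_map_of_mem f h1, h2⟩
  · show χ' (f s) = 1
    rw [hfs]
    exact hC.one

open Classical in
/-- the case of a subgroup of the kernel -/
private theorem GLi_ker {G Q : Type} [Group G] [Group Q] (f : G →* Q) (hN : LocInd f.ker)
    (H : Subgroup G) (hfg : H.FG) (hne : H ≠ ⊥) (hle : H ≤ f.ker) :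
    ∃ (N : Subgroup G) (χ : G → ℤ) (s : G), Chi H N χ s := by
  have hmap : (H.subgroupOf f.ker).map f.ker.subtype = H := Subgroup.map_subgroupOf_eq_of_le hle
  have hfg' : (H.subgroupOf f.ker).FG := by
    have h1 : Group.FG H := (Group.fg_iff_subgroup_fg H).2 hfg
    have h2 : Group.FG (H.subgroupOf f.ker) :=
      Group.fg_of_surjective (f := (Subgroup.subgroupOfEquivOfLe hle).symm.toMonoidHom)
        (Subgroup.subgroupOfEquivOfLe hle).symm.surjective
    exact (Group.fg_iff_subgroup_fg _).1 h2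
  have hne' : H.subgroupOf f.ker ≠ ⊥ := by
    intro h0
    apply hne
    rw [← hmap, h0, Subgroup.map_bot]
  obtain ⟨N', χ', s', hC⟩ := hN (H.subgroupOf f.ker) hfg' hne'
  have hmem : ∀ x : G, ∀ hx : x ∈ f.ker, (⟨x, hx⟩ : f.ker) ∈ H.subgroupOf f.ker ↔ x ∈ H := by
    intro x hx
    rw [Subgroup.mem_subgroupOf]
  refine ⟨N'.map f.ker.subtype, fun x => if h : x ∈ f.ker then χ' ⟨x, h⟩ else 0, (s' : G), ?_, ?_, ?_, ?_⟩
  · intro x hx y hy
    have h1 := hle hx
    have h2 := hle hy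
    have h3 : x * y ∈ f.ker := f.ker.mul_mem h1 h2
    show (if h : x * y ∈ f.ker then χ' ⟨x * y, h⟩ else 0) = (if h : x ∈ f.ker then χ' ⟨x, h⟩ else 0) +
      (if h : y ∈ f.ker then χ' ⟨y, h⟩ else 0)
    rw [dif_pos h1, dif_pos h2, dif_pos h3]
    exact hC.mul ⟨x, h1⟩ ((hmem x h1).2 hx) ⟨y, h2⟩ ((hmem y h2).2 hy)
  · intro x
    show x ∈ N'.map f.ker.subtype ↔ x ∈ H ∧ (if h : x ∈ f.ker then χ' ⟨x, h⟩ else 0) = 0
    constructor
    · intro hx
      obtain ⟨y, hy, rfl⟩ := Subgroup.mem_map.1 hx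
      have h1 := (hC.ker y).1 hy
      refine ⟨(hmem y.1 y.2).1 h1.1, ?_⟩
      have h2 : f.ker.subtype y ∈ f.ker := y.2
      rw [dif_pos h2]
      exact h1.2
    · rintro ⟨h1, h2⟩
      have h3 := hle h1
      rw [dif_pos h3] at h2
      exact Subgroup.mem_map.2 ⟨⟨x, h3⟩, (hC.ker _).2 ⟨(hmem x h3).2 h1, h2⟩, rfl⟩
  · exact (hmem s'.1 s'.2).1 hC.mem
  · have h2 : (s' : G) ∈ f.ker := s'.2
    show (if h : (s' : G) ∈ f.ker then χ' ⟨s', h⟩ else 0) = 1
    rw [dif_pos h2]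
    exact hC.one

theorem li_ext {G Q : Type} [Group G] [Group Q] (f : G →* Q) (hN : LocInd f.ker)
    (hQ : LocInd Q) : LocInd G := by
  intro H hfg hne
  by_cases hm : H.map f = ⊥
  · exact GLi_ker f hN H hfg hne ((Subgroup.map_eq_bot_iff _).1 hm)
  · exact GLi_img f hQ H hfg hm

end SingerBO
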