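import Mathlib
import Pool.Agent.Lib_MP_394d50_pb.UMain
import Pool.Agent.Lib_MP_394d50_pb.EDefs

/-!
# Piece PO-U3: the action on the coefficients (about 150 lines)

* `vfe_conj`: for an automorphism `c` of the group, `DH (t.comp c) H = DH t (H.map c)` (the generating sets are the same), and
  the conditions for `t.comp c`, `H`, `F`, `d` are those of `t`, `H.map c`, `F.image c`, `d ∘ c⁻¹` (`vfe_left_idx` with `n = c`, `s = F`).
* `exists_tw`: `α g` from `exists_hom` for `t` and `t' = t.comp (MulAut.conjNormal g)` (a `MulEquiv`, `.toMonoidHom`), `O' = O`. `mul`, `one`, `ker`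
  from `hom_unique` (for `ker`: conjugation by a unit is a ring homomorphism; `conjNormal n m = n m n⁻¹` for `n ∈ N`).
-/

namespace SingerBO

private theorem dh_comp_utw {G E : Type} [Group G] [DivisionRing E] (t : G →* Eˣ) (c : G ≃* G)
    (H : Subgroup G) : DH (t.comp c.toMonoidHom) H = DH t (H.map c.toMonoidHom) := by
  unfold DH
  congr 1
  ext x
  constructor
  · rintro ⟨h, hh, rfl⟩
    exact ⟨c h, Subgroup.mem_map_of_mem c.toMonoidHom hh, rfl⟩
  · rintro ⟨k, hk, rfl⟩
    obtain ⟨h, hh, rfl⟩ := Subgroup.mem_map.1 hk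
    exact ⟨h, hh, rfl⟩

private theorem mem_map_utw {G : Type} [Group G] (c : G ≃* G) {H : Subgroup G} {x : G}
    (h : c x ∈ H.map c.toMonoidHom) : x ∈ H := by
  obtain ⟨y, hy, he⟩ := Subgroup.mem_map.1 h
  rwa [← c.injective he]

theorem vfe_conj {G E : Type} [Group G] [DivisionRing E] {O : Subring E} {t : G →* Eˣ}
    (hF : VFE O t) (c : G ≃* G) : VFE O (t.comp c.toMonoidHom) := by
  refine ⟨fun g => hF.mem (c g), ?_, ?_⟩
  · intro H F d h1 h2 h3
    rw [dh_comp_utw] at h2
    refine vfe_left_idx hF (H.map c.toMonoidHom) F c d ?_ h2 h3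
    intro i hi j hj hij
    rw [← map_inv, ← map_mul] at hij
    exact h1 i hi j hj (mem_map_utw c hij)
  · intro H F d h1 h2 h3
    rw [dh_comp_utw] at h2
    refine vfe_right_idx hF (H.map c.toMonoidHom) F c d ?_ h2 h3
    intro i hi j hj hij
    rw [← map_inv, ← map_mul] at hij
    exact h1 i hi j hj (mem_map_utw c hij)

/-- Conjugation by a unit. -/
private def conj_utw {E : Type} [DivisionRing E] (u : Eˣ) : E →+* E where
  toFun x := (u : E) * x * ((u⁻¹ : Eˣ) : E)
  map_one' := by rw [mul_one, Units.mul_inv]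
  map_zero' := by rw [mul_zero, zero_mul]
  map_add' x y := by rw [mul_add, add_mul]
  map_mul' x y := by
    have h : ((u⁻¹ : Eˣ) : E) * (u : E) = 1 := Units.inv_mul u
    calc (u : E) * (x * y) * ((u⁻¹ : Eˣ) : E)
        = (u : E) * x * 1 * y * ((u⁻¹ : Eˣ) : E) := by rw [mul_one, mul_assoc (u : E) x y]
      _ = _ := by rw [← h]; simp only [mul_assoc]

theorem exists_tw {G E : Type} [Group G] [DivisionRing E] {N : Subgroup G} [N.Normal]
    {O : Subring E} {t : N →* Eˣ} (hR : VR O) (hF : VFE O t) (hLI : LocInd N)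
    (hg : ∀ x : E, x ∈ DH t ⊤) : ∃ α : G → E →+* E, Tw O t α := by
  have h1 : ∀ g : G, ∃ φ : E →+* E,
      (∀ n, φ ((t n : Eˣ) : E) = ((t (MulAut.conjNormal g n) : Eˣ) : E)) ∧ ∀ x, φ x ∈ O ↔ x ∈ O :=
    fun g => exists_hom hR hR hF (vfe_conj hF (MulAut.conjNormal g)) hLI hg
  choose α hα hO using h1
  refine ⟨α, ?_, ?_, hα, ?_, fun g x hx => (hO g x).2 hx⟩
  · intro g h x
    refine hom_unique hg (α (g * h)) ((α g).comp (α h)) (fun n => ?_) x
    rw [RingHom.comp_apply, hα, hα, hα, map_mul, MulAut.mul_apply]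
  · intro x
    refine hom_unique hg (α 1) (RingHom.id E) (fun n => ?_) x
    rw [hα, map_one, MulAut.one_apply, RingHom.id_apply]
  · intro n x
    refine hom_unique hg (α n) (conj_utw (t n)) (fun m => ?_) x
    rw [hα, MulAut.conjNormal_val, MulAut.conj_apply, map_mul, map_mul, map_inv]
    rfl

end SingerBO
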