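import Mathlib
import Pool.Agent.Lib_MP_394d50_pb.ELeft
import Pool.Agent.Lib_MP_394d50_pb.ERight

/-!
# The extension is a valued free embedding


-/

namespace SingerBO

open MN

variable {G V E L : Type} [Group G] [Group V] [LinearOrder V] [MulLeftMono V] [MulRightMono V]
  {f : G →* V} [DivisionRing E] [DivisionRing L] {O : Subring E} {t : f.ker →* Eˣ}
  {α : G → E →+* E}

theorem tt_vfe (hR : VR O) (hF : VFE O t) (hT : Tw O t α)
    (ι : SS (gr_GA f hR hT hF.mem ⊤) →+* L) (hι : Function.Injective ι) (hV : VR ι.range)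
    (hL : ∀ x : L, ∃ (j : ℕ) (F : SS (gr_GA f hR hT hF.mem ⊤)), 2 ^ j * x = ι F) :
    VFE ι.range (TT hR hT hF.mem ι) where
  mem g := ⟨_, rfl⟩
  left := tt_left hR hF hT ι hι hV hL
  right := tt_right hR hF hT ι hι hV hL

end SingerBO
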