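import Mathlib
import Pool.Agent.Lib_MP_394d50_pb.EFree
import Pool.Agent.Lib_MP_394d50_pb.UTw
import Pool.Agent.Lib_MP_394d50_bo.BInd

/-!
# Piece PO-G1c: extensions, valued free embeddings (about 60 lines)

* `fe_ext`: `hr.lin` (BInd.lean) gives `LinearOrder Q`, with `MulLeftMono`, `MulRightMono` (see `locInd_bord`); `exists_tw`, `exists_frac`,
  `tt_vfe`, `vfe_sub`.
-/

namespace SingerBO



theorem fe_ext {G Q : Type} [Group G] [Group Q] (f : G →* Q) {r : Q → Q → Prop} (hr : BOrd r)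
    (h : Good f.ker) : ∃ (E : Type) (_ : DivisionRing E) (O : Subring E) (t : G →* Eˣ),
      VR O ∧ VFE O t ∧ ∀ x : E, x ∈ DH t ⊤ := by
  let lo : LinearOrder Q := hr.lin
  have : MulLeftMono Q := ⟨by
    rintro g x y (rfl | h)
    · exact Or.inl rfl
    · exact Or.inr (hr.left g _ _ h)⟩
  have : MulRightMono Q := ⟨by
    rintro g x y (rfl | h)
    · exact Or.inl rfl
    · exact Or.inr (hr.right g _ _ h)⟩
  obtain ⟨E, iE, O, t, hR, hF, hg⟩ := h.fe
  obtain ⟨α, hT⟩ := exists_tw hR hF h.li hg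
  obtain ⟨L, iL, ι, h1, h2, h3⟩ := exists_frac (gr_GA f hR hT hF.mem ⊤)
  exact vfe_sub h2 (tt_vfe hR hF hT ι h1 h2 h3)

end SingerBO
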