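import Mathlib
import Pool.Agent.Lib_MP_394d50_pb.VDefs

/-!
# Piece PO-G1b: extensions of left ordered groups (about 60 lines)

* `lo_ext`: `x < y` iff `r (f x) (f y)`, or `f x = f y` and `r' 1 (x⁻¹ * y)` (in `f.ker`). Transitivity: `x⁻¹ z = (x⁻¹ y) (y⁻¹ z)`, `r' 1 a`,
  `r' 1 b` give `r' a (a b)`, so `r' 1 (a b)`. Totality: if `f x = f y`, `x ≠ y`, then `r' 1 (x⁻¹ y)` or `r' (x⁻¹ y) 1`, and the second gives
  `r' 1 (y⁻¹ x)` (`left`).
-/

namespace SingerBO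

private theorem mem_ker_glo {G Q : Type} [Group G] [Group Q] (f : G →* Q) {x y : G} (h : f x = f y) :
    x⁻¹ * y ∈ f.ker := by
  rw [MonoidHom.mem_ker, map_mul, map_inv, h, inv_mul_cancel]

theorem lo_ext {G Q : Type} [Group G] [Group Q] (f : G →* Q) {r : Q → Q → Prop} (hr : BOrd r)
    (hN : ∃ r' : f.ker → f.ker → Prop, LO r') : ∃ r : G → G → Prop, LO r := by
  obtain ⟨r', h'⟩ := hN
  refine ⟨fun x y => r (f x) (f y) ∨ (f x = f y ∧ ∃ h : x⁻¹ * y ∈ f.ker, r' 1 ⟨x⁻¹ * y, h⟩),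
    ⟨?_, ?_, ?_, ?_⟩⟩
  · rintro x (h | ⟨_, h1, h2⟩)
    · exact hr.irrefl _ h
    · have h3 : (⟨x⁻¹ * x, h1⟩ : f.ker) = 1 := Subtype.ext (inv_mul_cancel x)
      rw [h3] at h2
      exact h'.irrefl _ h2
  · rintro x y z (h | ⟨h1, h2, h3⟩) (g | ⟨g1, g2, g3⟩)
    · exact Or.inl (hr.trans _ _ _ h g)
    · rw [g1] at h
      exact Or.inl h
    · rw [← h1] at g
      exact Or.inl g
    · refine Or.inr ⟨h1.trans g1, mem_ker_glo f (h1.trans g1), ?_⟩
      have e1 := h'.left ⟨x⁻¹ * y, h2⟩ _ _ g3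
      rw [mul_one] at e1
      have e2 := h'.trans _ _ _ h3 e1
      have e3 : (⟨x⁻¹ * y, h2⟩ : f.ker) * ⟨y⁻¹ * z, g2⟩ = ⟨x⁻¹ * z, mem_ker_glo f (h1.trans g1)⟩ := by
        apply Subtype.ext
        show x⁻¹ * y * (y⁻¹ * z) = x⁻¹ * z
        group
      rwa [e3] at e2
  · intro x y hxy
    by_cases h : f x = f y
    · have h1 : (1 : f.ker) ≠ ⟨x⁻¹ * y, mem_ker_glo f h⟩ := by
        intro h2
        have h3 := congrArg Subtype.val h2
        have h4 : (1 : G) = x⁻¹ * y := h3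
        exact hxy (inv_mul_eq_one.1 h4.symm)
      rcases h'.total _ _ h1 with h2 | h2
      · exact Or.inl (Or.inr ⟨h, _, h2⟩)
      · refine Or.inr (Or.inr ⟨h.symm, mem_ker_glo f h.symm, ?_⟩)
        have h3 := h'.left ⟨y⁻¹ * x, mem_ker_glo f h.symm⟩ _ _ h2
        rw [mul_one] at h3
        have e3 : (⟨y⁻¹ * x, mem_ker_glo f h.symm⟩ : f.ker) * ⟨x⁻¹ * y, mem_ker_glo f h⟩ = 1 := by
          apply Subtype.ext
          show y⁻¹ * x * (x⁻¹ * y) = 1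
          group
        rwa [e3] at h3
    · rcases hr.total _ _ h with h2 | h2
      · exact Or.inl (Or.inl h2)
      · exact Or.inr (Or.inl h2)
  · rintro g x y (h | ⟨h1, h2, h3⟩)
    · refine Or.inl ?_
      rw [map_mul, map_mul]
      exact hr.left _ _ _ h
    · have h4 : f (g * x) = f (g * y) := by rw [map_mul, map_mul, h1]
      refine Or.inr ⟨h4, mem_ker_glo f h4, ?_⟩
      have e3 : (⟨(g * x)⁻¹ * (g * y), mem_ker_glo f h4⟩ : f.ker) = ⟨x⁻¹ * y, h2⟩ := by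
        apply Subtype.ext
        show (g * x)⁻¹ * (g * y) = x⁻¹ * y
        group
      rw [e3]
      exact h3

end SingerBO
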