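import Mathlib
import Pool.Agent.Lib_MP_394d50_pb.VFree

/-!
# Piece PO-G1d: the trivial group (about 90 lines)

* `good_triv`: `E = ℚ`, `O = {r | Odd r.den}` (`Rat.add_den_dvd`, `Rat.mul_den_dvd`; a divisor of an odd number is odd), `t = 1`. `VFE`: all
  elements of `F` are equal (`G` is trivial), the sum has at most one term. Every `x : ℚ` is in `DH t ⊤` (a subfield of `ℚ`:
  `Subfield` contains all rationals, `SubfieldClass.ratCast_mem`).

`LocInd`: every subgroup is `⊥`. `LO`: the empty relation.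
-/

namespace SingerBO



private theorem odd_of_dvd_GT {a b : ℕ} (h : a ∣ b) (hb : Odd b) : Odd a := by
  obtain ⟨c, rfl⟩ := h
  exact (Nat.odd_mul.mp hb).1

/-- the rational numbers with odd denominators -/
private def OQ_GT : Subring ℚ where
  carrier := {r | Odd r.den}
  mul_mem' := by
    intro a b ha hb
    exact odd_of_dvd_GT (Rat.mul_den_dvd a b) (ha.mul hb)
  one_mem' := by
    show Odd (1 : ℚ).den
    rw [Rat.den_one]
    exact odd_one
  add_mem' := by
    intro a b ha hb
    exact odd_of_dvd_GT (Rat.add_den_dvd a b) (ha.mul hb)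
  zero_mem' := by
    show Odd (0 : ℚ).den
    rw [Rat.den_zero]
    exact odd_one
  neg_mem' := by
    intro a ha
    show Odd (-a).den
    rw [Rat.neg_den]
    exact ha

private theorem div_mem_GT (m n : ℤ) (hn : Odd n) : (m / n : ℚ) ∈ OQ_GT := by
  show Odd (m / n : ℚ).den
  have h1 := Rat.den_dvd m n
  obtain ⟨c, hc⟩ := h1
  rw [hc] at hn
  have h2 := (Int.odd_mul.mp hn).1
  exact_mod_cast h2

private theorem vr_GT : VR OQ_GT where
  half := by
    intro h
    have h1 : Odd ((2 : ℚ)⁻¹).den := h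
    have h2 : ((2 : ℚ)⁻¹).den = 2 := by
      have h3 := Rat.inv_natCast_den (a := 2)
      simpa using h3
    rw [h2] at h1
    exact absurd h1 (by decide)
  fac := by
    intro x hx
    have hnum : x.num.natAbs ≠ 0 := by
      rw [Ne, Int.natAbs_eq_zero, Rat.num_eq_zero]
      exact hx
    obtain ⟨a, m, hm, ha⟩ := Nat.exists_eq_two_pow_mul_odd hnum
    obtain ⟨b, n, hn, hb⟩ := Nat.exists_eq_two_pow_mul_odd x.den_nz
    obtain ⟨s, hs, hs1⟩ : ∃ s : ℤ, Odd s ∧ x.num = 2 ^ a * s := by
      have hm' : Odd (m : ℤ) := by exact_mod_cast hm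
      rcases Int.natAbs_eq x.num with h | h
      · refine ⟨m, hm', ?_⟩
        rw [h, ha]
        push_cast
        ring
      · refine ⟨-m, hm'.neg, ?_⟩
        rw [h, ha]
        push_cast
        ring
    have hn' : Odd (n : ℤ) := by exact_mod_cast hn
    have hs0 : (s : ℚ) ≠ 0 := by
      have : s ≠ 0 := by
        rintro rfl
        exact absurd hs (by decide)
      exact_mod_cast this
    have hn0 : (n : ℚ) ≠ 0 := by
      have : n ≠ 0 := by
        rintro rfl
        exact absurd hn (by decide)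
      exact_mod_cast this
    refine ⟨(a : ℤ) - b, (s / (n : ℤ) : ℚ), div_mem_GT s n hn', ?_, ?_⟩
    · rw [inv_div]
      have h1 := div_mem_GT (n : ℤ) s hs
      exact h1
    · have h2 : (2 : ℚ) ≠ 0 := two_ne_zero
      have h3 : x = (x.num : ℚ) / x.den := (Rat.num_div_den x).symm
      have h4 : (x.num : ℚ) = 2 ^ a * s := by exact_mod_cast hs1
      have h5 : (x.den : ℚ) = 2 ^ b * n := by exact_mod_cast hb
      rw [h3, h4, h5, zpow_sub₀ h2, zpow_natCast, zpow_natCast]
      push_cast
      field_simp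

theorem good_triv {G : Type} [Group G] (h : ∀ x : G, x = 1) : Good G := by
  refine ⟨?_, ⟨fun _ _ => False, ⟨fun _ h => h, fun _ _ _ h _ => h, fun x y hxy => ?_,
    fun _ _ _ h => h⟩⟩, ⟨ℚ, inferInstance, OQ_GT, 1, vr_GT, ⟨fun g => ?_, ?_, ?_⟩, fun x => ?_⟩⟩
  · intro H _ hH
    exact absurd ((Subgroup.eq_bot_iff_forall H).mpr fun x _ => h x) hH
  · exact absurd ((h x).trans (h y).symm) hxy
  · show (1 : ℚ) ∈ OQ_GT
    exact one_mem _
  · intro H F d _ _ hs g hg
    have hF : F = {g} := Finset.eq_singleton_iff_unique_mem.mpr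
      ⟨hg, fun x _ => (h x).trans (h g).symm⟩
    rw [hF, Finset.sum_singleton] at hs
    have h1 : (((1 : G →* ℚˣ) g : ℚˣ) : ℚ) * d g = d g := one_mul _
    rwa [h1] at hs
  · intro H F d _ _ hs g hg
    have hF : F = {g} := Finset.eq_singleton_iff_unique_mem.mpr
      ⟨hg, fun x _ => (h x).trans (h g).symm⟩
    rw [hF, Finset.sum_singleton] at hs
    have h1 : d g * (((1 : G →* ℚˣ) g : ℚˣ) : ℚ) = d g := mul_one _
    rwa [h1] at hs
  · have h1 := SubfieldClass.ratCast_mem (DH (1 : G →* ℚˣ) ⊤) x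
    rwa [Rat.cast_id] at h1

end SingerBO
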