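import Mathlib
import Pool.Agent.Lib_MP_394d50_pb.GLi
import Pool.Agent.Lib_MP_394d50_pb.GLo
import Pool.Agent.Lib_MP_394d50_pb.GFe
import Pool.Agent.Lib_MP_394d50_pb.GTriv

/-!
# Extensions of good groups by bi-orderable groups


-/

namespace SingerBO



theorem good_ext {G Q : Type} [Group G] [Group Q] (f : G →* Q) {r : Q → Q → Prop} (hr : BOrd r)
    (h : Good f.ker) : Good G where
  li := li_ext f h.li (locInd_bord hr)
  lo := lo_ext f hr h.lo
  fe := fe_ext f hr h

end SingerBO
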