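import Mathlib
import Pool.Agent.Lib_MP_394d50_pb.VDefs
import Pool.Agent.Lib_MP_394d50_vs.VBase

/-!
# Piece PO-P2: an order of the vertices which is invariant on the simplices (about 110 lines)

The proof of `exists_ordInv` in `Lib_MP_394d50_bo/BPOrd.lean` uses only the left invariance of the order; copy it, with the linear order
`BOrd.lin` of `BInd.lean` written for `LO`.
-/

namespace SingerBO

open SingerVS
open scoped Pointwise

/-- The linear order of a left ordered group. -/
private noncomputable abbrev loLin {V : Type} [Group V] {r : V → V → Prop} (hr : LO r) :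
    LinearOrder V where
  le := fun x y => x = y ∨ r x y
  lt := r
  le_refl := fun x => Or.inl rfl
  le_trans := by
    rintro x y z (rfl | h1) (rfl | h2)
    · exact Or.inl rfl
    · exact Or.inr h2
    · exact Or.inr h1
    · exact Or.inr (hr.trans _ _ _ h1 h2)
  lt_iff_le_not_ge := by
    intro x y
    constructor
    · intro h
      refine ⟨Or.inr h, ?_⟩
      rintro (rfl | h2)
      · exact hr.irrefl _ h
      · exact hr.irrefl _ (hr.trans _ _ _ h h2)
    · rintro ⟨rfl | h, h2⟩
      · exact absurd (Or.inl rfl) h2
      · exact h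
  le_antisymm := by
    rintro x y (rfl | h1) (h | h2)
    · rfl
    · rfl
    · exact h.symm
    · exact absurd (hr.trans _ _ _ h1 h2) (hr.irrefl _)
  le_total := by
    intro x y
    by_cases h : x = y
    · exact Or.inl (Or.inl h)
    · rcases hr.total x y h with h1 | h1
      · exact Or.inl (Or.inr h1)
      · exact Or.inr (Or.inr h1)
  toDecidableLE := Classical.decRel _

theorem exists_ordInv_lo {K P : Type} [Group K] [DecidableEq P] [MulAction K P]
    {X : Set (Finset P)} (hX : FreeCx K X) {r : K → K → Prop} (hr : LO r) :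
    ∃ lo : LinearOrder P, ∀ h : K, ∀ σ ∈ X, ∀ x ∈ σ, ∀ y ∈ σ, lo.lt x y → lo.lt (h • x) (h • y) := by
  classical
  have hex : ∀ p : P, ∃ g : K,
      g • (Quotient.out (Quotient.mk (MulAction.orbitRel K P) p)) = p := by
    intro p
    have h1 : (MulAction.orbitRel K P).r
        (Quotient.out (Quotient.mk (MulAction.orbitRel K P) p)) p :=
      Quotient.mk_out (s := MulAction.orbitRel K P) p
    obtain ⟨g, hg⟩ := (MulAction.orbitRel K P).symm' h1
    exact ⟨g, hg⟩
  choose el hel using hex
  -- the class of a translate
  have hcl : ∀ (h : K) (p : P), Quotient.mk (MulAction.orbitRel K P) (h • p) =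
      Quotient.mk (MulAction.orbitRel K P) p := by
    intro h p
    exact Quotient.sound ⟨h, rfl⟩
  have helm : ∀ (h : K) (p : P), {p} ∈ X → el (h • p) = h * el p := by
    intro h p hp
    have h1 := hel (h • p)
    rw [hcl h p] at h1
    have h2 : {Quotient.out (Quotient.mk (MulAction.orbitRel K P) p)} ∈ X := by
      have h3 := hX.inv (el p)⁻¹ _ hp
      rw [Finset.smul_finset_singleton] at h3
      have h4 : (el p)⁻¹ • p = Quotient.out (Quotient.mk (MulAction.orbitRel K P) p) := by
        rw [inv_smul_eq_iff]
        exact (hel p).symm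
      rwa [h4] at h3
    refine hX.vfree h2 ?_
    rw [h1, mul_smul, hel p]
  let _ : LinearOrder K := loLin hr
  let _ : LinearOrder (Quotient (MulAction.orbitRel K P)) := linearOrderOfSTO WellOrderingRel
  let f : P → Quotient (MulAction.orbitRel K P) ×ₗ K := fun p =>
    toLex (Quotient.mk (MulAction.orbitRel K P) p, el p)
  have hf : Function.Injective f := by
    intro x y hxy
    have h1 : (Quotient.mk (MulAction.orbitRel K P) x, el x) =
        (Quotient.mk (MulAction.orbitRel K P) y, el y) := hxy
    have h2 := congrArg Prod.fst h1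
    have h3 : el x = el y := congrArg Prod.snd h1
    rw [← hel x, ← hel y, h3]
    exact congrArg (fun z => el y • Quotient.out z) h2
  refine ⟨LinearOrder.lift' f hf, ?_⟩
  intro h σ hσ x hx y hy hxy
  have hx1 := hX.single_mem hσ hx
  have hy1 := hX.single_mem hσ hy
  have h1 : f x < f y := hxy
  show f (h • x) < f (h • y)
  rw [Prod.Lex.lt_iff] at h1 ⊢
  show Quotient.mk (MulAction.orbitRel K P) (h • x) < Quotient.mk (MulAction.orbitRel K P) (h • y) ∨
    Quotient.mk (MulAction.orbitRel K P) (h • x) = Quotient.mk (MulAction.orbitRel K P) (h • y) ∧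
      el (h • x) < el (h • y)
  rw [hcl, hcl, helm h x hx1, helm h y hy1]
  rcases h1 with h1 | ⟨h1, h2⟩
  · exact Or.inl h1
  · exact Or.inr ⟨h1, hr.left _ _ _ h2⟩

end SingerBO
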