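import Mathlib
import Pool.Agent.Lib_MP_394d50_pb.VFree
import Pool.Agent.Lib_MP_394d50_pb.WDefs

/-!
# Piece PO-P1a: the residue division ring (about 180 lines)

* `res_div`: `R1 = Rk O 1 = O / 2 O`, `π = mk2 O 1`. `π x = 0 ↔ Dv O 1 (x : E)` (`mk2_eq_zero`: `x = 2 * y`, `y ∈ O`). It is a division ring:
  `DivisionRing.ofIsUnitOrEqZero` (`x ∈ O`, `π x ≠ 0`, so `¬ Dv O 1 x`, `x⁻¹ ∈ O` (`inv_mem_of_not_dv`)), `Nontrivial` (`not_dv_one`); the ring structure of the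
  division ring is the given one, so `π` is still a ring homomorphism.
* `exists_tb`: `tb g = π ⟨t g, hF.mem g⟩`, a unit with inverse `π ⟨t g⁻¹, _⟩`.
* `lift_DH`: every element of `DH tb H` is `π x` with `(x : E) ∈ DH t H` (`Subfield.closure_induction`; inverse of `π x ≠ 0`: `x⁻¹ ∈ O`, and `π x⁻¹` is the
  inverse; `0⁻¹ = 0`).
* `feb_tb`: lift the `d g` (choose), `∑ tb g * d g = 0` means `Dv O 1 (∑ t g * d' g)`, `VFE.left`; so `d g = π (d' g) = 0`. `right` the same.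
-/

namespace SingerBO

variable {G E : Type} [Group G] [DivisionRing E] {O : Subring E} {t : G →* Eˣ}

private theorem mk2_iff_PRes (hR : VR O) (x : O) : mk2 O 1 x = 0 ↔ Dv O 1 (x : E) := by
  have h2 : (2 : E) ≠ 0 := hR.two_ne
  have h22 : ((2 : O) : E) = 2 := map_ofNat O.subtype 2
  rw [mk2_eq_zero]
  unfold Dv
  constructor
  · rintro ⟨y, rfl⟩
    have h1 : ((2 : E) ^ (-1 : ℤ)) * (((2 : O) ^ 1 * y : O) : E) = (y : E) := by
      push_cast
      rw [pow_one, h22, zpow_neg_one, inv_mul_cancel_left₀ h2]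
    rw [h1]
    exact y.2
  · intro h
    refine ⟨⟨_, h⟩, Subtype.ext ?_⟩
    push_cast
    rw [pow_one, h22, zpow_neg_one, mul_inv_cancel_left₀ h2]

private theorem unit_PRes (hR : VR O) {R1 : Type} [Ring R1] (π : O →+* R1) (x : O)
    (hx : ¬ Dv O 1 (x : E)) : ∃ y : O, (y : E) = (x : E)⁻¹ ∧ π x * π y = 1 ∧ π y * π x = 1 := by
  have h0 : (x : E) ≠ 0 := by
    intro h
    apply hx
    rw [h]
    exact dv_zero 1
  refine ⟨⟨(x : E)⁻¹, inv_mem_of_not_dv hR hx x.2⟩, rfl, ?_, ?_⟩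
  · rw [← map_mul, ← map_one π]
    congr 1
    exact Subtype.ext (mul_inv_cancel₀ h0)
  · rw [← map_mul, ← map_one π]
    congr 1
    exact Subtype.ext (inv_mul_cancel₀ h0)

theorem res_div (hR : VR O) : ∃ (R1 : Type) (_ : DivisionRing R1) (π : O →+* R1),
    Function.Surjective π ∧ ∀ x : O, π x = 0 ↔ Dv O 1 (x : E) := by
  classical
  have hnt : Nontrivial (Rk O 1) := by
    refine ⟨1, 0, fun h => ?_⟩
    have h1 : mk2 O 1 (1 : O) = 0 := by rw [map_one]; exact h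
    rw [mk2_iff_PRes hR] at h1
    exact not_dv_one hR h1
  have hu : ∀ a : Rk O 1, IsUnit a ∨ a = 0 := by
    intro a
    obtain ⟨x, rfl⟩ := Ideal.Quotient.mk_surjective a
    by_cases hx : Dv O 1 (x : E)
    · exact Or.inr ((mk2_iff_PRes hR x).2 hx)
    · obtain ⟨y, -, h1, h2⟩ := unit_PRes hR (mk2 O 1) x hx
      exact Or.inl ⟨⟨_, _, h1, h2⟩, rfl⟩
  exact ⟨Rk O 1, DivisionRing.ofIsUnitOrEqZero hu, mk2 O 1, Ideal.Quotient.mk_surjective,
    fun x => mk2_iff_PRes hR x⟩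

theorem exists_tb {R1 : Type} [DivisionRing R1] (hF : VFE O t) (π : O →+* R1) :
    ∃ tb : G →* R1ˣ, ∀ g, ((tb g : R1ˣ) : R1) = π ⟨((t g : Eˣ) : E), hF.mem g⟩ := by
  let tO : G →* O :=
    { toFun := fun g => ⟨((t g : Eˣ) : E), hF.mem g⟩
      map_one' := Subtype.ext (by simp)
      map_mul' := fun g h => Subtype.ext (by simp) }
  exact ⟨((π : O →* R1).comp tO).toHomUnits, fun g => rfl⟩

theorem lift_DH {R1 : Type} [DivisionRing R1] (hR : VR O) (hF : VFE O t) (π : O →+* R1)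
    (hπ : ∀ x : O, π x = 0 ↔ Dv O 1 (x : E)) (tb : G →* R1ˣ)
    (htb : ∀ g, ((tb g : R1ˣ) : R1) = π ⟨((t g : Eˣ) : E), hF.mem g⟩) (H : Subgroup G) {y : R1}
    (hy : y ∈ DH tb H) : ∃ x : O, (x : E) ∈ DH t H ∧ π x = y := by
  refine Subfield.closure_induction (p := fun y _ => ∃ x : O, (x : E) ∈ DH t H ∧ π x = y)
    ?_ ?_ ?_ ?_ ?_ ?_ hy
  · rintro y ⟨h, hh, rfl⟩
    exact ⟨⟨((t h : Eˣ) : E), hF.mem h⟩, mem_DH t hh, (htb h).symm⟩
  · exact ⟨1, one_mem _, map_one _⟩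
  · rintro y z - - ⟨a, ha, rfl⟩ ⟨b, hb, rfl⟩
    exact ⟨a + b, add_mem ha hb, map_add _ _ _⟩
  · rintro y - ⟨a, ha, rfl⟩
    exact ⟨-a, neg_mem ha, map_neg _ _⟩
  · rintro y - ⟨a, ha, rfl⟩
    by_cases h0 : Dv O 1 (a : E)
    · refine ⟨0, zero_mem _, ?_⟩
      rw [(hπ a).2 h0, inv_zero, map_zero]
    · obtain ⟨b, hb, h1, h2⟩ := unit_PRes hR π a h0
      refine ⟨b, ?_, eq_inv_of_mul_eq_one_left h2⟩
      rw [hb]
      exact inv_mem ha
  · rintro y z - - ⟨a, ha, rfl⟩ ⟨b, hb, rfl⟩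
    exact ⟨a * b, mul_mem ha hb, map_mul _ _ _⟩

theorem feb_tb {R1 : Type} [DivisionRing R1] (hR : VR O) (hF : VFE O t) (π : O →+* R1)
    (hπ : ∀ x : O, π x = 0 ↔ Dv O 1 (x : E)) (tb : G →* R1ˣ)
    (htb : ∀ g, ((tb g : R1ˣ) : R1) = π ⟨((t g : Eˣ) : E), hF.mem g⟩) : FEb tb := by
  classical
  have lift : ∀ (H : Subgroup G) (F : Finset G) (d : G → R1), (∀ g ∈ F, d g ∈ DH tb H) →
      ∃ d' : G → O, ∀ g ∈ F, (d' g : E) ∈ DH t H ∧ π (d' g) = d g := by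
    intro H F d hd
    have h1 : ∀ g, ∃ x : O, g ∈ F → (x : E) ∈ DH t H ∧ π x = d g := by
      intro g
      by_cases hg : g ∈ F
      · obtain ⟨x, hx⟩ := lift_DH hR hF π hπ tb htb H (hd g hg)
        exact ⟨x, fun _ => hx⟩
      · exact ⟨0, fun h => absurd h hg⟩
    choose d' hd' using h1
    exact ⟨d', hd'⟩
  constructor
  · intro H F d hF1 hd hs g hg
    obtain ⟨d', hd'⟩ := lift H F d hd
    have h1 : π (∑ g ∈ F, (⟨((t g : Eˣ) : E), hF.mem g⟩ : O) * d' g) = 0 := by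
      rw [map_sum, ← hs]
      refine Finset.sum_congr rfl fun g hg => ?_
      rw [map_mul, htb, (hd' g hg).2]
    rw [hπ] at h1
    push_cast at h1
    have h2 := hF.left H F (fun g => (d' g : E)) hF1 (fun g hg => ⟨(hd' g hg).1, (d' g).2⟩) h1 g hg
    rw [← (hd' g hg).2]
    exact (hπ _).2 h2
  · intro H F d hF1 hd hs g hg
    obtain ⟨d', hd'⟩ := lift H F d hd
    have h1 : π (∑ g ∈ F, d' g * (⟨((t g : Eˣ) : E), hF.mem g⟩ : O)) = 0 := by
      rw [map_sum, ← hs]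
      refine Finset.sum_congr rfl fun g hg => ?_
      rw [map_mul, htb, (hd' g hg).2]
    rw [hπ] at h1
    push_cast at h1
    have h2 := hF.right H F (fun g => (d' g : E)) hF1 (fun g hg => ⟨(hd' g hg).1, (d' g).2⟩) h1 g hg
    rw [← (hd' g hg).2]
    exact (hπ _).2 h2

end SingerBO
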