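import Mathlib
import Pool.Agent.Lib_MP_394d50_pb.PRes
import Pool.Agent.Lib_MP_394d50_bo.OPair

/-!
# Piece PO-P1b: the lifting property (about 160 lines)

Model: the proof of `exists_pair_ord` in `OPair.lean` (`ev_sub` and others are private there, copy them).
* `lift_tb`: let `Y` be a right inverse of `ev tb T` over `R1`. By `right_inverse` (OFeb.lean/OPair.lean) over `E` it suffices: `c : I → E` with
  `∑ i, c i * ev t (T i j) = 0` for all `j` is zero. Suppose not. Let `m` be the least valuation of the non-zero `c i` (`exists_vl`,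
  `Finset.exists_min_image`), `c' i = 2 ^ (-m) * c i ∈ O`, `¬ Dv O 1 (c' i₀)`. `ev t (T i j) ∈ O` and `π ⟨ev t (T i j), _⟩ = ev tb (T i j)` (`ev` is a finite
  sum; `map_sum`, `map_mul`, `map_intCast`, `htb`). So `∑ i, π (c' i) * ev tb (T i j) = 0`; multiply by `Y j i₀` on the right and sum over `j`:
  `π (c' i₀) = 0`, so `Dv O 1 (c' i₀)`, contradiction.
* `pair_of_vfe`: `res_div`, `exists_tb`, `feb_tb`, `fe_sub tb`: `D1 = DH tb ⊤`, `CharP D1 2` (`CharTwo.of_one_ne_zero_of_two_eq_zero`; `2 = π 2 = 0` in `R1`);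
  `D0 = E`, `t0 = t`, `CharZero E` (`VR.charZero`), `FE t` from `vfe_feb` and `hg`. `LiftP`: push the right inverse from `D1` to `R1`
  (`(DH tb ⊤).subtype`, `ev_sub`), `lift_tb`.
-/

namespace SingerBO

variable {G E : Type} [Group G] [DivisionRing E] {O : Subring E} {t : G →* Eˣ}

/-- The value in the valuation ring. -/
private noncomputable def evR_PLift (hF : VFE O t) (f : G →₀ ℤ) : O :=
  f.sum fun x n => (n : O) * ⟨((t x : Eˣ) : E), hF.mem x⟩

private theorem evR_coe_PLift (hF : VFE O t) (f : G →₀ ℤ) : ((evR_PLift hF f : O) : E) = ev t f := by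
  unfold evR_PLift ev
  rw [Finsupp.sum, Finsupp.sum]
  show O.subtype _ = _
  rw [map_sum]
  refine Finset.sum_congr rfl fun x _ => ?_
  rw [map_mul, map_intCast]
  rfl

private theorem evR_res_PLift {R1 : Type} [DivisionRing R1] (hF : VFE O t) (π : O →+* R1)
    (tb : G →* R1ˣ) (htb : ∀ g, ((tb g : R1ˣ) : R1) = π ⟨((t g : Eˣ) : E), hF.mem g⟩)
    (f : G →₀ ℤ) : π (evR_PLift hF f) = ev tb f := by
  unfold evR_PLift ev
  rw [Finsupp.sum, Finsupp.sum, map_sum]
  refine Finset.sum_congr rfl fun x _ => ?_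
  rw [map_mul, map_intCast, htb]

private theorem ev_sub_PLift {R1 : Type} [DivisionRing R1] (t : G →* R1ˣ)
    (t' : G →* (DH t ⊤)ˣ)
    (ht : ∀ g, (((t' g : (DH t ⊤)ˣ) : DH t ⊤) : R1) = ((t g : R1ˣ) : R1)) (f : G →₀ ℤ) :
    ((ev t' f : DH t ⊤) : R1) = ev t f := by
  unfold ev
  rw [Finsupp.sum, Finsupp.sum]
  show (DH t ⊤).subtype _ = _
  rw [map_sum]
  refine Finset.sum_congr rfl fun x _ => ?_
  rw [map_mul, map_intCast]
  show _ * (((t' x : (DH t ⊤)ˣ) : DH t ⊤) : R1) = _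
  rw [ht]

/-- Division by the least valuation. -/
private theorem common_PLift {I : Type} [Fintype I] (hR : VR O) (c : I → E) (hc : c ≠ 0) :
    ∃ (m : ℤ) (i₀ : I), (∀ i, 2 ^ m * c i ∈ O) ∧ ¬ Dv O 1 (2 ^ m * c i₀) := by
  classical
  obtain ⟨i₁, hi₁⟩ : ∃ i, c i ≠ 0 := by
    by_contra hn
    push Not at hn
    exact hc (funext hn)
  have hex : ∀ i, ∃ v : ℤ, c i ≠ 0 → ∀ k, Dv O k (c i) ↔ k ≤ v := by
    intro i
    by_cases h : c i = 0
    · exact ⟨0, fun h' => absurd h h'⟩
    · obtain ⟨v, hv⟩ := exists_vl hR h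
      exact ⟨v, fun _ => hv⟩
  choose v hv using hex
  obtain ⟨i₀, hi₀, hmin⟩ := Finset.exists_min_image (Finset.univ.filter fun i => c i ≠ 0) v
    ⟨i₁, Finset.mem_filter.mpr ⟨Finset.mem_univ _, hi₁⟩⟩
  rw [Finset.mem_filter] at hi₀
  refine ⟨-v i₀, i₀, fun i => ?_, fun h => ?_⟩
  · by_cases h : c i = 0
    · rw [h, mul_zero]
      exact O.zero_mem
    · exact (hv i h (v i₀)).2 (hmin i (Finset.mem_filter.mpr ⟨Finset.mem_univ _, h⟩))
  · have h1 := dv_scale hR (-v i₀) (1 + v i₀) (c i₀)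
    rw [add_neg_cancel_right] at h1
    have h2 := (hv i₀ hi₀.2 (1 + v i₀)).1 (h1.1 h)
    omega

theorem lift_tb {R1 : Type} [DivisionRing R1] (hR : VR O) (hF : VFE O t) (π : O →+* R1)
    (hπ : ∀ x : O, π x = 0 ↔ Dv O 1 (x : E)) (tb : G →* R1ˣ)
    (htb : ∀ g, ((tb g : R1ˣ) : R1) = π ⟨((t g : Eˣ) : E), hF.mem g⟩) : LiftP tb t := by
  classical
  intro I J _ _ _ T hT
  obtain ⟨Y, hY⟩ := hT
  obtain ⟨B, hB⟩ := right_inverse (Matrix.of fun i j => ev t (T i j)) (by
    intro c hc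
    by_contra hn
    obtain ⟨m, i₀, hm, hi₀⟩ := common_PLift hR c hn
    apply hi₀
    have hs : ∀ j, ∑ i, (⟨2 ^ m * c i, hm i⟩ : O) * evR_PLift hF (T i j) = 0 := by
      intro j
      apply Subtype.ext
      show O.subtype _ = 0
      rw [map_sum]
      have h1 : ∑ i, c i * ev t (T i j) = 0 := by
        have h2 := congrFun hc j
        rw [Matrix.vecMul, dotProduct] at h2
        exact h2
      calc ∑ i, O.subtype ((⟨2 ^ m * c i, hm i⟩ : O) * evR_PLift hF (T i j))
          = ∑ i, 2 ^ m * (c i * ev t (T i j)) := by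
            refine Finset.sum_congr rfl fun i _ => ?_
            rw [map_mul]
            show 2 ^ m * c i * ((evR_PLift hF (T i j) : O) : E) = _
            rw [evR_coe_PLift, mul_assoc]
        _ = 0 := by rw [← Finset.mul_sum, h1, mul_zero]
    have hr : ∀ j, ∑ i, π ⟨2 ^ m * c i, hm i⟩ * ev tb (T i j) = 0 := by
      intro j
      have h1 := congrArg π (hs j)
      rw [map_sum, map_zero] at h1
      rw [← h1]
      refine Finset.sum_congr rfl fun i _ => ?_
      rw [map_mul, evR_res_PLift hF π tb htb]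
    refine (hπ ⟨2 ^ m * c i₀, hm i₀⟩).1 ?_
    calc π ⟨2 ^ m * c i₀, hm i₀⟩ = ∑ i, π ⟨2 ^ m * c i, hm i⟩ * (if i = i₀ then 1 else 0) := by
          rw [Finset.sum_eq_single i₀]
          · rw [if_pos rfl, mul_one]
          · intro i _ hi
            rw [if_neg hi, mul_zero]
          · intro h
            exact absurd (Finset.mem_univ _) h
      _ = ∑ i, ∑ j, π ⟨2 ^ m * c i, hm i⟩ * (ev tb (T i j) * Y j i₀) := by
          refine Finset.sum_congr rfl fun i _ => ?_
          rw [← hY i i₀, Finset.mul_sum]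
      _ = ∑ j, (∑ i, π ⟨2 ^ m * c i, hm i⟩ * ev tb (T i j)) * Y j i₀ := by
          rw [Finset.sum_comm]
          refine Finset.sum_congr rfl fun j _ => ?_
          rw [Finset.sum_mul]
          refine Finset.sum_congr rfl fun i _ => ?_
          rw [mul_assoc]
      _ = 0 := by
          refine Finset.sum_eq_zero fun j _ => ?_
          rw [hr j, zero_mul])
  refine ⟨B, fun i i' => ?_⟩
  have h1 := congrFun (congrFun hB i) i'
  rw [Matrix.mul_apply, Matrix.one_apply] at h1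
  exact h1

/-- The two free embeddings. -/
theorem pair_of_vfe (hR : VR O) (hF : VFE O t) (hg : ∀ x : E, x ∈ DH t ⊤) :
    ∃ (D1 : Type) (_ : DivisionRing D1) (_ : CharP D1 2) (t1 : G →* D1ˣ)
      (D0 : Type) (_ : DivisionRing D0) (_ : CharZero D0) (t0 : G →* D0ˣ),
      FE t1 ∧ FE t0 ∧ LiftP t1 t0 := by
  classical
  obtain ⟨R1, iR, π, -, hπ⟩ := res_div hR
  obtain ⟨tb, htb⟩ := exists_tb hF π
  obtain ⟨t1, ht1, hF1⟩ := fe_sub tb (feb_tb hR hF π hπ tb htb)
  have h20 : (2 : R1) = 0 := by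
    have h1 : π 2 = 0 := by
      rw [hπ]
      have h2 : ((2 : O) : E) = 2 := map_ofNat O.subtype 2
      unfold Dv
      rw [h2, zpow_neg_one, inv_mul_cancel₀ hR.two_ne]
      exact O.one_mem
    rwa [map_ofNat] at h1
  refine ⟨DH tb ⊤, inferInstance, ?_, t1, E, inferInstance, hR.charZero, t, hF1,
    { toFEb := vfe_feb hR hF, gen := hg }, ?_⟩
  · refine CharTwo.of_one_ne_zero_of_two_eq_zero one_ne_zero (Subtype.ext ?_)
    exact h20
  · intro I J _ _ _ T hT
    obtain ⟨Y, hY⟩ := hT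
    refine lift_tb hR hF π hπ tb htb I J T ⟨fun j i => (Y j i : R1), fun i i' => ?_⟩
    have h1 := congrArg (DH tb ⊤).subtype (hY i i')
    rw [map_sum] at h1
    have h2 : (DH tb ⊤).subtype (if i = i' then 1 else 0) = if i = i' then 1 else 0 := by
      split_ifs
      · exact map_one _
      · exact map_zero _
    rw [h2] at h1
    rw [← h1]
    refine Finset.sum_congr rfl fun j _ => ?_
    rw [map_mul, ← ev_sub_PLift tb t1 ht1]
    rfl

end SingerBO
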