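import Mathlib
import Pool.Agent.Lib_MP_394d50_pb.PLift

/-!
# The pair in characteristic 2 and 0
-/

namespace SingerBO

theorem good_pair {G : Type} [Group G] (h : Good G) :
    ∃ (D1 : Type) (_ : DivisionRing D1) (_ : CharP D1 2) (t1 : G →* D1ˣ)
      (D0 : Type) (_ : DivisionRing D0) (_ : CharZero D0) (t0 : G →* D0ˣ),
      FE t1 ∧ FE t0 ∧ LiftP t1 t0 := by
  obtain ⟨E, iE, O, t, hR, hF, hg⟩ := h.fe
  exact pair_of_vfe hR hF hg

end SingerBO
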