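import Mathlib
import Pool.Agent.Lib_MP_394d50_rn.PDZ
import Pool.Agent.Lib_MP_394d50_rn.MNR
import Pool.Agent.Lib_MP_394d50_cub.ABet
import Pool.Agent.Lib_MP_394d50_pb.EGood
import Pool.Agent.Lib_MP_394d50_pb.PPair
import Pool.Agent.Lib_MP_394d50_pb.POrd
import Pool.Agent.Lib_MP_394d50_bo.RNh
import Pool.Agent.Lib_MP_394d50_bo.TMain
import Pool.Agent.Lib_MP_394d50_bo.TTate

/-!
# The Singer conjecture for virtually poly-(bi-orderable) groups
-/

namespace SingerBO

open SingerVS SingerCub SingerRA SingerRN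
open scoped Pointwise

/-- `G` has a subnormal series of length `n` with bi-orderable factors. -/
def PBO : ℕ → ∀ (G : Type) [Group G], Prop
  | 0, G, _ => ∀ x : G, x = 1
  | n + 1, G, _ => ∃ (Q : Type) (_ : Group Q) (f : G →* Q), (∃ r : Q → Q → Prop, BOrd r) ∧
      PBO n f.ker

/-- `Γ` is virtually poly-(bi-orderable). -/
def VirtPBO (Γ : Type) [Group Γ] : Prop :=
  ∃ K : Subgroup Γ, K.FiniteIndex ∧ ∃ n, PBO n K

theorem good_of_pbo (n : ℕ) : ∀ (G : Type) [Group G], PBO n G → Good G := by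
  induction n with
  | zero => exact fun G _ h => good_triv h
  | succ n ih =>
    rintro G _ ⟨Q, _, f, ⟨r, hr⟩, h⟩
    exact good_ext f hr (ih _ h)

/-- There are no harmonic chains outside the middle dimension. -/
theorem nh_pbo {H P : Type} [Group H] [LinearOrder P] [MulAction H P] {X : Set (Finset P)}
    (hX : FreeCx H X) (ho : OrdInv H X) {n : ℕ} (hlf : PdR n X) (hac : Acyc X)
    (hG : Good H) (q : ℕ) (hq : 2 * q ≠ n) :
    NH (simpCx X (fun x y : P => x < y)) Set.univ q := by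
  obtain ⟨D1, i1, c1, t1, D0, i0, c0, t0, h1, h0, hl⟩ := good_pair hG
  let a1 : Algebra (ZMod 2) D1 := ZMod.algebra D1 2
  have hLI : LocInd H := hG.li
  have hex : ∀ k, 1 ≤ k → 2 * (k - 1) < n → ExCo (rhoD t1) X k := fun k hk1 hk2 =>
    tateG (rhoD t1) hX ho (fun i _ hi => tor_main h1 hLI hX hlf (by omega)) k hk1 hk2
  rcases Nat.lt_or_gt_of_ne hq with h | h
  · exact nh_low h0 hLI hl hX ho (hex (q + 1) (by omega) (by omega))
  · refine nh_high (t1 := t1) h0 hLI hl hX ho ?_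
    by_cases hqn : q ≤ n
    · have h2 := exBd_of_exCo_pd (ρ := rhoD t1) hX hlf hac (k := n + 1 - q) (by omega) (by omega)
        (hex (n + 1 - q) (by omega) (by omega))
      rwa [show n + 2 - (n + 1 - q) = q + 1 by omega] at h2
    · exact exBd_high_pd hX hlf hac (by omega)

/-- The local dimensions vanish, for a separate instance of decidable equality. -/
theorem locDim_dec_pbo {H P : Type} [Group H] [inst : DecidableEq P] [MulAction H P]
    {X : Set (Finset P)} (hX : FreeCx H X) {n : ℕ} (hlf : PdR n X) (hac : Acyc X)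
    (hG : Good H) (lo : LinearOrder P)
    (ho : ∀ h : H, ∀ σ ∈ X, ∀ x ∈ σ, ∀ y ∈ σ, lo.lt x y → lo.lt (h • x) (h • y))
    (c : {σ : Finset P // σ ∈ X}) (hc : 2 * (c.1.card - 1) ≠ n) :
    locDim (@simpCx P inst X lo.lt) c = 0 := by
  have e : inst = lo.toDecidableEq := Subsingleton.elim _ _
  subst e
  refine locDim_of_nh hX (c.1.card - 1) (nh_pbo hX ho hlf hac hG _ hc) c ?_
  have := Finset.card_pos.mpr (hX.ne _ c.2)
  omega

/-- The local dimensions vanish outside the middle dimension. -/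
theorem locDim_zero_pbo {Γ P : Type} [Group Γ] [inst : DecidableEq P] [MulAction Γ P]
    {X : Set (Finset P)} (hX : FreeCx Γ X) (hA : Acyc X) {n : ℕ} (hM : PdR n X)
    (hΓ : VirtPBO Γ) :
    ∃ (K : Subgroup Γ) (r : P → P → Prop), K.FiniteIndex ∧ (∀ σ ∈ X, TotOn r σ) ∧
      (∀ h : K, ∀ σ ∈ X, ∀ x ∈ σ, ∀ y ∈ σ, r x y → r (h • x) (h • y)) ∧
      ∀ c : {σ : Finset P // σ ∈ X}, 2 * (c.1.card - 1) ≠ n →
        locDim (simpCx X r) c = 0 := by
  obtain ⟨K, hK, m, hm⟩ := hΓ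
  have hG : Good K := good_of_pbo m K hm
  obtain ⟨r, hr⟩ := hG.lo
  have hXK : @FreeCx K _ P inst _ X := @FreeCx.of_finiteIndex Γ P _ inst _ X hX K hK
  obtain ⟨lo, hord⟩ := exists_ordInv_lo hXK hr
  have hT : ∀ σ ∈ X, TotOn lo.lt σ := fun σ _ => totOn_lt lo σ
  exact ⟨K, lo.lt, hK, hT, hord, fun c hc => locDim_dec_pbo hXK hM hA hG lo hord c hc⟩

section

variable {Γ P : Type} [Group Γ] [LinearOrder P] [MulAction Γ P] {X : Set (Finset P)}

/-- **The Singer conjecture for virtually poly-(bi-orderable) groups.** -/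
theorem main_pbo (hX : FreeCx Γ X) (hA : Acyc X) {n : ℕ} (hM : HomMfd n X ∨ PdR n X)
    (hΓ : VirtPBO Γ) :
    (∀ k, 2 * k ≠ n → bettiX Γ X k = 0) ∧
      (∀ k, 2 * k = n → bettiX Γ X k = (-1 : ℝ) ^ k * chiX Γ X) ∧
      ((∀ k, bettiX Γ X k = 0) ↔ chiX Γ X = 0) ∧
      ∀ k, 2 * k = n → 0 ≤ (-1 : ℤ) ^ k * chiX Γ X := by
  classical
  have hlf : PdR n X := hM.elim (fun h => LfR.pdR (HomMfd.lfR hX hA h)) id
  obtain ⟨K, r, hK, hr, hinv, hz⟩ := locDim_zero_pbo hX hA hlf hΓ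
  let iA : MulAction Γ {σ : Finset P // σ ∈ X} := simpAct hX.inv
  have hsm : ∀ (h : Γ) (c : {σ : Finset P // σ ∈ X}), (h • c).1 = h • c.1 := fun _ _ => rfl
  have hXK : FreeCx K X := hX.of_finiteIndex K hK
  have hr0 : ∀ σ ∈ X, TotOn (fun x y : P => x < y) σ := fun σ _ => SingerVS.totOn_lt inferInstance σ
  have hloc := locDim_smul_simp (H := Γ) hX.inv hsm hr0
  have hord := locDim_order hr0 hr
  have hF : FreeCell K (simpCx X r) := freeCell_simp hXK (fun _ _ => rfl) hr hinv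
  have hfree : ∀ (g : Γ) (c : {σ : Finset P // σ ∈ X}), g • c = c → g = 1 :=
    fun g c h => hX.free g c.1 c.2 (congrArg Subtype.val h)
  have hfin : Finite (Orb Γ {σ : Finset P // σ ∈ X}) := by
    obtain ⟨R, hR1, hR2⟩ := hX.fin
    refine Finite.of_surjective (fun x : R =>
      (Quotient.mk (MulAction.orbitRel Γ {σ : Finset P // σ ∈ X}) ⟨x.1, hR1 x.1 x.2⟩ :
        Orb Γ {σ : Finset P // σ ∈ X})) ?_
    intro o
    obtain ⟨c, rfl⟩ := Quotient.exists_rep o
    obtain ⟨h, s, hs, e⟩ := hR2 c.1 c.2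
    refine ⟨⟨s, hs⟩, Quotient.sound (MulAction.orbitRel_apply.mpr ⟨h⁻¹, ?_⟩)⟩
    refine Subtype.ext ?_
    show h⁻¹ • c.1 = s
    rw [e, inv_smul_smul]
  have key := betti_final (Γ := Γ) (I := simpCx X (fun x y : P => x < y)) (I' := simpCx X r) K
    hfree hfin (fun g c => by
      show (g • c.1).card - 1 = c.1.card - 1
      rw [Finset.card_smul_finset]) hloc (fun _ => rfl) hord hF n (fun c hc => by
      rw [← hord c]
      exact hz c hc)
  rw [chiX_eq hX]
  have hb : ∀ k, bettiX Γ X k = l2Betti Γ (simpCx X (fun x y : P => x < y)) k :=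
    fun k => bettiX_eq hX (fun g c => hloc g c) k
  simp only [hb]
  exact key

/-- The topological form. -/
theorem main_top_pbo (hX : FreeCx Γ X) (hA : Acyc X ∨ ContractibleSpace (geo X)) {n : ℕ}
    (hM : HomMfd n X ∨ PdR n X ∨ LocEuc n (geo X)) (hΓ : VirtPBO Γ) :
    (∀ k, 2 * k ≠ n → bettiX Γ X k = 0) ∧
      (∀ k, 2 * k = n → bettiX Γ X k = (-1 : ℝ) ^ k * chiX Γ X) ∧
      ((∀ k, bettiX Γ X k = 0) ↔ chiX Γ X = 0) ∧
      ∀ k, 2 * k = n → 0 ≤ (-1 : ℤ) ^ k * chiX Γ X := by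
  have hD : Dn X := fun σ hσ τ h1 h2 => hX.down σ hσ τ h1 h2
  have hA' : Acyc X := by
    rcases hA with h | h
    · exact h
    · refine acyc_of_contractible hD hX.ne (fun σ hσ => ?_) h
      have h4 : ((fun p => insert p σ) '' {p | p ∉ σ ∧ insert p σ ∈ X}).Finite := by
        refine (hX.finStar hσ).subset ?_
        rintro _ ⟨p, ⟨_, h2⟩, rfl⟩
        exact ⟨h2, Finset.subset_insert p σ⟩
      refine Set.Finite.of_finite_image h4 ?_
      intro p hp q _ e
      have h3 : p ∈ insert q σ := by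
        rw [← show insert p σ = insert q σ from e]
        exact Finset.mem_insert_self p σ
      exact (Finset.mem_insert.mp h3).resolve_right hp.1
  have hM' : HomMfd n X ∨ PdR n X := by
    rcases hM with h | h | h
    · exact Or.inl h
    · exact Or.inr h
    · exact Or.inl (homMfd_of_locEuc hD hX.ne (fun σ hσ => hX.finStar hσ) h)
  exact main_pbo hX hA' hM' hΓ

end

end SingerBO
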